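import Pool.Agent.PFk.Prm
import Pool.Agent.Bst88.Inf
import Pool.Agent.Frm14.App
import Pool.Agent.PB3.StabMain

/-!
# Families which do not split: the number of strands and the case of equality
-/

set_option autoImplicit false

namespace Pool.Agent.PFk

open Pool.Agent.Conf14 (PB RkOne indep_iso closure_mem)
open Pool.Agent.PB3
open Pool.Agent.Bst88 (big gp gp_sw big_sw_o big_sw_p big_sw_q)
open Pool.Agent.Frm14 (PBN tw cr tw_succ cr_succ rkOne_tw)
open Module

section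
variable {n : ℕ} {G : Type*} [Group G] {a : Fin n → Fin n → G}

theorem srt_eq {L M : List (Fin n)} (hL : L.Pairwise (· < ·))
    (hM : M.Pairwise (· < ·)) (h : ∀ u, u ∈ L ↔ u ∈ M) : L = M := by
  have h1 : L.Perm M := by
    refine (List.perm_ext_iff_of_nodup ?_ ?_).2 h
    · exact hL.imp fun h => h.ne
    · exact hM.imp fun h => h.ne
  exact List.Perm.eq_of_pairwise (fun a b _ _ h1 h2 => absurd (h1.trans h2) (lt_irrefl a)) hL hM h1

theorem low_snoc (x : Fin n) : (low x ++ [x]).Pairwise (· < ·) := by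
  rw [List.pairwise_append]
  refine ⟨low_sorted x, List.pairwise_singleton _ _, ?_⟩
  intro u hu v hv
  rw [List.mem_singleton] at hv
  rw [hv]
  exact mem_low.1 hu

theorem low_succ {x y : Fin n} (hxy : (x : ℕ) + 1 = y) : low y = low x ++ [x] := by
  refine srt_eq (low_sorted y) (low_snoc x) ?_
  intro u
  rw [List.mem_append, List.mem_singleton, mem_low, mem_low, Fin.lt_def, Fin.lt_def, Fin.ext_iff]
  omega

theorem finRange_eq {x : Fin n} (hx : (x : ℕ) + 1 = n) : List.finRange n = low x ++ [x] := by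
  refine srt_eq (List.pairwise_lt_finRange n) (low_snoc x) ?_
  intro u
  rw [List.mem_append, List.mem_singleton, mem_low, Fin.lt_def, Fin.ext_iff]
  have := u.2
  simp only [List.mem_finRange, true_iff]
  omega

theorem fd_low_succ (h : PB a) {x y : Fin n} (hxy : (x : ℕ) + 1 = y) :
    fd a (low y) = fd a (low x) * lp (fun u => a u x) (low x) := by
  rw [low_succ hxy, fd_snoc h (low_snoc x)]

theorem cr_eq {b : ℕ → ℕ → G}
    (hb : ∀ i j (hi : i < n) (hj : j < n), i < j → b i j = a ⟨i, hi⟩ ⟨j, hj⟩) {l : ℕ}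
    (hl : l < n) : ∀ {u : ℕ} (hu : u ≤ l),
      cr b 0 u l = lp (fun m => a m ⟨l, hl⟩) (low ⟨u, lt_of_le_of_lt hu hl⟩) := by
  intro u
  induction u with
  | zero =>
      intro hu
      have : low (⟨0, lt_of_le_of_lt hu hl⟩ : Fin n) = [] := by
        rw [List.eq_nil_iff_forall_not_mem]
        intro v hv
        rw [mem_low, Fin.lt_def] at hv
        exact absurd hv (Nat.not_lt_zero _)
      rw [this]
      rfl
  | succ u ih =>
      intro hu
      have hu' : u < n := by omega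
      rw [cr_succ, ih (by omega), low_succ (x := ⟨u, hu'⟩) (y := ⟨u + 1, by omega⟩) rfl,
        lp_append, zero_add, hb u l hu' hl (by omega), lp_cons, lp_nil, mul_one]

theorem tw_eq (h : PB a) {b : ℕ → ℕ → G}
    (hb : ∀ i j (hi : i < n) (hj : j < n), i < j → b i j = a ⟨i, hi⟩ ⟨j, hj⟩) :
    ∀ {k : ℕ} (hk : k < n), tw b k = fd a (low ⟨k, hk⟩) := by
  intro k
  induction k with
  | zero =>
      intro hk
      have : low (⟨0, hk⟩ : Fin n) = [] := by
        rw [List.eq_nil_iff_forall_not_mem]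
        intro v hv
        rw [mem_low, Fin.lt_def] at hv
        exact absurd hv (Nat.not_lt_zero _)
      rw [this]
      rfl
  | succ k ih =>
      intro hk
      have hk' : k < n := by omega
      rw [tw_succ, ih hk', fd_low_succ h (x := ⟨k, hk'⟩) (y := ⟨k + 1, hk⟩) rfl,
        cr_eq hb hk' (le_refl k)]

theorem pbn_of (h : PB a) {m : ℕ} (hm : m ≤ n) {b : ℕ → ℕ → G}
    (hb : ∀ i j (hi : i < n) (hj : j < n), i < j → b i j = a ⟨i, hi⟩ ⟨j, hj⟩) : PBN m b := by
  constructor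
  · intro i j k h1 h2 h3
    rw [hb i j (by omega) (by omega) h1, hb i k (by omega) (by omega) (by omega),
      hb j k (by omega) (by omega) h2]
    exact h.t1 _ _ _ (Fin.lt_def.mpr h1) (Fin.lt_def.mpr h2)
  · intro i j k h1 h2 h3
    rw [hb i j (by omega) (by omega) h1, hb i k (by omega) (by omega) (by omega),
      hb j k (by omega) (by omega) h2]
    exact h.t2 _ _ _ (Fin.lt_def.mpr h1) (Fin.lt_def.mpr h2)
  · intro i j k l h1 h2 h3 h4
    rw [hb i j (by omega) (by omega) h1, hb k l (by omega) (by omega) h3]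
    exact h.q1 _ _ _ _ (Fin.lt_def.mpr h1) (Fin.lt_def.mpr h2) (Fin.lt_def.mpr h3)
  · intro i j k l h1 h2 h3 h4
    rw [hb i l (by omega) (by omega) (by omega), hb j k (by omega) (by omega) h2]
    exact h.q2 _ _ _ _ (Fin.lt_def.mpr h1) (Fin.lt_def.mpr h2) (Fin.lt_def.mpr h3)
  · intro i j k l h1 h2 h3 h4
    rw [hb k l (by omega) (by omega) h3, hb i k (by omega) (by omega) (by omega),
      hb j l (by omega) (by omega) (by omega)]
    exact h.q3 _ _ _ _ (Fin.lt_def.mpr h1) (Fin.lt_def.mpr h2) (Fin.lt_def.mpr h3)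

/-- the exchange of two neighbours for families on `Fin n` and on the natural numbers -/
theorem sw_eq (h : PB a) {b : ℕ → ℕ → G}
    (hb : ∀ i j (hi : i < n) (hj : j < n), i < j → b i j = a ⟨i, hi⟩ ⟨j, hj⟩) {p : ℕ}
    (hp : p + 1 < n) : ∀ i j (hi : i < n) (hj : j < n), i < j → Pool.Agent.Frm14.sw b p i j =
      Pool.Agent.Bst88.sw a ⟨p, by omega⟩ ⟨p + 1, hp⟩ ⟨i, hi⟩ ⟨j, hj⟩ := by
  intro i j hi hj hij
  have hne : (⟨p, by omega⟩ : Fin n) ≠ ⟨p + 1, hp⟩ := fun e => by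
    have := congrArg Fin.val e
    simp at this
  have ne : ∀ {u v : ℕ} (hu : u < n) (hv : v < n), u ≠ v → (⟨u, hu⟩ : Fin n) ≠ ⟨v, hv⟩ :=
    fun hu hv huv e => huv (congrArg Fin.val e)
  unfold Pool.Agent.Frm14.sw
  by_cases h1 : j = p
  · subst h1
    rw [if_pos rfl, hb i (j + 1) hi hp (by omega),
      Pool.Agent.Bst88.sw_p' (ne _ _ (by omega)) (ne _ _ (by omega)) hne]
  rw [if_neg h1]
  by_cases h2 : j = p + 1
  · subst h2
    rw [if_pos rfl]
    by_cases h3 : i = p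
    · subst h3
      rw [if_pos rfl, Pool.Agent.Bst88.sw_pq h rfl, hb _ _ hi hj hij]
    · rw [if_neg h3, Pool.Agent.Bst88.sw_q' (ne _ _ h3) (ne _ _ (by omega)),
        hb p (p + 1) (by omega) hj (by omega), hb i p hi (by omega) (by omega)]
  rw [if_neg h2]
  by_cases h3 : i = p
  · subst h3
    rw [if_pos rfl, Pool.Agent.Bst88.sw_p (ne _ _ (by omega)) (ne _ _ (by omega)) hne,
      hb (i + 1) j hp hj (by omega)]
  rw [if_neg h3]
  by_cases h4 : i = p + 1
  · subst h4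
    rw [if_pos rfl, Pool.Agent.Bst88.sw_q (ne _ _ (by omega)) (ne _ _ (by omega)),
      hb p (p + 1) (by omega) hp (by omega), hb p j (by omega) hj (by omega)]
  rw [if_neg h4, Pool.Agent.Bst88.sw_o (ne _ _ h3) (ne _ _ h4) (ne _ _ h1) (ne _ _ h2),
    hb i j hi hj hij]

theorem pr_eq_lp {ι : Type*} (f : ι → G) (L : List ι) : Pool.Agent.Bst88.pr f L = lp f L := rfl

/-- The full twist of all strands but two, if the big loops of the last two strands are known. -/
theorem fd_last (h : PB a) {p q : Fin n} (hpq : (p : ℕ) + 1 = q) (hq : (q : ℕ) + 1 = n) :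
    fd a (List.finRange n) = fd a (low p) * (big a p * (a p q)⁻¹) * big a q := by
  have hpq' : p < q := by rw [Fin.lt_def]; omega
  have e1 : big a q = lp (fun u => a u q) (low q) := by
    unfold big
    rw [finRange_eq hq, pr_eq_lp, lp_append, lp_cons, lp_nil, if_pos rfl, mul_one, mul_one]
    unfold lp
    congr 1
    apply List.map_congr_left
    intro u hu
    rw [if_neg (mem_low.1 hu).ne, h.symm]
  have e2 : big a p = lp (fun u => a u p) (low p) * a p q := by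
    unfold big
    rw [finRange_eq hq, low_succ hpq, pr_eq_lp, lp_append, lp_append, lp_cons, lp_nil, lp_cons,
      lp_nil, if_pos rfl, if_neg hpq'.ne', mul_one, mul_one, mul_one]
    congr 1
    unfold lp
    congr 1
    apply List.map_congr_left
    intro u hu
    rw [if_neg (mem_low.1 hu).ne, h.symm]
  rw [finRange_eq hq, fd_snoc h (low_snoc q), fd_low_succ h hpq, e1, e2]
  group

end

section
variable {N : ℕ} {V : Type*} [AddCommGroup V] [Module ℂ V] {c : Fin N → Fin N → (V ≃ₗ[ℂ] V)}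

/-- irreducible families with central big loops which do not split -/
structure Good (c : Fin N → Fin N → (V ≃ₗ[ℂ] V)) : Prop where
  pb : PB c
  irr : IrrF c
  ns : NoSplit c
  sph : ∀ k, Cen (big c k)

theorem irrF_of_gp [FiniteDimensional ℂ V] {c c' : Fin N → Fin N → (V ≃ₗ[ℂ] V)}
    (h : IrrF c) (hg : gp c ≤ gp c') : IrrF c' := by
  intro W hW
  apply h W
  intro i j hij x hx
  have h1 : c i j ∈ gp c' := hg (Pool.Agent.Bst88.mem_gp hij)
  refine closure_mem _ W ?_ _ h1 x hx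
  rintro f ⟨k, l, hkl, rfl⟩
  exact hW k l hkl

theorem irrF_of_gp' [FiniteDimensional ℂ V] {M : ℕ} {c : Fin N → Fin N → (V ≃ₗ[ℂ] V)}
    {c' : Fin M → Fin M → (V ≃ₗ[ℂ] V)} (h : IrrF c) (hg : gp c ≤ gp c') : IrrF c' := by
  intro W hW
  apply h W
  intro i j hij x hx
  have h1 : c i j ∈ gp c' := hg (Pool.Agent.Bst88.mem_gp hij)
  refine closure_mem _ W ?_ _ h1 x hx
  rintro f ⟨k, l, hkl, rfl⟩
  exact hW k l hkl

theorem Good.sw [FiniteDimensional ℂ V] (h : Good c) {p q : Fin N} (hpq : (q : ℕ) = p + 1) :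
    Good (Pool.Agent.Bst88.sw c p q) where
  pb := Pool.Agent.Bst88.PB.sw h.pb hpq
  irr := irrF_of_gp h.irr (gp_sw h.pb hpq).ge
  ns := by
    have hne : p ≠ q := by
      intro e
      rw [e] at hpq
      omega
    refine NoSplit.of_rel h.ns (gp_sw h.pb hpq) (Equiv.swap p q) ?_
    intro i j _
    unfold Pool.Agent.Bst88.sw
    split_ifs
    · exact ⟨c p q, mem_Hg hne, rfl⟩
    · exact ⟨1, one_mem _, by simp⟩
  sph := by
    intro k
    by_cases h1 : k = p
    · rw [h1, big_sw_p h.pb hpq]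
      exact h.sph q
    by_cases h2 : k = q
    · rw [h2, big_sw_q h.pb hpq]
      exact (h.sph p).conj _
    · rw [big_sw_o h.pb hpq h1 h2]
      exact h.sph k

theorem Good.nc (h : Good c) {b : ℕ → ℕ → (V ≃ₗ[ℂ] V)}
    (hb : ∀ i j (hi : i < N) (hj : j < N), i < j → b i j = c ⟨i, hi⟩ ⟨j, hj⟩) {j : ℕ}
    (h2 : 2 ≤ j) (hj : j + 1 < N) : ¬ Commute (tw b j) (b (j - 1) j) := by
  rw [tw_eq h.pb hb (k := j) (by omega), hb (j - 1) j (by omega) (by omega) (by omega)]
  refine edge h.pb h.ns (x := ⟨j - 1, by omega⟩) (y := ⟨j, by omega⟩) (z := ⟨j + 1, hj⟩) ?_ ?_ ?_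
  · show j - 1 + 1 = j
    omega
  · show 0 < j - 1
    omega
  · rw [Fin.lt_def]
    show j < j + 1
    omega

/-- the number of strands -/
theorem Good.bound [FiniteDimensional ℂ V] [Nontrivial V] (h : Good c) :
    N ≤ finrank ℂ V + 2 := by
  rcases Nat.lt_or_ge N 3 with h3 | h3
  · have : 0 < finrank ℂ V := finrank_pos
    omega
  obtain ⟨k, rfl⟩ : ∃ k, N = k + 3 := ⟨N - 3, by omega⟩
  obtain ⟨b, hb'⟩ : ∃ b : ℕ → ℕ → (V ≃ₗ[ℂ] V), b = Pool.Agent.Frm14.ex c := ⟨_, rfl⟩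
  have hb : ∀ i j (hi : i < k + 3) (hj : j < k + 3), i < j → b i j = c ⟨i, hi⟩ ⟨j, hj⟩ := by
    intro i j hi hj _
    rw [hb', Pool.Agent.Frm14.ex_eq c hi hj]
  have hc := (pbn_of h.pb (m := k + 2) (by omega) hb).chn fun j h2 hj =>
    h.nc hb h2 (by omega)
  have := indep_iso _ _ (fun _ => 0) hc.hx (fun i j hij _ => hc.hxy i j hij) hc.hne
  rw [Fintype.card_fin] at this
  omega

theorem cen_mul_rkOne [FiniteDimensional ℂ V] [Nontrivial V] {z f : V ≃ₗ[ℂ] V} {s : ℂ}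
    (hs : ∀ x, z x = s • x) (h : RkOne (z * f)) : RkOne f := by
  obtain ⟨c, hc⟩ := h
  have hs0 : s ≠ 0 := by
    intro h0
    obtain ⟨u, hu⟩ := exists_ne (0 : V)
    apply hu
    apply z.injective
    rw [hs, h0, zero_smul, map_zero]
  refine ⟨s⁻¹ * c, le_trans (Submodule.finrank_mono ?_) hc⟩
  rintro _ ⟨x, rfl⟩
  refine ⟨s⁻¹ • x, ?_⟩
  simp only [LinearMap.sub_apply, LinearMap.smul_apply, LinearMap.id_apply]
  show z (f (s⁻¹ • x)) - c • s⁻¹ • x = f x - (s⁻¹ * c) • x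
  rw [hs, map_smul, smul_smul, mul_inv_cancel₀ hs0, one_smul, smul_smul, mul_comm]

theorem rkOne_conj [FiniteDimensional ℂ V] {f g : V ≃ₗ[ℂ] V} (h : RkOne (g * f * g⁻¹)) :
    RkOne f := by
  obtain ⟨c, hc⟩ := h
  refine ⟨c, le_trans ?_ hc⟩
  have e : LinearMap.range (f.toLinearMap - c • LinearMap.id) =
      (LinearMap.range ((g * f * g⁻¹).toLinearMap - c • LinearMap.id)).map
        (g⁻¹ : V ≃ₗ[ℂ] V).toLinearMap := by
    ext y
    constructor
    · rintro ⟨x, rfl⟩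
      refine ⟨_, ⟨g x, rfl⟩, ?_⟩
      simp only [LinearMap.sub_apply, LinearMap.smul_apply, LinearMap.id_apply, map_sub, map_smul]
      have h1 : (g⁻¹ : V ≃ₗ[ℂ] V) ((g * f * g⁻¹ : V ≃ₗ[ℂ] V) (g x)) = f x := by
        have : (g⁻¹ * (g * f * g⁻¹) * g : V ≃ₗ[ℂ] V) = f := by group
        exact LinearEquiv.congr_fun this x
      have h2 : (g⁻¹ : V ≃ₗ[ℂ] V) (g x) = x := by
        have : (g⁻¹ * g : V ≃ₗ[ℂ] V) = 1 := by group
        exact LinearEquiv.congr_fun this x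
      show (g⁻¹ : V ≃ₗ[ℂ] V) ((g * f * g⁻¹ : V ≃ₗ[ℂ] V) (g x)) - c • (g⁻¹ : V ≃ₗ[ℂ] V) (g x) =
        f x - c • x
      rw [h1, h2]
    · rintro ⟨_, ⟨x, rfl⟩, rfl⟩
      refine ⟨(g⁻¹ : V ≃ₗ[ℂ] V) x, ?_⟩
      simp only [LinearMap.sub_apply, LinearMap.smul_apply, LinearMap.id_apply, map_sub, map_smul]
      have h1 : (g⁻¹ : V ≃ₗ[ℂ] V) ((g * f * g⁻¹ : V ≃ₗ[ℂ] V) x) = f ((g⁻¹ : V ≃ₗ[ℂ] V) x) := by
        have : (g⁻¹ * (g * f * g⁻¹) : V ≃ₗ[ℂ] V) = f * g⁻¹ := by group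
        exact LinearEquiv.congr_fun this x
      show f ((g⁻¹ : V ≃ₗ[ℂ] V) x) - c • (g⁻¹ : V ≃ₗ[ℂ] V) x =
        (g⁻¹ : V ≃ₗ[ℂ] V) ((g * f * g⁻¹ : V ≃ₗ[ℂ] V) x) - c • (g⁻¹ : V ≃ₗ[ℂ] V) x
      rw [h1]
  rw [e]
  exact Submodule.finrank_map_le _ _

/-- the case of equality, last pair -/
theorem Good.last [FiniteDimensional ℂ V] [Nontrivial V] (h : Good c)
    (hN : N = finrank ℂ V + 2) (h2 : 2 ≤ finrank ℂ V) {p q : Fin N} (hpq : (p : ℕ) + 1 = q)
    (hq : (q : ℕ) + 1 = N) : RkOne (c p q) := by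
  have hp : (p : ℕ) = finrank ℂ V := by omega
  obtain ⟨b, hb'⟩ : ∃ b : ℕ → ℕ → (V ≃ₗ[ℂ] V), b = Pool.Agent.Frm14.ex c := ⟨_, rfl⟩
  have hb : ∀ i j (hi : i < N) (hj : j < N), i < j → b i j = c ⟨i, hi⟩ ⟨j, hj⟩ := by
    intro i j hi hj _
    rw [hb', Pool.Agent.Frm14.ex_eq c hi hj]
  have key : RkOne (tw b (finrank ℂ V)) := by
    refine rkOne_tw h2 rfl (fun b => ∃ c : Fin N → Fin N → (V ≃ₗ[ℂ] V), Good c ∧
      ∀ i j (hi : i < N) (hj : j < N), i < j → b i j = c ⟨i, hi⟩ ⟨j, hj⟩) ?_ ?_ ?_ b ⟨c, h, hb⟩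
    · rintro b ⟨c, hc, hb⟩
      exact pbn_of hc.pb (by omega) hb
    · rintro b ⟨c, hc, hb⟩ p hp
      exact ⟨_, hc.sw (p := ⟨p, by omega⟩) (q := ⟨p + 1, by omega⟩) rfl,
        sw_eq hc.pb hb (by omega)⟩
    · rintro b ⟨c, hc, hb⟩ j h2 hj
      exact hc.nc hb h2 (by omega)
  rw [tw_eq h.pb hb (k := finrank ℂ V) (by omega)] at key
  have hpe : (⟨finrank ℂ V, by omega⟩ : Fin N) = p := Fin.ext hp.symm
  rw [hpe] at key
  -- the full twist is central
  have hcen : Cen (fd c (List.finRange N)) := by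
    obtain ⟨s, hs⟩ := schur (S := {f | ∃ k l, k ≠ l ∧ f = c k l}) (by
      intro U hU
      exact h.irr U fun k l hkl => hU _ ⟨k, l, hkl, rfl⟩) (fd c (List.finRange N)) (by
      rintro f ⟨k, l, hkl, rfl⟩
      rcases lt_or_gt_of_ne hkl with h1 | h1
      · exact fd_comm h.pb (List.pairwise_lt_finRange N) (List.mem_finRange _)
          (List.mem_finRange _) h1
      · rw [h.pb.symm]
        exact fd_comm h.pb (List.pairwise_lt_finRange N) (List.mem_finRange _)
          (List.mem_finRange _) h1)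
    exact cen_of_scalar hs
  have e := fd_last h.pb hpq hq
  have e2 : fd c (low p) = (fd c (List.finRange N) * (big c q)⁻¹ * (big c p)⁻¹) * c p q := by
    have hc := h.sph p
    have h1 : fd c (low p) = fd c (List.finRange N) * (big c q)⁻¹ * (c p q * (big c p)⁻¹) := by
      rw [e]
      group
    rw [h1, ← (hc.inv (c p q)).eq]
    group
  rw [e2] at key
  obtain ⟨s, hs⟩ := schur (S := {f | ∃ k l, k ≠ l ∧ f = c k l}) (by
      intro U hU
      exact h.irr U fun k l hkl => hU _ ⟨k, l, hkl, rfl⟩)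
      (fd c (List.finRange N) * (big c q)⁻¹ * (big c p)⁻¹) (by
      intro f _
      exact ((hcen.mul (h.sph q).inv).mul (h.sph p).inv) f)
  exact cen_mul_rkOne hs key

/-- the case of equality, all pairs -/
theorem Good.rkOne [FiniteDimensional ℂ V] [Nontrivial V]
    (hN : N = finrank ℂ V + 2) (h2 : 2 ≤ finrank ℂ V) : ∀ (d : ℕ) (c : Fin N → Fin N →
      (V ≃ₗ[ℂ] V)), Good c → ∀ i j : Fin N, i < j → (i : ℕ) + j + d + 3 = 2 * N →
      RkOne (c i j) := by
  intro d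
  induction d with
  | zero =>
      intro c h i j hij hd
      have h1 := i.2
      have h3 := j.2
      rw [Fin.lt_def] at hij
      exact h.last hN h2 (p := i) (q := j) (by omega) (by omega)
  | succ d ih =>
      intro c h i j hij hd
      have h1 := i.2
      have h3 := j.2
      rw [Fin.lt_def] at hij
      by_cases h4 : (j : ℕ) + 1 < N
      · obtain ⟨q, hq⟩ : ∃ q : Fin N, (q : ℕ) = j + 1 := ⟨⟨j + 1, h4⟩, rfl⟩
        have h5 := ih _ (h.sw hq) i q (by rw [Fin.lt_def]; omega) (by omega)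
        rw [Pool.Agent.Bst88.sw_q' (by rw [Ne, Fin.ext_iff]; omega)
          (by rw [Ne, Fin.ext_iff]; omega)] at h5
        exact rkOne_conj h5
      · obtain ⟨q, hq⟩ : ∃ q : Fin N, (q : ℕ) = i + 1 := ⟨⟨i + 1, by omega⟩, rfl⟩
        have h5 := ih _ (h.sw hq) q j (by rw [Fin.lt_def]; omega) (by omega)
        rw [Pool.Agent.Bst88.sw_q (by rw [Ne, Fin.ext_iff]; omega)
          (by rw [Ne, Fin.ext_iff]; omega)] at h5
        exact rkOne_conj h5

/-- **The case of equality.** -/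
theorem Good.all [FiniteDimensional ℂ V] [Nontrivial V] (h : Good c)
    (hN : N = finrank ℂ V + 2) (h2 : 2 ≤ finrank ℂ V) {i j : Fin N} (hij : i ≠ j) :
    RkOne (c i j) := by
  rcases lt_or_gt_of_ne hij with h1 | h1
  · have h3 := i.2
    have h4 := j.2
    rw [Fin.lt_def] at h1
    exact Good.rkOne hN h2 (2 * N - 3 - i - j) c h i j h1 (by omega)
  · have h3 := i.2
    have h4 := j.2
    rw [h.pb.symm]
    rw [Fin.lt_def] at h1
    exact Good.rkOne hN h2 (2 * N - 3 - i - j) c h j i h1 (by omega)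

end

end Pool.Agent.PFk
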