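import Pool.Agent.PFk.Lst

/-!
# Triples, cabling of the first strands, conjugation of the generators on one strand
-/

set_option autoImplicit false

namespace Pool.Agent.PFk

open Pool.Agent.Conf14 (PB)
open Pool.Agent.PB3

variable {n : ℕ} {G : Type*} [Group G] {a : Fin n → Fin n → G}

/-- the strands before `x`, in ascending order -/
def low (x : Fin n) : List (Fin n) := (List.finRange n).filter (fun u => u < x)

theorem mem_low {x u : Fin n} : u ∈ low x ↔ u < x := by simp [low]

theorem low_sorted (x : Fin n) : (low x).Pairwise (· < ·) :=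
  (List.pairwise_lt_finRange n).filter _

private theorem TA_conj {D E q w z : G} (hE : E = D * z) (h1 : Commute E w)
    (h2 : Commute (D * q) w) : z * w * z⁻¹ = q * w * q⁻¹ := by
  have e1 : z = D⁻¹ * E := by rw [hE]; group
  have e2 : E * w = w * E := h1
  have e3 : D * q * w = w * (D * q) := h2
  calc z * w * z⁻¹ = D⁻¹ * (E * w) * E⁻¹ * D := by rw [e1]; group
    _ = D⁻¹ * (w * E) * E⁻¹ * D := by rw [e2]
    _ = D⁻¹ * (w * (D * q)) * q⁻¹ := by group
    _ = D⁻¹ * (D * q * w) * q⁻¹ := by rw [e3]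
    _ = q * w * q⁻¹ := by group

/-- **Module TA.** The twist of a bundle of strands and two later strands.

PROOF.  Write `p = lp (a · x) S`, `q = lp (a · y) S`, `t = a x y`, `D = fd a S`, `z = p * q * t`.
By `fd_snoc` twice `fd a (S ++ [x]) = D * p`, `fd a (S ++ [x, y]) = (D * p) * lp (a · y) (S ++ [x]) =
D * z`, and `fd a (S ++ [y]) = D * q`.  By `fd_comm` `D * z` commutes with `a s x`, `a s y`
(`s ∈ S`), `a x y` and `a s s'` (`s < s' ∈ S`); so with `p`, `q` (`lp_commute`), `t`.
`D` commutes with `p` and `q` (`lp_w`, `fd_commute`) and with `t` (`h.q1`, `fd_commute`).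
So `z = D⁻¹ * (D * z)` commutes with `p`, `q`, `t`, and
`z * a s y * z⁻¹ = D⁻¹ * a s y * D = q * a s y * q⁻¹`, the last one because `D * q` commutes with
`a s y` (`fd_comm` for `S ++ [y]`).  The same for `x`. -/
theorem tri_left (h : PB a) {S : List (Fin n)} {x y : Fin n}
    (hs : (S ++ [x, y]).Pairwise (· < ·)) {z : G}
    (hz : z = lp (fun u => a u x) S * lp (fun u => a u y) S * a x y) :
    Commute z (lp (fun u => a u x) S) ∧ Commute z (lp (fun u => a u y) S) ∧
      Commute z (a x y) ∧
      (∀ s ∈ S, z * a s y * z⁻¹ =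
        lp (fun u => a u y) S * a s y * (lp (fun u => a u y) S)⁻¹) ∧
      (∀ s ∈ S, z * a s x * z⁻¹ =
        lp (fun u => a u x) S * a s x * (lp (fun u => a u x) S)⁻¹) := by
  have hs' : ((S ++ [x]) ++ [y]).Pairwise (· < ·) := by
    rw [List.append_assoc]
    exact hs
  have hs1 : (S ++ [x]).Pairwise (· < ·) := (List.pairwise_append.1 hs').1
  have hs0 : S.Pairwise (· < ·) := (List.pairwise_append.1 hs1).1
  have hSx : ∀ u ∈ S, u < x := fun u hu => (List.pairwise_append.1 hs1).2.2 u hu x (by simp)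
  have hSy : ∀ u ∈ S, u < y :=
    fun u hu => (List.pairwise_append.1 hs').2.2 u (by simp [hu]) y (by simp)
  have hxy : x < y := (List.pairwise_append.1 hs').2.2 x (by simp) y (by simp)
  have hs2 : (S ++ [y]).Pairwise (· < ·) := by
    rw [List.pairwise_append]
    refine ⟨hs0, List.pairwise_singleton _ _, fun u hu v hv => ?_⟩
    rw [List.mem_singleton.1 hv]
    exact hSy u hu
  have f1 : fd a (S ++ [x]) = fd a S * lp (fun u => a u x) S := fd_snoc h hs1
  have f2 : fd a (S ++ [y]) = fd a S * lp (fun u => a u y) S := fd_snoc h hs2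
  have f3 : fd a ((S ++ [x]) ++ [y]) = fd a S * z := by
    rw [fd_snoc h hs', f1, lp_append, lp_cons, lp_nil, hz]
    group
  have cD1 : Commute (fd a S) (lp (fun u => a u x) S) :=
    (fd_commute hs0 fun u hu v hv huv => lp_w h hs1 hu hv huv).symm
  have cD2 : Commute (fd a S) (lp (fun u => a u y) S) :=
    (fd_commute hs0 fun u hu v hv huv => lp_w h hs2 hu hv huv).symm
  have cD3 : Commute (fd a S) (a x y) :=
    (fd_commute hs0 fun u hu v hv huv => (h.q1 u v x y huv (hSx v hv) hxy).symm).symm
  have cE : ∀ u ∈ (S ++ [x]) ++ [y], ∀ v ∈ (S ++ [x]) ++ [y], u < v →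
      Commute (fd a S * z) (a u v) := by
    intro u hu v hv huv
    rw [← f3]
    exact fd_comm h hs' hu hv huv
  have e1 : z = (fd a S)⁻¹ * (fd a S * z) := by group
  have c1 : Commute (fd a S * z) (lp (fun u => a u x) S) :=
    lp_commute fun u hu => cE u (by simp [hu]) x (by simp) (hSx u hu)
  have c2 : Commute (fd a S * z) (lp (fun u => a u y) S) :=
    lp_commute fun u hu => cE u (by simp [hu]) y (by simp) (hSy u hu)
  have c3 : Commute (fd a S * z) (a x y) := cE x (by simp) y (by simp) hxy
  refine ⟨?_, ?_, ?_, fun s hs => ?_, fun s hs => ?_⟩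
  · rw [e1]
    exact cD1.inv_left.mul_left c1
  · rw [e1]
    exact cD2.inv_left.mul_left c2
  · rw [e1]
    exact cD3.inv_left.mul_left c3
  · refine TA_conj rfl (cE s (by simp [hs]) y (by simp) (hSy s hs)) ?_
    rw [← f2]
    exact fd_comm h hs2 (by simp [hs]) (by simp) (hSy s hs)
  · refine TA_conj rfl (cE s (by simp [hs]) x (by simp) (hSx s hs)) ?_
    rw [← f1]
    exact fd_comm h hs1 (by simp [hs]) (by simp) (hSx s hs)

/-- The family in which the strands before `x` are replaced by one strand `w`, the bundle of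
them; the other strands before `x` are trivial. -/
def cb (a : Fin n → Fin n → G) (w x : Fin n) (i j : Fin n) : G :=
  if x ≤ i ∧ x ≤ j then a i j
  else if i = w ∧ x ≤ j then lp (fun u => a u j) (low x)
  else if j = w ∧ x ≤ i then lp (fun u => a u i) (low x)
  else 1

private theorem CA_big {w x i j : Fin n} (hi : x ≤ i) (hj : x ≤ j) : cb a w x i j = a i j := by
  rw [cb, if_pos ⟨hi, hj⟩]

private theorem CA_w {w x j : Fin n} (hw : w < x) (hj : x ≤ j) :
    cb a w x w j = lp (fun u => a u j) (low x) := by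
  rw [cb, if_neg fun h => absurd h.1 (not_le.2 hw), if_pos ⟨rfl, hj⟩]

private theorem CA_w' {w x j : Fin n} (hw : w < x) (hj : x ≤ j) :
    cb a w x j w = lp (fun u => a u j) (low x) := by
  rw [cb, if_neg fun h => absurd h.2 (not_le.2 hw),
    if_neg fun h => absurd h.2 (not_le.2 hw), if_pos ⟨rfl, hj⟩]

private theorem CA_low {w x i j : Fin n} (hi : i < x) (hj : j < x) : cb a w x i j = 1 := by
  rw [cb, if_neg fun h => absurd h.1 (not_le.2 hi), if_neg fun h => absurd h.2 (not_le.2 hj),
    if_neg fun h => absurd h.2 (not_le.2 hi)]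

private theorem CA_one {w x i j : Fin n} (hi : i < x) (hiw : i ≠ w) : cb a w x i j = 1 := by
  rw [cb, if_neg fun h => absurd h.1 (not_le.2 hi), if_neg fun h => absurd h.1 hiw,
    if_neg fun h => absurd h.2 (not_le.2 hi)]

private theorem CA_one' {w x i j : Fin n} (hj : j < x) (hjw : j ≠ w) : cb a w x i j = 1 := by
  rw [cb, if_neg fun h => absurd h.2 (not_le.2 hj), if_neg fun h => absurd h.2 (not_le.2 hj),
    if_neg fun h => absurd h.1 hjw]

private theorem CA_sort {x j k : Fin n} (hj : x ≤ j) (hjk : j < k) :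
    (low x ++ [j, k]).Pairwise (· < ·) := by
  rw [List.pairwise_append]
  refine ⟨low_sorted x, by simpa using hjk, fun u hu v hv => ?_⟩
  have h1 := mem_low.1 hu
  have h2 : v = j ∨ v = k := by simpa using hv
  rcases h2 with rfl | rfl
  · exact lt_of_lt_of_le h1 hj
  · exact (lt_of_lt_of_le h1 hj).trans hjk

/-- **Module CA.** The bundled family satisfies the pure braid relations.

PROOF.  `symm`: cases (`w < x` excludes that two of the conditions hold).  For the other relations
let `i < j < ...` be the strands.  If `x ≤ i` the relation is the one of `a`.  If `i < x`, `i ≠ w`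
all generators on `i` are `1` and the relation is trivial or `Commute (a j k) (a j k)`.  If `i = w`:
if `j < x` all generators on `j` are `1` (`j ≠ i`) and the relation is trivial; if `x ≤ j`:
`t1`, `t2` are `tri_left` for `S = low x`; `q1`, `q2`: `lp_commute` and `h.q1`, `h.q2` for each
`u < x`; `q3`: conjugation by `a k l` of the product `lp (a · k) (low x)` is `lp_conj`, each factor
commutes with `a j l` by `h.q3`. -/
theorem cb_pb (h : PB a) {w x : Fin n} (hw : w < x) : PB (cb a w x) := by
  refine ⟨fun i j => ?_, fun i j k hij hjk => ?_, fun i j k hij hjk => ?_,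
    fun i j k l hij hjk hkl => ?_, fun i j k l hij hjk hkl => ?_, fun i j k l hij hjk hkl => ?_⟩
  · -- symm
    rcases le_or_gt x i with hi | hi
    · rcases le_or_gt x j with hj | hj
      · rw [CA_big hi hj, CA_big hj hi, h.symm]
      · by_cases hjw : j = w
        · rw [hjw, CA_w hw hi, CA_w' hw hi]
        · rw [CA_one' hj hjw, CA_one hj hjw]
    · rcases le_or_gt x j with hj | hj
      · by_cases hiw : i = w
        · rw [hiw, CA_w hw hj, CA_w' hw hj]
        · rw [CA_one' hi hiw, CA_one hi hiw]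
      · rw [CA_low hi hj, CA_low hj hi]
  · -- t1
    rcases le_or_gt x i with hi | hi
    · have hj := hi.trans hij.le
      have hk := hj.trans hjk.le
      rw [CA_big hi hj, CA_big hi hk, CA_big hj hk]
      exact h.t1 i j k hij hjk
    · by_cases hiw : i = w
      · subst hiw
        rcases le_or_gt x j with hj | hj
        · have hk := hj.trans hjk.le
          rw [CA_w hw hj, CA_w hw hk, CA_big hj hk]
          exact (tri_left h (CA_sort hj hjk) rfl).2.1
        · rw [CA_low hi hj, CA_one hj hij.ne']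
          simp
      · rw [CA_one (j := j) hi hiw, CA_one (j := k) hi hiw]
        simp
  · -- t2
    rcases le_or_gt x i with hi | hi
    · have hj := hi.trans hij.le
      have hk := hj.trans hjk.le
      rw [CA_big hi hj, CA_big hi hk, CA_big hj hk]
      exact h.t2 i j k hij hjk
    · by_cases hiw : i = w
      · subst hiw
        rcases le_or_gt x j with hj | hj
        · have hk := hj.trans hjk.le
          rw [CA_w hw hj, CA_w hw hk, CA_big hj hk]
          exact (tri_left h (CA_sort hj hjk) rfl).2.2.1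
        · rw [CA_low hi hj, CA_one hj hij.ne']
          simp
      · rw [CA_one (j := j) hi hiw, CA_one (j := k) hi hiw]
        simp
  · -- q1
    rcases le_or_gt x i with hi | hi
    · have hj := hi.trans hij.le
      have hk := hj.trans hjk.le
      have hl := hk.trans hkl.le
      rw [CA_big hi hj, CA_big hk hl]
      exact h.q1 i j k l hij hjk hkl
    · by_cases hiw : i = w
      · subst hiw
        rcases le_or_gt x j with hj | hj
        · have hk := hj.trans hjk.le
          have hl := hk.trans hkl.le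
          rw [CA_w hw hj, CA_big hk hl]
          refine (lp_commute fun u hu => ?_).symm
          exact (h.q1 u j k l (lt_of_lt_of_le (mem_low.1 hu) hj) hjk hkl).symm
        · rw [CA_low hi hj]
          exact Commute.one_left _
      · rw [CA_one (j := j) hi hiw]
        exact Commute.one_left _
  · -- q2
    rcases le_or_gt x i with hi | hi
    · have hj := hi.trans hij.le
      have hk := hj.trans hjk.le
      have hl := hk.trans hkl.le
      rw [CA_big hi hl, CA_big hj hk]
      exact h.q2 i j k l hij hjk hkl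
    · by_cases hiw : i = w
      · subst hiw
        rcases le_or_gt x j with hj | hj
        · have hk := hj.trans hjk.le
          have hl := hk.trans hkl.le
          rw [CA_w hw hl, CA_big hj hk]
          refine (lp_commute fun u hu => ?_).symm
          exact (h.q2 u j k l (lt_of_lt_of_le (mem_low.1 hu) hj) hjk hkl).symm
        · rw [CA_one (j := k) hj hij.ne']
          exact Commute.one_right _
      · rw [CA_one (j := l) hi hiw]
        exact Commute.one_left _
  · -- q3
    rcases le_or_gt x i with hi | hi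
    · have hj := hi.trans hij.le
      have hk := hj.trans hjk.le
      have hl := hk.trans hkl.le
      rw [CA_big hk hl, CA_big hi hk, CA_big hj hl]
      exact h.q3 i j k l hij hjk hkl
    · by_cases hiw : i = w
      · subst hiw
        rcases le_or_gt x j with hj | hj
        · have hk := hj.trans hjk.le
          have hl := hk.trans hkl.le
          rw [CA_w hw hk, CA_big hk hl, CA_big hj hl, lp_conj]
          refine (lp_commute fun u hu => ?_).symm
          exact (h.q3 u j k l (lt_of_lt_of_le (mem_low.1 hu) hj) hjk hkl).symm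
        · rw [CA_one (j := l) hj hij.ne']
          exact Commute.one_right _
      · rw [CA_one (j := k) hi hiw]
        simp

private theorem NA_le {s k l : Fin n} (hsk : s ≠ k) (hsl : s ≠ l) :
    Subgroup.closure {a s k, a s l} ≤ Ug a s := by
  rw [Subgroup.closure_le]
  rintro x (rfl | rfl)
  · exact mem_Ug hsk.symm
  · exact mem_Ug hsl.symm

private theorem NA_gen (h : PB a) {s k l j : Fin n} (hsk : s ≠ k) (hsl : s ≠ l) (hkl : k ≠ l)
    (hjs : j ≠ s) :
    (∃ f ∈ Ug a s, a k l * a s j * (a k l)⁻¹ = f * a s j * f⁻¹) ∧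
    (∃ f ∈ Ug a s, (a k l)⁻¹ * a s j * a k l = f * a s j * f⁻¹) := by
  wlog hlt : k < l generalizing k l
  · have h1 := this hsl hsk hkl.symm (lt_of_le_of_ne (not_lt.mp hlt) hkl.symm)
    rw [h.symm l k] at h1
    exact h1
  obtain ⟨f, hf, ef⟩ := (h.conj hsk hsl hkl hjs).1
  obtain ⟨g, hg, e1, e2⟩ := h.conj0 hsk hsl hlt
  have hall : ∀ v ∈ Subgroup.closure {a s k, a s l}, a k l * v * (a k l)⁻¹ = g * v * g⁻¹ := by
    intro v hv
    induction hv using Subgroup.closure_induction with
    | mem x hx =>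
        rcases hx with rfl | rfl
        · exact e1
        · exact e2
    | one => simp
    | mul x y _ _ hx hy =>
        have e3 : a k l * (x * y) * (a k l)⁻¹ = (a k l * x * (a k l)⁻¹) * (a k l * y * (a k l)⁻¹) := by
          group
        rw [e3, hx, hy]; group
    | inv x _ hx =>
        have e3 : a k l * x⁻¹ * (a k l)⁻¹ = (a k l * x * (a k l)⁻¹)⁻¹ := by group
        rw [e3, hx]; group
  refine ⟨⟨f, NA_le hsk hsl hf, ef⟩, ?_⟩
  have hf' : g⁻¹ * f * g ∈ Subgroup.closure {a s k, a s l} := mul_mem (mul_mem (inv_mem hg) hf) hg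
  have e3 := hall _ hf'
  have e4 : (a k l)⁻¹ * f * a k l = g⁻¹ * f * g := by
    have e5 : a k l * (g⁻¹ * f * g) * (a k l)⁻¹ = f := by rw [e3]; group
    calc (a k l)⁻¹ * f * a k l
        = (a k l)⁻¹ * (a k l * (g⁻¹ * f * g) * (a k l)⁻¹) * a k l := by rw [e5]
      _ = g⁻¹ * f * g := by group
  refine ⟨(g⁻¹ * f * g)⁻¹, inv_mem (NA_le hsk hsl hf'), ?_⟩
  rw [← e4]
  have e6 : a s j = (a k l)⁻¹ * (f * a s j * f⁻¹) * a k l := by rw [← ef]; group
  calc (a k l)⁻¹ * a s j * a k l
      = ((a k l)⁻¹ * f⁻¹ * a k l) * ((a k l)⁻¹ * (f * a s j * f⁻¹) * a k l) *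
          ((a k l)⁻¹ * f * a k l) := by group
    _ = ((a k l)⁻¹ * f * a k l)⁻¹ * a s j * ((a k l)⁻¹ * f * a k l)⁻¹⁻¹ := by
        rw [← e6]; group

private theorem NA_two (h : PB a) {s k l : Fin n} (hkl : k ≠ l) :
    ∀ u ∈ Ug a s, a k l * u * (a k l)⁻¹ ∈ Ug a s ∧ (a k l)⁻¹ * u * a k l ∈ Ug a s := by
  by_cases hsk : s = k
  · subst hsk
    intro u hu
    have hm : a s l ∈ Ug a s := mem_Ug hkl.symm
    exact ⟨mul_mem (mul_mem hm hu) (inv_mem hm), mul_mem (mul_mem (inv_mem hm) hu) hm⟩
  by_cases hsl : s = l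
  · subst hsl
    intro u hu
    have hm : a k s ∈ Ug a s := by rw [h.symm k s]; exact mem_Ug hkl
    exact ⟨mul_mem (mul_mem hm hu) (inv_mem hm), mul_mem (mul_mem (inv_mem hm) hu) hm⟩
  intro u hu
  induction hu using Subgroup.closure_induction with
  | mem x hx =>
      obtain ⟨j, hj, rfl⟩ := hx
      obtain ⟨⟨f, hf, ef⟩, ⟨f', hf', ef'⟩⟩ := NA_gen h hsk hsl hkl hj
      rw [ef, ef']
      exact ⟨mul_mem (mul_mem hf (mem_Ug hj)) (inv_mem hf),
        mul_mem (mul_mem hf' (mem_Ug hj)) (inv_mem hf')⟩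
  | one => simp
  | mul x y _ _ hx hy =>
      constructor
      · have e3 : a k l * (x * y) * (a k l)⁻¹ = (a k l * x * (a k l)⁻¹) * (a k l * y * (a k l)⁻¹) := by
          group
        rw [e3]; exact mul_mem hx.1 hy.1
      · have e3 : (a k l)⁻¹ * (x * y) * a k l = ((a k l)⁻¹ * x * a k l) * ((a k l)⁻¹ * y * a k l) := by
          group
        rw [e3]; exact mul_mem hx.2 hy.2
  | inv x _ hx =>
      constructor
      · have e3 : a k l * x⁻¹ * (a k l)⁻¹ = (a k l * x * (a k l)⁻¹)⁻¹ := by group
        rw [e3]; exact inv_mem hx.1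
      · have e3 : (a k l)⁻¹ * x⁻¹ * a k l = ((a k l)⁻¹ * x * a k l)⁻¹ := by group
        rw [e3]; exact inv_mem hx.2

/-- **Module NA.** The group of the generators on one strand is normalised by the whole group.

PROOF.  By closure induction (`Subgroup.closure_induction` twice; first reduce to `g` a generator
or the inverse of a generator, e.g. with `Subgroup.closure_toSubmonoid` or
`Subgroup.closure_induction''`) it suffices: for `k ≠ l`, `j ≠ s`: `a k l * a s j * (a k l)⁻¹` and
`(a k l)⁻¹ * a s j * a k l` are in `Ug a s`.  If `k = s` or `l = s` clear (`h.symm`).  Otherwise let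
`P = closure {a s k, a s l} ≤ Ug a s`.  First: `h.conj` (its `.1`).  Second: for `k < l`
`h.conj0` gives ONE `g ∈ P` with `a k l * v * (a k l)⁻¹ = g * v * g⁻¹` for `v = a s k` and
`v = a s l`, so for all `v ∈ P`; so `(a k l)⁻¹ * v * a k l = g⁻¹ * v * g ∈ P` for `v ∈ P` (apply
the formula to `g⁻¹ * v * g ∈ P`).  `h.conj` gives `f ∈ P` with `a k l * a s j * (a k l)⁻¹ =
f * a s j * f⁻¹`; conjugating by `(a k l)⁻¹`: `(a k l)⁻¹ * a s j * a k l = f'⁻¹ * a s j * f'` with
`f' = (a k l)⁻¹ * f * a k l ∈ P`.  For `l < k` use `h.symm`. -/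
theorem ug_norm (h : PB a) {s : Fin n} {g : G} (hg : g ∈ Hg a) {u : G} (hu : u ∈ Ug a s) :
    g * u * g⁻¹ ∈ Ug a s := by
  have key : ∀ g ∈ Hg a, ∀ u ∈ Ug a s, g * u * g⁻¹ ∈ Ug a s ∧ g⁻¹ * u * g ∈ Ug a s := by
    intro g hg
    induction hg using Subgroup.closure_induction with
    | mem x hx =>
        obtain ⟨k, l, hkl, rfl⟩ := hx
        exact NA_two h hkl
    | one => intro u hu; simpa using hu
    | mul x y _ _ hx hy =>
        intro u hu
        constructor
        · have h1 := (hx _ (hy u hu).1).1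
          have e : x * y * u * (x * y)⁻¹ = x * (y * u * y⁻¹) * x⁻¹ := by group
          rw [e]; exact h1
        · have h1 := (hy _ (hx u hu).2).2
          have e : (x * y)⁻¹ * u * (x * y) = y⁻¹ * (x⁻¹ * u * x) * y := by group
          rw [e]; exact h1
    | inv x _ hx =>
        intro u hu
        have h1 := hx u hu
        refine ⟨?_, ?_⟩
        · rw [inv_inv]; exact h1.2
        · rw [inv_inv]; exact h1.1
  exact (key g hg u hu).1

/-- **Module NB.** The conjugates of a generator on the strand `s` by the whole group are conjugates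
by the group of the strand.

PROOF.  Closure induction for `g` (generators and inverses of generators, as in NA): the product:
`g1 * g2 * a s j * g2⁻¹ * g1⁻¹ = g1 * (u * a s j * u⁻¹) * g1⁻¹ =
(g1 * u * g1⁻¹) * (g1 * a s j * g1⁻¹) * (g1 * u * g1⁻¹)⁻¹` and `g1 * u * g1⁻¹ ∈ Ug a s` by
`ug_norm`.  A generator or inverse `a k l ^ ±1`: if `k = s` or `l = s` take it as `u`; otherwise
it is in the proof of `ug_norm`: `a k l * a s j * (a k l)⁻¹ = f * a s j * f⁻¹` with
`f ∈ closure {a s k, a s l}` (`h.conj`), and from this `(a k l)⁻¹ * a s j * a k l =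
f'⁻¹ * a s j * f'` with `f' = (a k l)⁻¹ * f * a k l`, in `Ug a s` by `ug_norm`. -/
theorem ug_conj (h : PB a) {s j : Fin n} (hj : j ≠ s) {g : G} (hg : g ∈ Hg a) :
    ∃ u ∈ Ug a s, g * a s j * g⁻¹ = u * a s j * u⁻¹ := by
  induction hg using Subgroup.closure_induction with
  | mem x hx =>
      obtain ⟨k, l, hkl, rfl⟩ := hx
      by_cases hsk : s = k
      · subst hsk
        exact ⟨_, mem_Ug hkl.symm, rfl⟩
      by_cases hsl : s = l
      · subst hsl
        exact ⟨a k s, by rw [h.symm k s]; exact mem_Ug hkl, rfl⟩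
      exact (NA_gen h hsk hsl hkl hj).1
  | one => exact ⟨1, one_mem _, by simp⟩
  | mul x y hx' hy' hx hy =>
      obtain ⟨u1, hu1, e1⟩ := hx
      obtain ⟨u2, hu2, e2⟩ := hy
      have hm : x * u2 * x⁻¹ ∈ Ug a s := ug_norm h hx' hu2
      refine ⟨x * u2 * x⁻¹ * u1, mul_mem hm hu1, ?_⟩
      calc x * y * a s j * (x * y)⁻¹ = x * (y * a s j * y⁻¹) * x⁻¹ := by group
        _ = x * (u2 * a s j * u2⁻¹) * x⁻¹ := by rw [e2]
        _ = (x * u2 * x⁻¹) * (x * a s j * x⁻¹) * (x * u2 * x⁻¹)⁻¹ := by group
        _ = (x * u2 * x⁻¹) * (u1 * a s j * u1⁻¹) * (x * u2 * x⁻¹)⁻¹ := by rw [e1]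
        _ = x * u2 * x⁻¹ * u1 * a s j * (x * u2 * x⁻¹ * u1)⁻¹ := by group
  | inv x hx' hx =>
      obtain ⟨u, hu, e⟩ := hx
      have hm : x⁻¹ * u * x⁻¹⁻¹ ∈ Ug a s := ug_norm h (inv_mem hx') hu
      rw [inv_inv] at hm
      refine ⟨(x⁻¹ * u * x)⁻¹, inv_mem hm, ?_⟩
      have e6 : a s j = x⁻¹ * (u * a s j * u⁻¹) * x := by rw [← e]; group
      calc x⁻¹ * a s j * x⁻¹⁻¹
          = (x⁻¹ * u⁻¹ * x) * (x⁻¹ * (u * a s j * u⁻¹) * x) * (x⁻¹ * u * x) := by group
        _ = (x⁻¹ * u * x)⁻¹ * a s j * (x⁻¹ * u * x)⁻¹⁻¹ := by rw [← e6]; group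

end Pool.Agent.PFk
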