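import Pool.Agent.Conf14.Fam2
import Pool.Agent.PB3.Defs

/-!
# Representations which come from the moduli space of points on the sphere
-/

set_option autoImplicit false

namespace Pool.Agent.PFk

open Pool.Agent.Conf14

/-- the pure braid in which the strand `k` runs once around all other strands: the product of the
generators on the strand `k` -/
def Around {m : ℕ} (k : Fin m) : PureBraid m := ((List.finRange m).map (B k)).prod

/-- The representation `σ` comes, up to a character, from the moduli space of `m` points on the
sphere: the pure braids in which one strand runs around all others act as scalars. -/
def Spherical {m : ℕ} {V : Type*} [AddCommGroup V] [Module ℂ V]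
    (σ : PureBraid m → V →ₗ[ℂ] V) : Prop :=
  ∀ k, ∃ c : ℂ, σ (Around k) = c • LinearMap.id

end Pool.Agent.PFk
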