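import Pool.Agent.PFk.Rep

/-!
# Prime rank, and representations for which the conjugates of each generator act irreducibly
-/

set_option autoImplicit false

namespace Pool.Agent.PFk

open Pool.Agent.Conf14 hiding IrrF
open Pool.Agent.PB3
open Pool.Agent.Bst88 (big gp gp_ext ext)
open Module

variable {m n : ℕ} {V : Type*} [AddCommGroup V] [Module ℂ V]

theorem splitless_prime [FiniteDimensional ℂ V] (hp : (finrank ℂ V).Prime) :
    Splitless V (fun _ _ => True) :=
  fun _ _ hpb hirr hact _ _ h5 _ => noSplit_prime hpb hirr hp hact h5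

/-- the hypothesis (H) for a family, with a set of exempt strands -/
def HypH (N : ℕ) (c : Fin N → Fin N → (V ≃ₗ[ℂ] V)) : Prop :=
  ∃ Z : Set (Fin N), Z.Subsingleton ∧
    (∀ x y, x ≠ y → x ∉ Z → y ∉ Z → Cen (c x y) ∨ IrrConj c x y) ∧
    (∀ s, s ∉ Z → ∃ j, j ≠ s ∧ j ∉ Z ∧ ¬ Cen (c s j)) ∧ ∀ z ∈ Z, Act c z

theorem splitless_H [FiniteDimensional ℂ V] [Nontrivial V] :
    Splitless V (fun N c => HypH N c) :=
  fun _ _ hpb _ _ _ ⟨Z, h1, h2, h3, h4⟩ _ _ => noSplit_H hpb Z h1 h2 h3 h4

theorem irrConj_symm {c : Fin m → Fin m → (V ≃ₗ[ℂ] V)} (h : PB c) {x y : Fin m}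
    (hc : IrrConj c x y) : IrrConj c y x := by
  intro W hW
  apply hc W
  intro g hg v hv
  rw [h.symm x y]
  exact hW g hg v hv

/-- the hypothesis (H) passes to the active strands -/
theorem hypH_active [FiniteDimensional ℂ V] [Nontrivial V] (ρ : Representation ℂ (PureBraid n) V)
    [ρ.IsIrreducible]
    (h : ∀ (i j : Fin n) (hij : i < j), (∃ c : ℂ, ρ (A i j hij) = c • LinearMap.id) ∨
      ∀ W : Submodule ℂ V, (∀ g, ∀ x ∈ W, ρ (g * A i j hij * g⁻¹) x ∈ W) → W = ⊥ ∨ W = ⊤)
    {e : Fin m ↪o Fin n} {F : PureBraid n →* PureBraid m}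
    {σ : Representation ℂ (PureBraid m) V} {χ : PureBraid n →* ℂˣ}
    (hρ : ∀ g, ρ g = (χ g : ℂ) • σ (F g)) (hfam : ∀ i j, fam σ i j = fam ρ (e i) (e j))
    {x y : Fin m} (hxy : x ≠ y) : Cen (fam σ x y) ∨ IrrConj (fam σ) x y := by
  wlog hlt : x < y generalizing x y
  · have h1 := this hxy.symm (lt_of_le_of_ne (not_lt.1 hlt) hxy.symm)
    rw [(fam_pb σ).symm y x] at h1
    exact h1.imp id (irrConj_symm (fam_pb σ))
  have hlt' : e x < e y := e.strictMono hlt
  rcases h (e x) (e y) hlt' with ⟨c, hc⟩ | hW0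
  · left
    rw [hfam]
    refine cen_of_scalar (c := c) fun v => ?_
    rw [fam_lt ρ hlt', hc]
    rfl
  · right
    intro W hW
    apply hW0 W
    intro g v hv
    have h1 := hW _ (mem_Hg_fam σ (F g)) v hv
    have h2 : ∀ (z : ℂˣ) (f : V ≃ₗ[ℂ] V), (∀ u, toEq ρ g u = (z : ℂ) • f u) →
        toEq ρ g * fam σ x y * (toEq ρ g)⁻¹ = f * fam σ x y * f⁻¹ := by
      intro z f hz
      have h3 : toEq ρ g = sc z * f := LinearEquiv.ext fun u => hz u
      have h4 : ∀ k : V ≃ₗ[ℂ] V, sc z * k = k * sc z := by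
        intro k
        apply LinearEquiv.ext
        intro u
        show (z : ℂ) • k u = k ((z : ℂ) • u)
        rw [map_smul]
      rw [h3]
      calc sc z * f * fam σ x y * (sc z * f)⁻¹ =
          sc z * (f * fam σ x y * f⁻¹) * (sc z)⁻¹ := by group
        _ = _ := by rw [h4]; group
    have h5 := h2 (χ g) (toEq σ (F g)) (fun u => by
      show ρ g u = _
      rw [hρ]
      rfl)
    have h6 : ρ (g * A (e x) (e y) hlt' * g⁻¹) v =
        (toEq ρ g * fam σ x y * (toEq ρ g)⁻¹) v := by
      have h7 : toEq ρ (g * A (e x) (e y) hlt' * g⁻¹) =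
          toEq ρ g * fam σ x y * (toEq ρ g)⁻¹ := by
        rw [map_mul, map_mul, map_inv, hfam, fam, B_lt hlt']
      rw [← h7]
      rfl
    rw [h6, h5]
    exact h1

/-- **Few points.** -/
theorem few_points [FiniteDimensional ℂ V] (ρ : Representation ℂ (PureBraid n) V)
    [ρ.IsIrreducible]
    (h : (finrank ℂ V).Prime ∨ ∀ (i j : Fin n) (hij : i < j),
      (∃ c : ℂ, ρ (A i j hij) = c • LinearMap.id) ∨
      ∀ W : Submodule ℂ V, (∀ g, ∀ x ∈ W, ρ (g * A i j hij * g⁻¹) x ∈ W) → W = ⊥ ∨ W = ⊤) :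
    InCyclicCovers ρ ∨ ∃ (m : ℕ) (e : Fin m ↪o Fin n) (F : PureBraid n →* PureBraid m)
      (σ : Representation ℂ (PureBraid m) V) (χ : PureBraid n →* ℂˣ),
      (m ≤ finrank ℂ V ∨ m = finrank ℂ V + 1 ∧ Spherical σ) ∧ IsForgetful e F ∧
      (∀ g, ρ g = (χ g : ℂ) • σ (F g)) ∧
      (RootEig ρ → ∃ N : ℕ, 0 < N ∧ ∀ g, χ g ^ N = 1) := by
  have hnt : Nontrivial V := by
    by_contra hcon
    rw [not_nontrivial_iff_subsingleton] at hcon
    have h1 : (⊥ : Subrepresentation ρ) = ⊤ := by
      apply Subrepresentation.toSubmodule_injective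
      exact Subsingleton.elim _ _
    exact bot_ne_top h1
  rcases h with hp | hH
  · exact assemble ρ _ (splitless_prime hp) fun _ _ _ _ _ _ _ _ _ => ⟨trivial, fun _ => trivial⟩
  · refine assemble ρ _ splitless_H fun m e F σ χ _ hρ hfam hact => ⟨?_, fun h0 => ?_⟩
    · refine ⟨∅, Set.subsingleton_empty, fun x y hxy _ _ => hypH_active ρ hH hρ hfam hxy, ?_, ?_⟩
      · intro s _
        obtain ⟨j, hj, hj'⟩ := hact s
        exact ⟨j, hj, Set.notMem_empty _, hj'⟩
      · intro z hz
        exact absurd hz (Set.notMem_empty _)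
    · refine ⟨{0}, Set.subsingleton_singleton, ?_, ?_, ?_⟩
      · intro x y hxy hx hy
        cases x using Fin.cases with
        | zero => exact absurd rfl hx
        | succ x =>
            cases y using Fin.cases with
            | zero => exact absurd rfl hy
            | succ y =>
                rcases hypH_active ρ hH hρ hfam (x := x) (y := y)
                  (fun h' => hxy (congrArg Fin.succ h')) with h1 | h1
                · exact Or.inl h1
                · right
                  intro W hW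
                  apply h1 W
                  intro g hg v hv
                  exact hW g ((gp_ext (fam σ)).ge hg) v hv
      · intro s hs
        cases s using Fin.cases with
        | zero => exact absurd rfl hs
        | succ s =>
            obtain ⟨j, hj, hj'⟩ := hact s
            exact ⟨j.succ, fun h' => hj (Fin.succ_injective _ h'), Fin.succ_ne_zero j, hj'⟩
      · rintro z rfl
        exact h0

end Pool.Agent.PFk
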