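import Pool.Agent.PFk.Cab

/-!
# From one commuting pair to a commuting family of conjugates

If the twist of the first strands with `x` commutes with the generator of `x` and the next strand
`y`, then `a x y` commutes with all conjugates of the generators from the strands before `x` to
the strands after `y`.
-/

set_option autoImplicit false

namespace Pool.Agent.PFk

open Pool.Agent.Conf14 (PB)
open Pool.Agent.PB3

variable {n : ℕ} {G : Type*} [Group G] {a : Fin n → Fin n → G}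

/-- the group of the generators from the strands before `x` to `e` -/
def Xg (a : Fin n → Fin n → G) (x e : Fin n) : Subgroup G :=
  Subgroup.closure {f | ∃ s, s < x ∧ f = a s e}

/-- the group of the generators from the bundle of the strands before `x` to the other strands -/
def Pg (a : Fin n → Fin n → G) (x : Fin n) : Subgroup G :=
  Subgroup.closure {f | ∃ j, x ≤ j ∧ f = lp (fun u => a u j) (low x)}

/-- the group of the generators from `e` to the strands after the bundle -/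
def Wg (a : Fin n → Fin n → G) (x e : Fin n) : Subgroup G :=
  Subgroup.closure {f | ∃ j, x ≤ j ∧ j ≠ e ∧ f = a e j}

private theorem FA_conj_all {S : Set G} {z q : G} (h : ∀ v ∈ S, z * v * z⁻¹ = q * v * q⁻¹) :
    ∀ v ∈ Subgroup.closure S, z * v * z⁻¹ = q * v * q⁻¹ := by
  intro v hv
  induction hv using Subgroup.closure_induction with
  | mem v hv => exact h v hv
  | one => group
  | mul x y _ _ hx hy =>
      calc z * (x * y) * z⁻¹ = (z * x * z⁻¹) * (z * y * z⁻¹) := by group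
        _ = _ := by rw [hx, hy]; group
  | inv x _ hx =>
      calc z * x⁻¹ * z⁻¹ = (z * x * z⁻¹)⁻¹ := by group
        _ = _ := by rw [hx]; group

private theorem FA_core {X Y : Subgroup G} {z q r t : G} (hq : q ∈ X) (hr : r ∈ Y)
    (hz : ∀ v ∈ X, z * v * z⁻¹ = q * v * q⁻¹) (hzr : Commute z r) (ht : z = r * t) :
    (∃ p ∈ Y, ∀ v ∈ X, ∃ v' ∈ X, t * v * t⁻¹ = p * v' * p⁻¹) ∧
    (∃ p ∈ Y, ∀ v ∈ X, ∃ v' ∈ X, t⁻¹ * v * t = p * v' * p⁻¹) := by
  have ht' : t = r⁻¹ * z := by rw [ht]; group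
  have hzr' : z * r = r * z := hzr
  constructor
  · refine ⟨r⁻¹, inv_mem hr, fun v hv => ⟨q * v * q⁻¹, mul_mem (mul_mem hq hv) (inv_mem hq), ?_⟩⟩
    rw [← hz v hv, ht']
    group
  · refine ⟨r, hr, fun v hv => ⟨q⁻¹ * v * q, mul_mem (mul_mem (inv_mem hq) hv) hq, ?_⟩⟩
    have h1 := hz (q⁻¹ * v * q) (mul_mem (mul_mem (inv_mem hq) hv) hq)
    have h2 : q * (q⁻¹ * v * q) * q⁻¹ = v := by group
    rw [h2] at h1
    have h3 : q⁻¹ * v * q = z⁻¹ * v * z := by
      calc q⁻¹ * v * q = z⁻¹ * (z * (q⁻¹ * v * q) * z⁻¹) * z := by group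
        _ = _ := by rw [h1]
    rw [h3, ht']
    have h4 : z⁻¹ * r = r * z⁻¹ := by
      calc z⁻¹ * r = z⁻¹ * (r * z) * z⁻¹ := by group
        _ = z⁻¹ * (z * r) * z⁻¹ := by rw [← hzr']
        _ = _ := by group
    calc (r⁻¹ * z)⁻¹ * v * (r⁻¹ * z) = (z⁻¹ * r) * v * (z⁻¹ * r)⁻¹ := by group
      _ = (r * z⁻¹) * v * (r * z⁻¹)⁻¹ := by rw [h4]
      _ = _ := by group

private theorem FA_lp_mem {ι : Type*} {f : ι → G} {L : List ι} {K : Subgroup G}
    (h : ∀ x ∈ L, f x ∈ K) : lp f L ∈ K := by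
  induction L with
  | nil => exact one_mem _
  | cons x L ih =>
      rw [lp_cons]
      exact mul_mem (h x (by simp)) (ih fun y hy => h y (by simp [hy]))

private theorem FA_pw {x j e : Fin n} (hj : x ≤ j) (he : x ≤ e) (hje : j < e) :
    (low x ++ [j, e]).Pairwise (· < ·) := by
  rw [List.pairwise_append]
  refine ⟨low_sorted x, by simpa using hje, ?_⟩
  intro u hu v hv
  have hu' := mem_low.mp hu
  simp only [List.mem_cons, List.not_mem_nil, or_false] at hv
  rcases hv with rfl | rfl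
  · exact lt_of_lt_of_le hu' hj
  · exact lt_of_lt_of_le hu' he

/-- **Module FA.** The generator `a j e` conjugates the group `Xg a x e` into a conjugate by an
element of `Pg a x`, in both directions.

PROOF.  Write `P j = lp (a · j) (low x) ∈ Pg a x`, `X = Xg a x e`; `P e ∈ X` (it is a product of
generators of `X`).
Case `j < e`: `z = P j * P e * a j e`; `tri_left` with `S = low x` (`low x ++ [j, e]` is ascending by
`low_sorted`, `mem_low`): `z` commutes with `P j`, `P e`, and `z * v * z⁻¹ = P e * v * (P e)⁻¹` for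
the generators `v = a s e` of `X`, so for all `v ∈ X` (two homomorphisms which agree on the
generators: `Subgroup.closure_induction`), and then also `z⁻¹ * v * z = (P e)⁻¹ * v * P e` for
`v ∈ X` (apply it to `(P e)⁻¹ * v * P e ∈ X`).  `a j e = (P j * P e)⁻¹ * z`, so
`a j e * v * (a j e)⁻¹ = (P j * P e)⁻¹ * (P e * v * (P e)⁻¹) * (P j * P e)`:
`p = (P j * P e)⁻¹`, `v' = P e * v * (P e)⁻¹`.  And `(a j e)⁻¹ = z⁻¹ * (P j * P e) =
(P j * P e) * z⁻¹`: `(a j e)⁻¹ * v * a j e = (P j * P e) * (z⁻¹ * v * z) * (P j * P e)⁻¹`: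
`p = P j * P e`.
Case `e < j`: `z = P e * P j * a e j`, `a j e = a e j` (`h.symm`); `tri_left` with `S ++ [e, j]`: the
last clause gives `z * v * z⁻¹ = P e * v * (P e)⁻¹` for the generators of `X` again, and the same
computation with `P e * P j` instead of `P j * P e` (`z` commutes with both). -/
theorem xg_conj (h : PB a) {x j e : Fin n} (hj : x ≤ j) (he : x ≤ e) (hje : j ≠ e) :
    (∃ p ∈ Pg a x, ∀ v ∈ Xg a x e, ∃ v' ∈ Xg a x e,
      a e j * v * (a e j)⁻¹ = p * v' * p⁻¹) ∧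
    (∃ p ∈ Pg a x, ∀ v ∈ Xg a x e, ∃ v' ∈ Xg a x e,
      (a e j)⁻¹ * v * a e j = p * v' * p⁻¹) := by
  have hPe : lp (fun u => a u e) (low x) ∈ Xg a x e :=
    FA_lp_mem fun u hu => Subgroup.subset_closure ⟨u, mem_low.mp hu, rfl⟩
  have hPj' : lp (fun u => a u j) (low x) ∈ Pg a x := Subgroup.subset_closure ⟨j, hj, rfl⟩
  have hPe' : lp (fun u => a u e) (low x) ∈ Pg a x := Subgroup.subset_closure ⟨e, he, rfl⟩
  rcases lt_or_gt_of_ne hje with h1 | h1
  · obtain ⟨c1, c2, _, c4, _⟩ := tri_left h (FA_pw hj he h1) rfl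
    have hall := FA_conj_all (S := {f | ∃ s, s < x ∧ f = a s e})
      (z := lp (fun u => a u j) (low x) * lp (fun u => a u e) (low x) * a j e)
      (q := lp (fun u => a u e) (low x)) (by
        rintro v ⟨s, hs, rfl⟩
        exact c4 s (mem_low.mpr hs))
    rw [h.symm e j]
    exact FA_core hPe (mul_mem hPj' hPe') hall (c1.mul_right c2) rfl
  · obtain ⟨c1, c2, _, _, c5⟩ := tri_left h (FA_pw he hj h1) rfl
    have hall := FA_conj_all (S := {f | ∃ s, s < x ∧ f = a s e})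
      (z := lp (fun u => a u e) (low x) * lp (fun u => a u j) (low x) * a e j)
      (q := lp (fun u => a u e) (low x)) (by
        rintro v ⟨s, hs, rfl⟩
        exact c5 s (mem_low.mpr hs))
    exact FA_core hPe (mul_mem hPe' hPj') hall (c1.mul_right c2) rfl

private theorem FB_cb_w {w x j : Fin n} (hw : w < x) (hj : x ≤ j) :
    cb a w x w j = lp (fun u => a u j) (low x) := by
  unfold cb
  rw [if_neg (fun h => absurd h.1 (not_le.mpr hw)), if_pos ⟨rfl, hj⟩]

private theorem FB_cb_one {w x j : Fin n} (hw : w < x) (hj : j < x) (hjw : j ≠ w) :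
    cb a w x w j = 1 := by
  unfold cb
  rw [if_neg (fun h => absurd h.1 (not_le.mpr hw)), if_neg (fun h => absurd h.2 (not_le.mpr hj)),
    if_neg (fun h => hjw h.1)]

private theorem FB_cb_a {w x i j : Fin n} (hi : x ≤ i) (hj : x ≤ j) :
    cb a w x i j = a i j := by
  unfold cb
  rw [if_pos ⟨hi, hj⟩]

private theorem FB_pg_eq {w x : Fin n} (hw : w < x) : Pg a x = Ug (cb a w x) w := by
  apply le_antisymm
  · unfold Pg
    rw [Subgroup.closure_le]
    rintro f ⟨j, hj, rfl⟩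
    rw [← FB_cb_w hw hj]
    exact mem_Ug (ne_of_gt (lt_of_lt_of_le hw hj))
  · unfold Ug
    rw [Subgroup.closure_le]
    rintro f ⟨j, hj, rfl⟩
    rcases lt_or_ge j x with h1 | h1
    · rw [FB_cb_one hw h1 hj]
      exact one_mem _
    · rw [FB_cb_w hw h1]
      exact Subgroup.subset_closure ⟨j, h1, rfl⟩

private theorem FB_pg_triv {x : Fin n} (hx : ∀ w : Fin n, ¬ w < x) {p : G} (hp : p ∈ Pg a x) :
    p = 1 := by
  have h0 : low x = [] := by
    rw [List.eq_nil_iff_forall_not_mem]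
    intro u hu
    exact hx u (mem_low.mp hu)
  have h1 : Pg a x ≤ ⊥ := by
    unfold Pg
    rw [Subgroup.closure_le]
    rintro f ⟨j, hj, rfl⟩
    rw [h0]
    exact one_mem _
  exact Subgroup.mem_bot.mp (h1 hp)

/-- **Module FB.** The group `Wg a x e` normalises `Pg a x`.

PROOF.  If there is no strand before `x` (`low x = []`) then `Pg a x` is trivial (all `lp .. [] = 1`).
Otherwise let `w < x` (`w = 0`).  `Pg a x = Ug (cb a w x) w`: `cb a w x w j = P j` for `x ≤ j`,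
and `= 1` for `j < x`, `j ≠ w` (both inclusions by `Subgroup.closure_le`).  `Wg a x e ≤
Hg (cb a w x)`: `cb a w x e j = a e j` for `x ≤ e, j` (if `e < x`... is excluded by `he`).
Now `ug_norm (cb_pb h hw)`. -/
theorem pg_norm (h : PB a) {x e : Fin n} (he : x ≤ e) {u : G} (hu : u ∈ Wg a x e) {p : G}
    (hp : p ∈ Pg a x) : u * p * u⁻¹ ∈ Pg a x := by
  by_cases hx : ∃ w : Fin n, w < x
  · obtain ⟨w, hw⟩ := hx
    rw [FB_pg_eq hw] at hp ⊢
    refine ug_norm (cb_pb h hw) ?_ hp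
    have hle : Wg a x e ≤ Hg (cb a w x) := by
      unfold Wg
      rw [Subgroup.closure_le]
      rintro f ⟨j, hj, hje, rfl⟩
      rw [← FB_cb_a (a := a) (w := w) he hj]
      exact mem_Hg hje.symm
    exact hle hu
  · have hx' : ∀ w : Fin n, ¬ w < x := fun w hw => hx ⟨w, hw⟩
    rw [FB_pg_triv hx' hp, mul_one, mul_inv_cancel]
    exact one_mem _

private theorem FC_step {X Y : Subgroup G} {u₁ u₂ : G} (hn : ∀ p ∈ Y, u₁ * p * u₁⁻¹ ∈ Y)
    (h1 : ∃ p ∈ Y, ∀ v ∈ X, ∃ v' ∈ X, u₁ * v * u₁⁻¹ = p * v' * p⁻¹)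
    (h2 : ∃ p ∈ Y, ∀ v ∈ X, ∃ v' ∈ X, u₂ * v * u₂⁻¹ = p * v' * p⁻¹) :
    ∃ p ∈ Y, ∀ v ∈ X, ∃ v' ∈ X, (u₁ * u₂) * v * (u₁ * u₂)⁻¹ = p * v' * p⁻¹ := by
  obtain ⟨p₁, hp₁, k₁⟩ := h1
  obtain ⟨p₂, hp₂, k₂⟩ := h2
  refine ⟨(u₁ * p₂ * u₁⁻¹) * p₁, mul_mem (hn p₂ hp₂) hp₁, fun v hv => ?_⟩
  obtain ⟨v₂, hv₂, e₂⟩ := k₂ v hv
  obtain ⟨v₁, hv₁, e₁⟩ := k₁ v₂ hv₂
  refine ⟨v₁, hv₁, ?_⟩
  calc (u₁ * u₂) * v * (u₁ * u₂)⁻¹ = u₁ * (u₂ * v * u₂⁻¹) * u₁⁻¹ := by group
    _ = (u₁ * p₂ * u₁⁻¹) * (u₁ * v₂ * u₁⁻¹) * (u₁ * p₂ * u₁⁻¹)⁻¹ := by rw [e₂]; group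
    _ = _ := by rw [e₁]; group

private theorem FC_all (h : PB a) {x e : Fin n} (he : x ≤ e) {u : G} (hu : u ∈ Wg a x e) :
    (∃ p ∈ Pg a x, ∀ v ∈ Xg a x e, ∃ v' ∈ Xg a x e, u * v * u⁻¹ = p * v' * p⁻¹) ∧
    (∃ p ∈ Pg a x, ∀ v ∈ Xg a x e, ∃ v' ∈ Xg a x e, u⁻¹ * v * u⁻¹⁻¹ = p * v' * p⁻¹) := by
  unfold Wg at hu
  induction hu using Subgroup.closure_induction with
  | mem u hu =>
      obtain ⟨j, hj, hje, rfl⟩ := hu
      have := xg_conj h hj he hje
      refine ⟨this.1, ?_⟩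
      rw [inv_inv]
      exact this.2
  | one =>
      constructor
      · exact ⟨1, one_mem _, fun v hv => ⟨v, hv, rfl⟩⟩
      · exact ⟨1, one_mem _, fun v hv => ⟨v, hv, by group⟩⟩
  | mul u₁ u₂ m₁ m₂ h1 h2 =>
      constructor
      · exact FC_step (fun p hp => pg_norm h he m₁ hp) h1.1 h2.1
      · rw [mul_inv_rev]
        exact FC_step (fun p hp => pg_norm h he (inv_mem m₂) hp) h2.2 h1.2
  | inv u _ hu =>
      refine ⟨hu.2, ?_⟩
      rw [inv_inv]
      exact hu.1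

/-- **Module FC.** The conjugates of `Xg a x e` by elements of `Wg a x e` are contained in conjugates
by elements of `Pg a x`.

PROOF.  Closure induction for `u` (generators, inverses of generators, products:
`Subgroup.closure_induction''` or the monoid closure).  `u = 1`: `p = 1`.  Generators and inverses:
`xg_conj`.  Product `u1 * u2`: `u1 * (u2 * v * u2⁻¹) * u1⁻¹ = u1 * (p2 * v2 * p2⁻¹) * u1⁻¹ =
(u1 * p2 * u1⁻¹) * (u1 * v2 * u1⁻¹) * (..)⁻¹ = (u1 * p2 * u1⁻¹) * p1 * v1 * p1⁻¹ * (..)⁻¹` with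
`u1 * p2 * u1⁻¹ ∈ Pg a x` by `pg_norm`. -/
theorem xg_conj_all (h : PB a) {x e : Fin n} (he : x ≤ e) {u : G} (hu : u ∈ Wg a x e) :
    ∃ p ∈ Pg a x, ∀ v ∈ Xg a x e, ∃ v' ∈ Xg a x e, u * v * u⁻¹ = p * v' * p⁻¹ :=
  (FC_all h he hu).1

/-- **Module FD.** If the twist of the strands before `x` with `x` commutes with `a x y`, then `a x y`
commutes with the group `Pg a x`.

PROOF.  There is a strand `w < x` or `Pg a x` is trivial.  In the family `b = cb a w x`
(`cb_pb h hw`): `b w x = P x`, `b x y = a x y`, `b w y = P y` (`P j = lp (a · j) (low x)`).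
`z = b w x * b w y * b x y` commutes with `b w x` (`PB.t0`), and `b x y` commutes with `b w x` (`hc`),
so `b w y = (b w x)⁻¹ * z * (b x y)⁻¹` commutes with `b w x`; so by `PB.conj` (`.2`, `s = w`, `k = x`,
`l = y`) `b x y` commutes with `b w j` for all `j ≠ w`, in particular with all `P j`, `x ≤ j`. -/
theorem pg_comm (h : PB a) {x y : Fin n} (hxy : x < y)
    (hc : Commute (lp (fun u => a u x) (low x)) (a x y)) {p : G} (hp : p ∈ Pg a x) :
    Commute (a x y) p := by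
  by_cases hx : ∃ w : Fin n, w < x
  · obtain ⟨w, hw⟩ := hx
    have hb := cb_pb h hw
    have e1 := FB_cb_w (a := a) hw (le_refl x)
    have e2 := FB_cb_w (a := a) hw hxy.le
    have e3 := FB_cb_a (a := a) (w := w) (le_refl x) hxy.le
    have c0 := hb.t0 hw hxy
    have c1 : Commute (cb a w x x y) (cb a w x w x) := by
      rw [e1, e3]
      exact hc.symm
    have c2 : Commute (cb a w x w y) (cb a w x w x) := by
      have e4 : cb a w x w y = (cb a w x w x)⁻¹ *
          (cb a w x w x * cb a w x w y * cb a w x x y) * (cb a w x x y)⁻¹ := by group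
      rw [e4]
      exact ((Commute.refl _).inv_left.mul_left c0).mul_left c1.inv_left
    unfold Pg at hp
    induction hp using Subgroup.closure_induction with
    | mem p hp =>
        obtain ⟨j, hj, rfl⟩ := hp
        have := (hb.conj (s := w) (k := x) (l := y) (j := j) hw.ne (hw.trans hxy).ne hxy.ne
          (ne_of_gt (lt_of_lt_of_le hw hj))).2 c2.symm
        rwa [e3, FB_cb_w hw hj] at this
    | one => exact Commute.one_right _
    | mul p q _ _ h1 h2 => exact h1.mul_right h2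
    | inv p _ h1 => exact h1.inv_right
  · have hx' : ∀ w : Fin n, ¬ w < x := fun w hw => hx ⟨w, hw⟩
    rw [FB_pg_triv hx' hp]
    exact Commute.one_right _

/-- **Module FE.** The conclusion for all conjugates.

PROOF.  Let `Θ` be the centraliser of `a x y` (`Subgroup.centralizer {a x y}`).  `Pg a x ≤ Θ`:
`pg_comm`.  `Xg a x e ≤ Θ`: generators `a s e` with `s < x < y < e`: `h.q2`.  So for `u ∈ Wg a x e`
and `v ∈ Xg a x e`: `u * v * u⁻¹ = p * v' * p⁻¹ ∈ Θ` (`xg_conj_all`).  Let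
`M = closure {f | ∃ u ∈ Wg a x e, ∃ v ∈ Xg a x e, f = u * v * u⁻¹} ≤ Θ`.  `M` contains `Xg a x e`
(`u = 1`), and is normalised by `Wg a x e` (clear on generators) and by `Xg a x e ≤ M`; so by
`Ug a e`, whose generators `a e j` are in `Xg a x e` (`j < x`, `h.symm`) or in `Wg a x e`
(`x ≤ j`).  (State it as: for all `g ∈ Ug a e` and all `m ∈ M`: `g * m * g⁻¹ ∈ M`; closure
induction for `g` with generators, inverses of generators, products.)
By `ug_conj` (`s := e`, `j := s`) `g * a e s * g⁻¹ = u * a e s * u⁻¹` with `u ∈ Ug a e`, and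
`a e s = a s e ∈ Xg a x e ≤ M`; so it is in `M ≤ Θ`. -/
theorem f_plus (h : PB a) {x y e s : Fin n} (hxy : x < y) (hye : y < e) (hs : s < x)
    (hc : Commute (lp (fun u => a u x) (low x)) (a x y)) {g : G} (hg : g ∈ Hg a) :
    Commute (a x y) (g * a e s * g⁻¹) := by
  have hxe : x < e := hxy.trans hye
  have hX : ∀ v ∈ Xg a x e, Commute (a x y) v := by
    intro v hv
    have h1 : Xg a x e ≤ Subgroup.centralizer {a x y} := by
      refine (Subgroup.closure_le _).2 ?_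
      rintro f ⟨s', hs', rfl⟩
      refine Subgroup.mem_centralizer_iff.2 ?_
      rintro f rfl
      exact (h.q2 s' x y e hs' hxy hye).symm.eq
    exact Subgroup.mem_centralizer_iff.1 (h1 hv) _ rfl
  set M : Subgroup G :=
    Subgroup.closure {f | ∃ u ∈ Wg a x e, ∃ v ∈ Xg a x e, f = u * v * u⁻¹} with hM
  have hMc : ∀ m ∈ M, Commute (a x y) m := by
    intro m hm
    have h1 : M ≤ Subgroup.centralizer {a x y} := by
      refine (Subgroup.closure_le _).2 ?_
      rintro f ⟨u, hu, v, hv, rfl⟩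
      refine Subgroup.mem_centralizer_iff.2 ?_
      rintro f rfl
      obtain ⟨p, hp, hp'⟩ := xg_conj_all h hxe.le hu
      obtain ⟨v', hv', e1⟩ := hp' v hv
      rw [e1]
      have h2 : Commute (a x y) p := pg_comm h hxy hc hp
      exact ((h2.mul_right (hX v' hv')).mul_right h2.inv_right).eq
    exact Subgroup.mem_centralizer_iff.1 (h1 hm) _ rfl
  have hXM : ∀ v ∈ Xg a x e, v ∈ M := by
    intro v hv
    exact Subgroup.subset_closure ⟨1, one_mem _, v, hv, by group⟩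
  have hW : ∀ w ∈ Wg a x e, ∀ m ∈ M, w * m * w⁻¹ ∈ M := by
    intro w hw m hm
    refine Subgroup.closure_induction (p := fun m _ => w * m * w⁻¹ ∈ M) ?_ ?_ ?_ ?_ hm
    · rintro f ⟨u, hu, v, hv, rfl⟩
      exact Subgroup.subset_closure ⟨w * u, mul_mem hw hu, v, hv, by group⟩
    · have e1 : w * 1 * w⁻¹ = 1 := by group
      rw [e1]
      exact one_mem _
    · intro p q _ _ hp hq
      have e1 : w * (p * q) * w⁻¹ = (w * p * w⁻¹) * (w * q * w⁻¹) := by group
      rw [e1]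
      exact mul_mem hp hq
    · intro p _ hp
      have e1 : w * p⁻¹ * w⁻¹ = (w * p * w⁻¹)⁻¹ := by group
      rw [e1]
      exact inv_mem hp
  have hN : ∀ u ∈ Ug a e, ∀ m ∈ M, u * m * u⁻¹ ∈ M := by
    intro u hu
    have hgen : ∀ j, j ≠ e → (∀ m ∈ M, a e j * m * (a e j)⁻¹ ∈ M) ∧
        (∀ m ∈ M, (a e j)⁻¹ * m * ((a e j)⁻¹)⁻¹ ∈ M) := by
      intro j hj
      rcases lt_or_ge j x with hjx | hjx
      · have h1 : a e j ∈ M := by
          rw [h.symm e j]
          exact hXM _ (Subgroup.subset_closure ⟨j, hjx, rfl⟩)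
        exact ⟨fun m hm => mul_mem (mul_mem h1 hm) (inv_mem h1),
          fun m hm => mul_mem (mul_mem (inv_mem h1) hm) (inv_mem (inv_mem h1))⟩
      · have h1 : a e j ∈ Wg a x e := Subgroup.subset_closure ⟨j, hjx, hj, rfl⟩
        exact ⟨fun m hm => hW _ h1 m hm, fun m hm => hW _ (inv_mem h1) m hm⟩
    have h2 : (∀ m ∈ M, u * m * u⁻¹ ∈ M) ∧ (∀ m ∈ M, u⁻¹ * m * (u⁻¹)⁻¹ ∈ M) := by
      refine Subgroup.closure_induction
        (p := fun u _ => (∀ m ∈ M, u * m * u⁻¹ ∈ M) ∧ (∀ m ∈ M, u⁻¹ * m * (u⁻¹)⁻¹ ∈ M))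
        ?_ ?_ ?_ ?_ hu
      · rintro f ⟨j, hj, rfl⟩
        exact hgen j hj
      · refine ⟨fun m hm => ?_, fun m hm => ?_⟩
        · have e1 : 1 * m * (1 : G)⁻¹ = m := by group
          rw [e1]
          exact hm
        · have e1 : (1 : G)⁻¹ * m * ((1 : G)⁻¹)⁻¹ = m := by group
          rw [e1]
          exact hm
      · intro p q _ _ hp hq
        refine ⟨fun m hm => ?_, fun m hm => ?_⟩
        · have e1 : p * q * m * (p * q)⁻¹ = p * (q * m * q⁻¹) * p⁻¹ := by group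
          rw [e1]
          exact hp.1 _ (hq.1 _ hm)
        · have e1 : (p * q)⁻¹ * m * ((p * q)⁻¹)⁻¹ = q⁻¹ * (p⁻¹ * m * (p⁻¹)⁻¹) * (q⁻¹)⁻¹ := by
            group
          rw [e1]
          exact hq.2 _ (hp.2 _ hm)
      · intro p _ hp
        refine ⟨hp.2, fun m hm => ?_⟩
        have e1 : p⁻¹⁻¹ * m * (p⁻¹⁻¹)⁻¹ = p * m * p⁻¹ := by group
        rw [e1]
        exact hp.1 m hm
    exact h2.1
  have hse : s ≠ e := (hs.trans hxe).ne
  obtain ⟨u, hu, e1⟩ := ug_conj h hse hg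
  rw [e1]
  refine hMc _ (hN u hu _ ?_)
  rw [h.symm e s]
  exact hXM _ (Subgroup.subset_closure ⟨s, hs, rfl⟩)

/-- There is no pair of strands `x, y` and partition of the other strands in two nonempty sets `S`
and `R` such that `a x y` commutes with all conjugates of all `a e s`, `s ∈ S`, `e ∈ R`. -/
def NoSplit (a : Fin n → Fin n → G) : Prop :=
  ∀ (x y : Fin n) (S : Set (Fin n)), x ≠ y → x ∉ S → y ∉ S → S.Nonempty →
    (∃ e, e ≠ x ∧ e ≠ y ∧ e ∉ S) →
    ¬ ∀ s ∈ S, ∀ e, e ≠ x → e ≠ y → e ∉ S → ∀ g ∈ Hg a, Commute (a x y) (g * a e s * g⁻¹)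

private theorem FF_eq {n : ℕ} {L M : List (Fin n)} (hL : L.Pairwise (· < ·))
    (hM : M.Pairwise (· < ·)) (h : ∀ u, u ∈ L ↔ u ∈ M) : L = M := by
  have h1 : L.Perm M := by
    refine (List.perm_ext_iff_of_nodup ?_ ?_).2 h
    · exact hL.imp fun h => h.ne
    · exact hM.imp fun h => h.ne
  exact List.Perm.eq_of_pairwise (fun a b _ _ h1 h2 => absurd (h1.trans h2) (lt_irrefl a)) hL hM h1

/-- **Module FF.** The twist of the first strands `0, .., x` does not commute with `a x (x + 1)`.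

PROOF.  Suppose it does.  `low y = low x ++ [x]` (`y = x + 1`; both lists are ascending with the
same members, or unfold with `List.finRange`, e.g. `List.eq_of_perm_of_sorted` /
`List.Perm.eq_of_pairwise`), so by `fd_snoc` `fd a (low y) = fd a (low x) * lp (a · x) (low x)`.
`a x y` commutes with `fd a (low x)` (`fd_commute`, `h.q1`), so with `lp (a · x) (low x)`.
By `f_plus` `a x y` commutes with all `g * a e s * g⁻¹`, `s < x`, `y < e`, `g ∈ Hg a`.
This contradicts `hn` for `S = {s | s < x}` (nonempty: `0`), the other strands are `e > y`. -/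
theorem edge (h : PB a) (hn : NoSplit a) {x y z : Fin n} (hxy : (x : ℕ) + 1 = y)
    (hx : 0 < (x : ℕ)) (hyz : y < z) : ¬ Commute (fd a (low y)) (a x y) := by
  intro hc
  have hlt : x < y := by
    rw [Fin.lt_def]
    omega
  have hsrt : (low x ++ [x]).Pairwise (· < ·) := by
    rw [List.pairwise_append]
    refine ⟨low_sorted x, List.pairwise_singleton _ _, ?_⟩
    intro u hu v hv
    rw [List.mem_singleton] at hv
    subst hv
    exact mem_low.1 hu
  have hlow : low y = low x ++ [x] := by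
    refine FF_eq (low_sorted y) hsrt ?_
    intro u
    rw [List.mem_append, List.mem_singleton, mem_low, mem_low]
    constructor
    · intro hu
      rcases eq_or_ne u x with h1 | h1
      · exact Or.inr h1
      · left
        rw [Fin.lt_def] at hu ⊢
        have : (u : ℕ) ≠ x := fun h2 => h1 (Fin.ext h2)
        omega
    · rintro (hu | hu)
      · exact hu.trans hlt
      · rw [hu]
        exact hlt
  rw [hlow, fd_snoc h hsrt] at hc
  have h1 : Commute (a x y) (fd a (low x)) := by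
    refine fd_commute (low_sorted x) ?_
    intro u hu v hv huv
    exact (h.q1 u v x y huv (mem_low.1 hv) hlt).symm
  have h2 : Commute (lp (fun u => a u x) (low x)) (a x y) :=
    (comm_right_of_mul hc.symm h1).symm
  refine hn x y {s | s < x} hlt.ne (lt_irrefl x) (not_lt.2 hlt.le) ?_ ?_ ?_
  · refine ⟨⟨0, lt_of_le_of_lt (Nat.zero_le _) x.2⟩, ?_⟩
    show (⟨0, _⟩ : Fin n) < x
    rw [Fin.lt_def]
    exact hx
  · exact ⟨z, (hlt.trans hyz).ne', hyz.ne', not_lt.2 (hlt.trans hyz).le⟩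
  · intro s hs e hex hey heS g hg
    have h3 : y < e := by
      have h4 : ¬ e < x := heS
      have h5 : (e : ℕ) ≠ x := fun h6 => hex (Fin.ext h6)
      have h6 : (e : ℕ) ≠ y := fun h6 => hey (Fin.ext h6)
      rw [Fin.lt_def] at h4 ⊢
      omega
    exact f_plus h hlt h3 hs h2 hg

/-- **Module FG.** The property is preserved by reordering the strands.

PROOF.  Suppose `a'` splits: `x, y, S`.  Let `x₁ = π x`, `y₁ = π y`, `S₁ = π '' S` (`= π.symm ⁻¹' S`).
`a' x y = g₁ * a x₁ y₁ * g₁⁻¹`.  For `s₁ = π s ∈ S₁`, `e₁ = π e ∉ S₁ ∪ {x₁, y₁}`, `g ∈ Hg a`: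
`a' e s = g₂ * a e₁ s₁ * g₂⁻¹`.  `Commute (a' x y) ((g₁ * g * g₂⁻¹) * a' e s * (g₁ * g * g₂⁻¹)⁻¹)`
as `g₁ * g * g₂⁻¹ ∈ Hg a = Hg a'`; conjugate by `g₁⁻¹`: `Commute (a x₁ y₁) (g * a e₁ s₁ * g⁻¹)`. -/
theorem NoSplit.of_rel {a' : Fin n → Fin n → G} (hn : NoSplit a) (hH : Hg a' = Hg a)
    (π : Equiv.Perm (Fin n))
    (hr : ∀ i j, i ≠ j → ∃ g ∈ Hg a, a' i j = g * a (π i) (π j) * g⁻¹) : NoSplit a' := by
  intro x y S hxy hxS hyS hS hR hall
  have hp : ∀ {i j : Fin n}, i ≠ j → π i ≠ π j := fun hij h => hij (π.injective h)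
  obtain ⟨g₁, hg₁, e₁⟩ := hr x y hxy
  refine hn (π x) (π y) (π.symm ⁻¹' S) (hp hxy) ?_ ?_ ?_ ?_ ?_
  · show ¬ (π.symm (π x) ∈ S)
    rw [Equiv.symm_apply_apply]
    exact hxS
  · show ¬ (π.symm (π y) ∈ S)
    rw [Equiv.symm_apply_apply]
    exact hyS
  · obtain ⟨s, hs⟩ := hS
    refine ⟨π s, ?_⟩
    show π.symm (π s) ∈ S
    rw [Equiv.symm_apply_apply]
    exact hs
  · obtain ⟨e, he1, he2, he3⟩ := hR
    refine ⟨π e, hp he1, hp he2, ?_⟩
    show ¬ (π.symm (π e) ∈ S)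
    rw [Equiv.symm_apply_apply]
    exact he3
  · intro s' hs' e' h1 h2 h3 g hg
    obtain ⟨s, rfl⟩ := π.surjective s'
    obtain ⟨e, rfl⟩ := π.surjective e'
    have hs : s ∈ S := by
      have h4 : π.symm (π s) ∈ S := hs'
      rwa [Equiv.symm_apply_apply] at h4
    have he : e ∉ S := by
      intro h5
      apply h3
      show π.symm (π e) ∈ S
      rwa [Equiv.symm_apply_apply]
    have hes : e ≠ s := fun h5 => he (h5 ▸ hs)
    obtain ⟨g₂, hg₂, e₂⟩ := hr e s hes
    have h6 := hall s hs e (fun h => h1 (by rw [h])) (fun h => h2 (by rw [h])) he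
      (g₁ * g * g₂⁻¹) (by rw [hH]; exact mul_mem (mul_mem hg₁ hg) (inv_mem hg₂))
    rw [e₁, e₂] at h6
    have h7 : g₁ * g * g₂⁻¹ * (g₂ * a (π e) (π s) * g₂⁻¹) * (g₁ * g * g₂⁻¹)⁻¹ =
        g₁ * (g * a (π e) (π s) * g⁻¹) * g₁⁻¹ := by group
    rw [h7] at h6
    have h8 : g₁ * a (π x) (π y) * g₁⁻¹ * (g₁ * (g * a (π e) (π s) * g⁻¹) * g₁⁻¹) =
        g₁ * (g * a (π e) (π s) * g⁻¹) * g₁⁻¹ * (g₁ * a (π x) (π y) * g₁⁻¹) := h6
    have h9 : g₁ * (a (π x) (π y) * (g * a (π e) (π s) * g⁻¹)) * g₁⁻¹ =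
        g₁ * ((g * a (π e) (π s) * g⁻¹) * a (π x) (π y)) * g₁⁻¹ := by
      calc _ = g₁ * a (π x) (π y) * g₁⁻¹ * (g₁ * (g * a (π e) (π s) * g⁻¹) * g₁⁻¹) := by group
        _ = _ := by rw [h8]; group
    exact mul_left_cancel (mul_right_cancel h9)

end Pool.Agent.PFk
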