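import Pool.Agent.PB3.Stab

/-!
# Ordered products and full twists for a family with the pure braid relations

Notation of this folder: `a : Fin n → Fin n → G` is a family with `PB a`; `a x y = a y x` is the
generator of the chord `x, y` (the strands are `n` points in convex position).
-/

set_option autoImplicit false

namespace Pool.Agent.PFk

open Pool.Agent.Conf14 (PB)
open Pool.Agent.PB3

section
variable {G : Type*} [Group G]

/-- the product of the values of a function over a list, in the order of the list -/
def lp {ι : Type*} (f : ι → G) (L : List ι) : G := (L.map f).prod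

@[simp] theorem lp_nil {ι : Type*} (f : ι → G) : lp f [] = 1 := rfl

@[simp] theorem lp_cons {ι : Type*} (f : ι → G) (x : ι) (L : List ι) :
    lp f (x :: L) = f x * lp f L := by
  simp [lp]

@[simp] theorem lp_append {ι : Type*} (f : ι → G) (L M : List ι) :
    lp f (L ++ M) = lp f L * lp f M := by
  simp [lp]

theorem lp_commute {ι : Type*} {f : ι → G} {L : List ι} {g : G} (h : ∀ x ∈ L, Commute g (f x)) :
    Commute g (lp f L) := by
  induction L with
  | nil => exact Commute.one_right g
  | cons x L ih =>
      rw [lp_cons]
      exact (h x (by simp)).mul_right (ih fun y hy => h y (by simp [hy]))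

theorem lp_conj {ι : Type*} (f : ι → G) (L : List ι) (g : G) :
    g * lp f L * g⁻¹ = lp (fun x => g * f x * g⁻¹) L := by
  induction L with
  | nil => simp
  | cons x L ih =>
      rw [lp_cons, lp_cons, ← ih]
      group

end

variable {n : ℕ} {G : Type*} [Group G] {a : Fin n → Fin n → G}

/-- the full twist on the strands of a list (used for lists in ascending order) -/
def fd (a : Fin n → Fin n → G) : List (Fin n) → G
  | [] => 1
  | x :: L => lp (a x) L * fd a L

@[simp] theorem fd_nil : fd a [] = 1 := rfl

@[simp] theorem fd_cons (x : Fin n) (L : List (Fin n)) : fd a (x :: L) = lp (a x) L * fd a L := rfl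

/-- the group generated by a family -/
def Hg (a : Fin n → Fin n → G) : Subgroup G := Subgroup.closure {f | ∃ i j, i ≠ j ∧ f = a i j}

theorem mem_Hg {i j : Fin n} (h : i ≠ j) : a i j ∈ Hg a := Subgroup.subset_closure ⟨i, j, h, rfl⟩

/-- the group generated by the generators on one strand -/
def Ug (a : Fin n → Fin n → G) (s : Fin n) : Subgroup G :=
  Subgroup.closure {f | ∃ j, j ≠ s ∧ f = a s j}

theorem mem_Ug {s j : Fin n} (h : j ≠ s) : a s j ∈ Ug a s := Subgroup.subset_closure ⟨j, h, rfl⟩

private theorem LA_gen {ι : Type*} (f : ι → G) (t : G) {L : List ι} {lt : ι → ι → Prop}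
    (htr : ∀ a b : ι, lt a b → ¬ lt b a) (hs : L.Pairwise lt) {y z : ι} (hy : y ∈ L) (hz : z ∈ L)
    (hyz : lt y z) (h1 : ∀ u ∈ L, (lt u y ∨ lt z u) → Commute t (f u))
    (h2 : ∀ u ∈ L, lt y u → lt u z → Commute t ((f z)⁻¹ * f u * f z))
    (h3 : Commute t (f y * f z)) : Commute t (lp f L) := by
  obtain ⟨A, B, hL⟩ := List.append_of_mem hy
  have hirr : ¬ lt y y := fun h => htr y y h h
  have hzB : z ∈ B := by
    rw [hL, List.mem_append, List.mem_cons] at hz
    rcases hz with hz | hz | hz
    · rw [hL, List.pairwise_append] at hs
      exact absurd (hs.2.2 z hz y (by simp)) (htr y z hyz)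
    · rw [hz] at hyz
      exact absurd hyz hirr
    · exact hz
  obtain ⟨M, R, hB⟩ := List.append_of_mem hzB
  subst hB
  subst hL
  rw [List.pairwise_append, List.pairwise_cons, List.pairwise_append, List.pairwise_cons] at hs
  obtain ⟨hA, ⟨hyB, hM, ⟨hzR, hR⟩, hMR⟩, hAB⟩ := hs
  have e1 : lp f (A ++ y :: (M ++ z :: R)) = lp f A * ((f y * f z) *
      lp (fun u => (f z)⁻¹ * f u * f z) M * lp f R) := by
    have e2 : lp (fun u => (f z)⁻¹ * f u * f z) M = (f z)⁻¹ * lp f M * f z := by
      have := lp_conj f M (f z)⁻¹
      rw [inv_inv] at this
      exact this.symm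
    rw [e2, lp_append, lp_cons, lp_append, lp_cons]
    group
  rw [e1]
  refine Commute.mul_right ?_ (Commute.mul_right (Commute.mul_right h3 ?_) ?_)
  · refine lp_commute fun u hu => h1 u (by simp [hu]) (Or.inl ?_)
    exact hAB u hu y (by simp)
  · refine lp_commute fun u hu => h2 u (by simp [hu]) ?_ ?_
    · exact hyB u (by simp [hu])
    · exact hMR u hu z (by simp)
  · refine lp_commute fun u hu => h1 u (by simp [hu]) (Or.inr (hzR u hu))

/-- **Module LA.** The product of the generators from `x` to the later strands of a list.

PROOF. Write `x :: L`, `L = P ++ y :: M ++ z :: R` (`List.append_of_mem` twice; use the pairwise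
order to see that `z` comes after `y`).  For `u ∈ P` or `u ∈ R` the chords `x, u` and `y, z` do not
cross: `h.disj`.  For `u ∈ M`, `y < u < z`, strand `x` outside of the chord `y, z`:
`cross_out h : Commute (a y z) ((a x z)⁻¹ * a x u * a x z)`.  `a x y * M * a x z =
(a x y * a x z) * lp (fun u => (a x z)⁻¹ * a x u * a x z) M`, and `a y z` commutes with
`a x y * a x z` because the triple product `a x y * a x z * a y z` commutes with `a y z` (`h.t2`). -/
theorem lp_v (h : PB a) {x y z : Fin n} {L : List (Fin n)} (hs : (x :: L).Pairwise (· < ·))
    (hy : y ∈ L) (hz : z ∈ L) (hyz : y < z) : Commute (lp (a x) L) (a y z) := by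
  have hxL : ∀ u ∈ L, x < u := (List.pairwise_cons.1 hs).1
  have hxy := hxL y hy
  have hxz := hxL z hz
  refine (LA_gen (a x) (a y z) (lt := (· < ·)) (fun a b h1 h2 => lt_asymm h1 h2)
    (List.pairwise_cons.1 hs).2 hy hz hyz ?_ ?_ ?_).symm
  · intro u hu huv
    have hxu := hxL u hu
    refine h.disj hxy.ne hxz.ne hyz hxu.ne' ?_ ?_ ?_
    · rcases huv with h1 | h1
      · exact h1.ne
      · exact (hyz.trans h1).ne'
    · rcases huv with h1 | h1
      · exact (h1.trans hyz).ne
      · exact h1.ne'
    · constructor
      · intro h1
        exact absurd h1.1 (lt_asymm hxy)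
      · intro h1
        rcases huv with h2 | h2
        · exact absurd h1.1 (lt_asymm h2)
        · exact absurd h1.2 (lt_asymm h2)
  · intro u hu h1 h2
    exact cross_out h (fun h3 => lt_asymm hxy h3.1) hxy.ne hxz.ne ⟨h1, h2⟩
  · have h1 := (h.t2 x y z hxy hyz).mul_left (Commute.refl (a y z)).inv_left
    rw [mul_inv_cancel_right] at h1
    exact h1.symm

/-- **Module LB.** The product of the generators from the strands of a list to a later strand `x`.

PROOF. As LA: `L = P ++ y :: M ++ z :: R`.  `u ∈ P, R`: `h.disj`.  `u ∈ M`: `cross_out` for the
chord `y, z` and the strand `x` outside: `Commute (a y z) ((a x z)⁻¹ * a x u * a x z)`; use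
`h.symm`.  `a y x * M * a z x = (a y x * a z x) * (...)`, and the triple product
`a y z * a y x * a z x` commutes with `a y z` (`h.t0`), so `a y x * a z x` does. -/
theorem lp_w (h : PB a) {x y z : Fin n} {L : List (Fin n)} (hs : (L ++ [x]).Pairwise (· < ·))
    (hy : y ∈ L) (hz : z ∈ L) (hyz : y < z) : Commute (lp (fun u => a u x) L) (a y z) := by
  rw [List.pairwise_append] at hs
  have hxL : ∀ u ∈ L, u < x := fun u hu => hs.2.2 u hu x (by simp)
  have hyx := hxL y hy
  have hzx := hxL z hz
  refine (LA_gen (fun u => a u x) (a y z) (lt := (· < ·)) (fun a b h1 h2 => lt_asymm h1 h2)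
    hs.1 hy hz hyz ?_ ?_ ?_).symm
  · intro u hu huv
    have hux := hxL u hu
    show Commute (a y z) (a u x)
    rw [h.symm u x]
    refine h.disj hyx.ne' hzx.ne' hyz hux.ne ?_ ?_ ?_
    · rcases huv with h1 | h1
      · exact h1.ne
      · exact (hyz.trans h1).ne'
    · rcases huv with h1 | h1
      · exact (h1.trans hyz).ne
      · exact h1.ne'
    · constructor
      · intro h1
        exact absurd h1.2 (lt_asymm hzx)
      · intro h1
        rcases huv with h2 | h2
        · exact absurd h1.1 (lt_asymm h2)
        · exact absurd h1.2 (lt_asymm h2)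
  · intro u hu h1 h2
    show Commute (a y z) ((a z x)⁻¹ * a u x * a z x)
    rw [h.symm z x, h.symm u x]
    exact cross_out h (fun h3 => lt_asymm hzx h3.2) hyx.ne' hzx.ne' ⟨h1, h2⟩
  · show Commute (a y z) (a y x * a z x)
    have h1 := (Commute.refl (a y z)).inv_left.mul_left (h.t0 hyz hzx)
    rw [mul_assoc, inv_mul_cancel_left] at h1
    exact h1.symm

private theorem LC_comm {L : List (Fin n)} (hs : L.Pairwise (· < ·)) {g : G}
    (hg : ∀ u ∈ L, ∀ v ∈ L, u < v → Commute g (a u v)) : Commute g (fd a L) := by
  induction L with
  | nil => exact Commute.one_right g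
  | cons x L ih =>
      rw [List.pairwise_cons] at hs
      rw [fd_cons]
      refine Commute.mul_right (lp_commute fun u hu => ?_) (ih hs.2 fun u hu v hv huv => ?_)
      · exact hg x (by simp) u (by simp [hu]) (hs.1 u hu)
      · exact hg u (by simp [hu]) v (by simp [hv]) huv

/-- **Module LC.** The full twist, last strand split off.

PROOF. Induction on `L`.  `fd a (y :: (L ++ [x])) = lp (a y) L * a y x * (fd a L * lp (a · x) L)`;
`a y x` commutes with `fd a L` because all `u < v` in `L` satisfy `y < u < v < x` (chords nested,
`h.disj` or `h.q2`) and `fd a L` is a product of such `a u v` (prove first: if `g` commutes with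
all `a u v`, `u, v ∈ L`, `u < v`, then with `fd a L`). -/
theorem fd_snoc (h : PB a) {x : Fin n} {L : List (Fin n)} (hs : (L ++ [x]).Pairwise (· < ·)) :
    fd a (L ++ [x]) = fd a L * lp (fun u => a u x) L := by
  induction L with
  | nil => simp
  | cons y L ih =>
      rw [List.cons_append, List.pairwise_cons] at hs
      have hyx : y < x := hs.1 x (by simp)
      have hs2 := List.pairwise_append.1 hs.2
      have hc : Commute (a y x) (fd a L) := by
        refine LC_comm hs2.1 fun u hu v hv huv => ?_
        exact h.q2 y u v x (hs.1 u (by simp [hu])) huv (hs2.2.2 v hv x (by simp))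
      rw [List.cons_append, fd_cons, fd_cons, ih hs.2, lp_append, lp_cons, lp_cons, lp_nil]
      calc lp (a y) L * (a y x * 1) * (fd a L * lp (fun u => a u x) L) =
          lp (a y) L * (a y x * fd a L) * lp (fun u => a u x) L := by group
        _ = lp (a y) L * (fd a L * a y x) * lp (fun u => a u x) L := by rw [hc.eq]
        _ = _ := by group

/-- **Module LD.** The full twist commutes with all generators of its strands.

PROOF. Induction on the length of `L` (statement for all lists of length `k`).
Case `y` is not the head: `L = x :: L'`: `fd a L = lp (a x) L' * fd a L'`, use `lp_v` and the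
induction hypothesis for `L'`.  Case `z` is not the last element: `L = L' ++ [x]`, `fd_snoc`, `lp_w`
and the induction hypothesis for `L'`.  Case `y` head and `z` last, `L = y :: M ++ [z]`:
`fd a L = fd a (y :: M) * lp (a · z) (y :: M)` commutes with `fd a (y :: M)` (which commutes with
`lp (a · z) (y :: M)` by `lp_w`), so with `lp (a · z) (y :: M) = a y z * lp (a · z) M`, and with
each factor of `lp (a · z) M` by the previous cases (their first index is not the head), so with
`a y z`. -/
theorem fd_comm (h : PB a) {L : List (Fin n)} (hs : L.Pairwise (· < ·)) {y z : Fin n}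
    (hy : y ∈ L) (hz : z ∈ L) (hyz : y < z) : Commute (fd a L) (a y z) := by
  obtain ⟨k, hk⟩ : ∃ k, L.length = k := ⟨_, rfl⟩
  induction k using Nat.strong_induction_on generalizing L y z with
  | _ k ih =>
    -- first the case in which the first index is not the head
    have key : ∀ u ∈ L.tail, ∀ v ∈ L.tail, u < v → Commute (fd a L) (a u v) := by
      intro u hu v hv huv
      cases L with
      | nil => simp at hu
      | cons x L =>
          rw [List.tail_cons] at hu hv
          rw [fd_cons]
          refine Commute.mul_left (lp_v h hs hu hv huv) ?_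
          refine ih L.length ?_ (List.pairwise_cons.1 hs).2 hu hv huv rfl
          rw [← hk, List.length_cons]
          exact Nat.lt_succ_self _
    cases L with
    | nil => simp at hy
    | cons x L =>
        have hs1 := (List.pairwise_cons.1 hs).1
        by_cases hyx : y = x
        · subst hyx
          have hzL : z ∈ L := by
            rcases List.mem_cons.1 hz with h1 | h1
            · exact absurd hyz (by rw [h1]; exact lt_irrefl _)
            · exact h1
          obtain ⟨M, w, hMw⟩ : ∃ M w, L = M ++ [w] := by
            rcases List.eq_nil_or_concat L with h1 | ⟨M, w, h1⟩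
            · rw [h1] at hzL
              simp at hzL
            · exact ⟨M, w, by rw [h1, List.concat_eq_append]⟩
          subst hMw
          have hsn : ((y :: M) ++ [w]).Pairwise (· < ·) := hs
          have hsy : (y :: M).Pairwise (· < ·) := (List.pairwise_append.1 hsn).1
          have hlen : (y :: M).length < k := by
            rw [← hk]
            simp
          have hfd : fd a (y :: (M ++ [w])) = fd a (y :: M) * lp (fun u => a u w) (y :: M) :=
            fd_snoc h hsn
          by_cases hzw : z = w
          · subst hzw
            have c1 : Commute (lp (fun u => a u z) (y :: M)) (fd a (y :: M)) :=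
              LC_comm hsy fun u hu v hv huv => lp_w h hsn hu hv huv
            have c2 : Commute (fd a (y :: (M ++ [z]))) (lp (fun u => a u z) (y :: M)) := by
              rw [hfd]
              exact c1.symm.mul_left (Commute.refl _)
            have c3 : Commute (fd a (y :: (M ++ [z]))) (lp (fun u => a u z) M) := by
              refine lp_commute fun u hu => key u (by simp [hu]) z (by simp) ?_
              have h5 := List.pairwise_append.1 (List.pairwise_cons.1 hs).2
              exact h5.2.2 u hu z (by simp)
            rw [lp_cons] at c2
            have c4 := c2.mul_right c3.inv_right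
            rw [mul_inv_cancel_right] at c4
            exact c4
          · have hzM : z ∈ y :: M := by
              rcases List.mem_append.1 hzL with h1 | h1
              · simp [h1]
              · simp at h1
                exact absurd h1 hzw
            rw [hfd]
            refine Commute.mul_left ?_ (lp_w h hsn (by simp) hzM hyz)
            exact ih (y :: M).length hlen hsy (by simp) hzM hyz rfl
        · have hyL : y ∈ L := by
            rcases List.mem_cons.1 hy with h1 | h1
            · exact absurd h1 hyx
            · exact h1
          have hzL : z ∈ L := by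
            rcases List.mem_cons.1 hz with h1 | h1
            · rw [h1] at hyz
              exact absurd (hs1 y hyL) (lt_asymm hyz)
            · exact h1
          exact key y (by simpa using hyL) z (by simpa using hzL) hyz

/-- **Module LE.** The full twist commutes with everything which commutes with the generators.

PROOF. Induction on `L`, `lp_commute`. -/
theorem fd_commute {L : List (Fin n)} (hs : L.Pairwise (· < ·)) {g : G}
    (hg : ∀ u ∈ L, ∀ v ∈ L, u < v → Commute g (a u v)) : Commute g (fd a L) := by
  exact LC_comm hs hg

end Pool.Agent.PFk
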