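import Pool.Agent.PFk.Fp

/-!
# Irreducible families do not split

In prime rank, or if the conjugates of each generator act irreducibly.
-/

set_option autoImplicit false

namespace Pool.Agent.PFk

open Pool.Agent.Conf14 (PB)
open Pool.Agent.PB3
open Module

section lines
variable {V : Type*} [AddCommGroup V] [Module ℂ V]

/-- invariance under all conjugates of `t` -/
private def PA_Inv (H : Subgroup (V ≃ₗ[ℂ] V)) (t : V ≃ₗ[ℂ] V) (W : Submodule ℂ V) : Prop :=
  ∀ g ∈ H, ∀ x ∈ W, (g * t * g⁻¹) x ∈ W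

private theorem PA_map {H : Subgroup (V ≃ₗ[ℂ] V)} {t h : V ≃ₗ[ℂ] V} (hh : h ∈ H)
    {W : Submodule ℂ V} (hW : PA_Inv H t W) : PA_Inv H t (W.map h.toLinearMap) := by
  rintro g hg _ ⟨x, hx, rfl⟩
  refine ⟨_, hW (h⁻¹ * g) (mul_mem (inv_mem hh) hg) x hx, ?_⟩
  have e : h * (h⁻¹ * g * t * (h⁻¹ * g)⁻¹) = g * t * g⁻¹ * h := by group
  exact LinearEquiv.congr_fun e x

private theorem PA_sup {H : Subgroup (V ≃ₗ[ℂ] V)} {t : V ≃ₗ[ℂ] V} {W W' : Submodule ℂ V}
    (h : PA_Inv H t W) (h' : PA_Inv H t W') : PA_Inv H t (W ⊔ W') := by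
  intro g hg x hx
  obtain ⟨y, hy, z, hz, rfl⟩ := Submodule.mem_sup.1 hx
  rw [map_add]
  exact Submodule.add_mem_sup (h g hg y hy) (h' g hg z hz)

/-- **Module PA.** Prime dimension: the conjugates of `t` have a common eigenvector, if some `y`
which is no scalar commutes with all of them.

PROOF.  Copy the argument of `Pool.Agent.PB3.irr_strand` (file PB3/Clif.lean).  Call a subspace
invariant if it is stable under all `g * t * g⁻¹`, `g ∈ H`.  Let `d` be the smallest dimension of an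
invariant subspace `W1 ≠ ⊥`, `F` the set of the invariant subspaces of dimension `d`.
For `h ∈ H` and `U ∈ F` the image `h U` is in `F` (`g t g⁻¹ h = h (h⁻¹ g) t (h⁻¹ g)⁻¹`), so
`sSup F` is stable under `H` and `≠ ⊥`: `sSup F = ⊤`.  As in `irr_strand` (maximal invariant `X` with
`d ∣ finrank X`) `d` divides the dimension of `V`.  If `d = finrank V`, there is no invariant
subspace except `⊥`, `⊤`; by `schur` (`S = {f | ∃ g ∈ H, f = g * t * g⁻¹}`) `y` is a scalar, against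
`hyn` (`cen_of_scalar`).  So `d = 1` and a nonzero vector of `W1` is a common eigenvector. -/
theorem exists_eig [FiniteDimensional ℂ V] (hp : (finrank ℂ V).Prime)
    (H : Subgroup (V ≃ₗ[ℂ] V))
    (hirr : ∀ W : Submodule ℂ V, (∀ f ∈ H, ∀ x ∈ W, f x ∈ W) → W = ⊥ ∨ W = ⊤)
    {t y : V ≃ₗ[ℂ] V} (hyn : ¬ Cen y) (hc : ∀ g ∈ H, Commute y (g * t * g⁻¹)) :
    ∃ v : V, v ≠ 0 ∧ ∀ g ∈ H, ∃ c : ℂ, (g * t * g⁻¹) v = c • v := by
  classical
  have : Nontrivial V := Module.nontrivial_of_finrank_pos (R := ℂ) hp.pos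
  have htop0 : (⊤ : Submodule ℂ V) ≠ ⊥ := top_ne_bot
  have hex : ∃ d : ℕ, ∃ W : Submodule ℂ V, W ≠ ⊥ ∧ PA_Inv H t W ∧ finrank ℂ W = d :=
    ⟨_, ⊤, htop0, fun _ _ _ _ => Submodule.mem_top, rfl⟩
  obtain ⟨W1, hW1, hI1, hd1⟩ := Nat.find_spec hex
  have hmin : ∀ U : Submodule ℂ V, U ≠ ⊥ → PA_Inv H t U → Nat.find hex ≤ finrank ℂ U :=
    fun U h1 h2 => Nat.find_min' hex ⟨U, h1, h2, rfl⟩
  obtain ⟨d, hd⟩ : ∃ d, d = Nat.find hex := ⟨_, rfl⟩
  rw [← hd] at hd1 hmin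
  set F : Set (Submodule ℂ V) := {U | PA_Inv H t U ∧ finrank ℂ U = d} with hF
  have hle : ∀ U ∈ F, U ≤ sSup F := fun U hU => le_sSup hU
  have htop : sSup F = ⊤ := by
    rcases hirr (sSup F) (by
      intro h hh
      have : sSup F ≤ (sSup F).comap h.toLinearMap := by
        refine sSup_le fun U hU x hx => ?_
        have hU' : U.map h.toLinearMap ∈ F := by
          refine ⟨PA_map hh hU.1, ?_⟩
          rw [← hU.2]
          exact LinearEquiv.finrank_map_eq h U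
        exact hle _ hU' ⟨x, hx, rfl⟩
      exact fun x hx => this hx) with h1 | h1
    · exfalso
      apply hW1
      rw [eq_bot_iff, ← h1]
      exact hle W1 ⟨hI1, hd1⟩
    · exact h1
  have hdvd : d ∣ finrank ℂ V := by
    obtain ⟨X, hX, hmax⟩ := WellFounded.has_min (r := ((· > ·) : Submodule ℂ V → Submodule ℂ V →
        Prop)) wellFounded_gt {X | PA_Inv H t X ∧ d ∣ finrank ℂ X}
        ⟨⊥, fun g _ x hx => by
          rw [Submodule.mem_bot] at hx ⊢
          rw [hx, map_zero], by simp⟩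
    by_cases hXtop : X = ⊤
    · have := hX.2
      rwa [hXtop, finrank_top] at this
    · exfalso
      obtain ⟨U, hU, hUX⟩ : ∃ U ∈ F, ¬ U ≤ X := by
        by_contra hc
        push Not at hc
        apply hXtop
        rw [eq_top_iff, ← htop]
        exact sSup_le hc
      have hbot : U ⊓ X = ⊥ := by
        by_contra hne
        have h1 := hmin _ hne (fun g hg x hx => ⟨hU.1 g hg x hx.1, hX.1 g hg x hx.2⟩)
        have h2 : U ⊓ X = U := Submodule.eq_of_le_of_finrank_le inf_le_left (by rw [hU.2]; exact h1)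
        exact hUX (inf_eq_left.1 h2)
      have hsum := Submodule.finrank_sup_add_finrank_inf_eq U X
      rw [hbot, finrank_bot, add_zero, hU.2] at hsum
      refine hmax (U ⊔ X) ⟨PA_sup hU.1 hX.1, ?_⟩ ?_
      · rw [hsum]
        exact (Nat.dvd_add_right (dvd_refl d)).2 hX.2
      · refine lt_of_le_of_ne le_sup_right fun heq => hUX ?_
        rw [heq]
        exact le_sup_left
  have hd1' : d = 1 := by
    rcases (Nat.dvd_prime hp).1 hdvd with h1 | h1
    · exact h1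
    · exfalso
      apply hyn
      obtain ⟨c, hc'⟩ := schur (S := {f | ∃ g ∈ H, f = g * t * g⁻¹}) (by
        intro W hW
        by_cases hW0 : W = ⊥
        · exact Or.inl hW0
        · right
          have h2 := hmin W hW0 (fun g hg x hx => hW _ ⟨g, hg, rfl⟩ x hx)
          rw [h1] at h2
          exact Submodule.eq_top_of_finrank_eq (le_antisymm (Submodule.finrank_le W) h2)) y (by
        rintro f ⟨g, hg, rfl⟩
        exact hc g hg)
      exact cen_of_scalar hc'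
  obtain ⟨v, hv, hv0⟩ := Submodule.exists_mem_ne_zero_of_ne_bot hW1
  refine ⟨v, hv0, fun g hg => ?_⟩
  rw [hd1'] at hd1
  obtain ⟨c, hc'⟩ := (finrank_eq_one_iff_of_nonzero' (⟨v, hv⟩ : W1)
    (fun h' => hv0 (congrArg Subtype.val h'))).1 hd1 ⟨_, hI1 g hg v hv⟩
  exact ⟨c, (congrArg Subtype.val hc').symm⟩

/-- the conjugate `g * t * g⁻¹` as a linear map -/
private def PB_f (H : Subgroup (V ≃ₗ[ℂ] V)) (t : V ≃ₗ[ℂ] V) (g : H) : End ℂ V :=
  ((g.1 * t * g.1⁻¹ : V ≃ₗ[ℂ] V) : V →ₗ[ℂ] V)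

/-- the common eigenspaces -/
private def PB_J (H : Subgroup (V ≃ₗ[ℂ] V)) (t : V ≃ₗ[ℂ] V) (c : H → ℂ) : Submodule ℂ V :=
  ⨅ g : H, End.eigenspace (PB_f H t g) (c g)

private theorem PB_mem (H : Subgroup (V ≃ₗ[ℂ] V)) (t : V ≃ₗ[ℂ] V) (c : H → ℂ) (v : V) :
    v ∈ PB_J H t c ↔ ∀ g : H, (g.1 * t * g.1⁻¹) v = c g • v := by
  unfold PB_J
  rw [Submodule.mem_iInf]
  exact forall_congr' fun g => End.mem_eigenspace_iff

private theorem PB_le (H : Subgroup (V ≃ₗ[ℂ] V)) (t : V ≃ₗ[ℂ] V) (c : H → ℂ) :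
    PB_J H t c ≤ ⨅ g, (PB_f H t g).maxGenEigenspace (c g) := by
  refine iInf_mono fun g x hx => ?_
  rw [End.mem_maxGenEigenspace]
  refine ⟨1, ?_⟩
  have h1 : PB_f H t g x = c g • x := End.mem_eigenspace_iff.1 hx
  rw [pow_one, LinearMap.sub_apply, h1]
  exact sub_self _

private def PB_sh {H : Subgroup (V ≃ₗ[ℂ] V)} (h : H) (c : H → ℂ) : H → ℂ := fun g => c (h⁻¹ * g)

private theorem PB_sh_mul {H : Subgroup (V ≃ₗ[ℂ] V)} (h k : H) (c : H → ℂ) :
    PB_sh (h * k) c = PB_sh h (PB_sh k c) := by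
  funext g
  show c ((h * k)⁻¹ * g) = c (k⁻¹ * (h⁻¹ * g))
  rw [mul_inv_rev, mul_assoc]

private theorem PB_sh_one {H : Subgroup (V ≃ₗ[ℂ] V)} (c : H → ℂ) : PB_sh (1 : H) c = c := by
  funext g
  show c (1⁻¹ * g) = c g
  rw [inv_one, one_mul]

private theorem PB_smul (H : Subgroup (V ≃ₗ[ℂ] V)) (t : V ≃ₗ[ℂ] V) (h : H) (c : H → ℂ) (v : V)
    (hv : v ∈ PB_J H t c) : h.1 v ∈ PB_J H t (PB_sh h c) := by
  rw [PB_mem] at hv ⊢
  intro g
  have h1 := hv (h⁻¹ * g)
  have e : g.1 * t * g.1⁻¹ * h.1 = h.1 * ((h⁻¹ * g).1 * t * (h⁻¹ * g).1⁻¹) := by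
    show g.1 * t * g.1⁻¹ * h.1 = h.1 * ((h.1⁻¹ * g.1) * t * (h.1⁻¹ * g.1)⁻¹)
    group
  have h2 : (g.1 * t * g.1⁻¹) (h.1 v) = h.1 (((h⁻¹ * g).1 * t * (h⁻¹ * g).1⁻¹) v) :=
    LinearEquiv.congr_fun e v
  rw [h2, h1, map_smul]
  rfl

private theorem PB_fin_le [FiniteDimensional ℂ V] (H : Subgroup (V ≃ₗ[ℂ] V)) (t : V ≃ₗ[ℂ] V)
    (h : H) (c : H → ℂ) : finrank ℂ (PB_J H t c) ≤ finrank ℂ (PB_J H t (PB_sh h c)) := by
  rw [← LinearEquiv.finrank_map_eq h.1 (PB_J H t c)]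
  refine Submodule.finrank_mono ?_
  rintro _ ⟨v, hv, rfl⟩
  exact PB_smul H t h c v hv

private theorem PB_fin [FiniteDimensional ℂ V] (H : Subgroup (V ≃ₗ[ℂ] V)) (t : V ≃ₗ[ℂ] V)
    (h : H) (c : H → ℂ) : finrank ℂ (PB_J H t (PB_sh h c)) = finrank ℂ (PB_J H t c) := by
  refine le_antisymm ?_ (PB_fin_le H t h c)
  have h1 := PB_fin_le H t h⁻¹ (PB_sh h c)
  rwa [← PB_sh_mul, inv_mul_cancel, PB_sh_one] at h1

private theorem PB_card [FiniteDimensional ℂ V] {S : Type*} [Fintype S] [DecidableEq S]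
    (N : S → Submodule ℂ V) (hind : iSupIndep N) (htop : iSup N = ⊤) (d : ℕ)
    (hd : ∀ s, finrank ℂ (N s) = d) : finrank ℂ V = Fintype.card S * d := by
  have hI : DirectSum.IsInternal N :=
    DirectSum.isInternal_submodule_of_iSupIndep_of_iSup_eq_top hind htop
  have h1 := finrank_eq_card_basis (hI.collectedBasis fun s => finBasis ℂ (N s))
  rw [h1, Fintype.card_sigma]
  simp only [Fintype.card_fin, hd]
  rw [Finset.sum_const, Finset.card_univ, smul_eq_mul]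

/-- **Module PB.** Clifford theory in prime dimension: a basis of common eigenvectors, permuted by
`H` up to scalars, and unique.

PROOF.  For `c : H → ℂ` let `J c` be the subspace of all `v` with `(g * t * g⁻¹) v = c g • v` for
all `g ∈ H`.
(1) The `J c` are independent (`iSupIndep J`): e.g. by induction on the number of terms of a
relation (apply `g t g⁻¹ - c g` for a `g` which separates two of the functions), or with
Mathlib's `Module.End.eigenspaces_iSupIndep` and induction.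
(2) `h (J c) = J (c ∘ (h⁻¹ * ·))` for `h ∈ H`: `(g t g⁻¹) h v = h ((h⁻¹ g) t (h⁻¹ g)⁻¹) v`; so all
`J` in one `H`-orbit have the same dimension.
(3) With the `v` of `exists_eig`, `v ∈ J c₀`: the sum of the `h (J c₀)` is stable under `H` and
`≠ ⊥`, so it is `V`.  So by independence the functions `c` with `J c ≠ ⊥` are exactly the
`c₀ ∘ (h⁻¹ * ·)`; their number `m` is finite and `finrank V = m * finrank (J c₀)`.
(4) `m = 1` is impossible: then `J c₀ = ⊤` and `t` (`g = 1`) is a scalar, against `htn`.  So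
`m = finrank V` and `finrank (J c₀) = 1`.
(5) Choose a bijection of `Fin (finrank V)` with the set of these functions and `b ω ≠ 0` in the
line of `ω`; basis: independent and the right number.  `π h` is the permutation
`c ↦ c ∘ (h⁻¹ * ·)`; it is a homomorphism: `(h k)⁻¹ g = k⁻¹ (h⁻¹ g)`.
(6) `z` which commutes with all `g * t * g⁻¹` preserves each `J c`, a line.
The third claim: `b ω ∈ J c`. -/
theorem clif_lines [FiniteDimensional ℂ V] (hp : (finrank ℂ V).Prime)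
    (H : Subgroup (V ≃ₗ[ℂ] V))
    (hirr : ∀ W : Submodule ℂ V, (∀ f ∈ H, ∀ x ∈ W, f x ∈ W) → W = ⊥ ∨ W = ⊤)
    {t y : V ≃ₗ[ℂ] V} (htn : ¬ Cen t) (hyn : ¬ Cen y)
    (hc : ∀ g ∈ H, Commute y (g * t * g⁻¹)) :
    ∃ (b : Basis (Fin (finrank ℂ V)) ℂ V) (π : H →* Equiv.Perm (Fin (finrank ℂ V))),
      (∀ (h : H) ω, ∃ c : ℂ, h.1 (b ω) = c • b (π h ω)) ∧
      (∀ z : V ≃ₗ[ℂ] V, (∀ g ∈ H, Commute z (g * t * g⁻¹)) → ∀ ω, ∃ c : ℂ, z (b ω) = c • b ω) ∧
      (∀ g ∈ H, ∀ ω, ∃ c : ℂ, (g * t * g⁻¹) (b ω) = c • b ω) := by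
  classical
  obtain ⟨v, hv0, hv⟩ := exists_eig hp H hirr hyn hc
  choose c₁ hc₁ using hv
  set c₀ : H → ℂ := fun g => c₁ g.1 g.2 with hc₀
  have hvJ : v ∈ PB_J H t c₀ := (PB_mem H t c₀ v).2 fun g => hc₁ g.1 g.2
  have hv' : ∀ h : H, h.1 v ∈ PB_J H t (PB_sh h c₀) := fun h => PB_smul H t h c₀ v hvJ
  have hne : ∀ h : H, PB_J H t (PB_sh h c₀) ≠ ⊥ := by
    intro h h0
    have h1 := hv' h
    rw [h0, Submodule.mem_bot] at h1
    exact hv0 (by simpa using h1)
  -- the sum of the lines in the orbit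
  obtain ⟨T, hTle, hTmin⟩ : ∃ T : Submodule ℂ V, (∀ h : H, PB_J H t (PB_sh h c₀) ≤ T) ∧
      ∀ U : Submodule ℂ V, (∀ h : H, PB_J H t (PB_sh h c₀) ≤ U) → T ≤ U :=
    ⟨⨆ h : H, PB_J H t (PB_sh h c₀), le_iSup (fun h : H => PB_J H t (PB_sh h c₀)),
      fun U hU => iSup_le hU⟩
  have htop : T = ⊤ := by
    rcases hirr T (by
      intro f hf x hx
      have h3 : T ≤ T.comap f.toLinearMap := by
        refine hTmin _ fun h x hx => ?_
        have h1 := PB_smul H t ⟨f, hf⟩ _ x hx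
        rw [← PB_sh_mul] at h1
        exact hTle _ h1
      exact h3 hx) with h1 | h1
    · exfalso
      refine hne 1 (eq_bot_iff.2 ?_)
      rw [← h1]
      exact hTle 1
    · exact h1
  -- the conjugates commute
  have hcomm : ∀ g g' : H, Commute (PB_f H t g) (PB_f H t g') := by
    intro g g'
    have h3 : T ≤ LinearMap.ker (PB_f H t g * PB_f H t g' - PB_f H t g' * PB_f H t g) := by
      refine hTmin _ fun h x hx => ?_
      have h1 := (PB_mem H t _ x).1 hx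
      rw [LinearMap.mem_ker, LinearMap.sub_apply, sub_eq_zero]
      show (g.1 * t * g.1⁻¹) ((g'.1 * t * g'.1⁻¹) x) = (g'.1 * t * g'.1⁻¹) ((g.1 * t * g.1⁻¹) x)
      rw [h1, h1, map_smul, map_smul, h1, h1, smul_comm]
    rw [htop, top_le_iff, LinearMap.ker_eq_top, sub_eq_zero] at h3
    exact h3
  have hmaps : ∀ (g g' : H) (φ : ℂ), Set.MapsTo (PB_f H t g)
      ((PB_f H t g').maxGenEigenspace φ) ((PB_f H t g').maxGenEigenspace φ) :=
    fun g g' φ => End.mapsTo_maxGenEigenspace_of_comm (hcomm g' g) φ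
  have hind0 : iSupIndep fun c : H → ℂ => ⨅ g, (PB_f H t g).maxGenEigenspace (c g) :=
    End.independent_iInf_maxGenEigenspace_of_forall_mapsTo (PB_f H t) hmaps
  have hind : iSupIndep (PB_J H t) := hind0.mono fun c => PB_le H t c
  have horb : ∀ c, PB_J H t c ≠ ⊥ → ∃ h : H, c = PB_sh h c₀ := by
    intro c hc0
    by_contra hcon
    push Not at hcon
    apply hc0
    have h1 : T ≤ ⨆ (c' : H → ℂ) (_ : c' ≠ c), PB_J H t c' :=
      hTmin _ fun h => le_iSup₂_of_le (PB_sh h c₀) (hcon h).symm le_rfl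
    rw [htop, top_le_iff] at h1
    have h2 := hind c
    rw [h1] at h2
    exact disjoint_top.1 h2
  -- the set of the lines
  have hfin : {c | PB_J H t c ≠ ⊥}.Finite := WellFoundedGT.finite_ne_bot_of_iSupIndep hind
  have hS : Fintype {c | PB_J H t c ≠ ⊥} := hfin.fintype
  have hSsh : ∀ (h : H) (c : H → ℂ), PB_J H t c ≠ ⊥ → PB_J H t (PB_sh h c) ≠ ⊥ := by
    intro h c hc0
    obtain ⟨k, rfl⟩ := horb c hc0
    rw [← PB_sh_mul]
    exact hne _
  have hdim : ∀ c, PB_J H t c ≠ ⊥ → finrank ℂ (PB_J H t c) = finrank ℂ (PB_J H t c₀) := by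
    intro c hc0
    obtain ⟨k, rfl⟩ := horb c hc0
    exact PB_fin H t k c₀
  have hcard : finrank ℂ V = Fintype.card {c | PB_J H t c ≠ ⊥} * finrank ℂ (PB_J H t c₀) := by
    refine PB_card (fun c : {c | PB_J H t c ≠ ⊥} => PB_J H t c.1)
      (hind.comp Subtype.val_injective) ?_ _ (fun c => hdim c.1 c.2)
    rw [eq_top_iff, ← htop]
    exact hTmin _ fun h => le_iSup_of_le
      (f := fun c : {c | PB_J H t c ≠ ⊥} => PB_J H t c.1) ⟨PB_sh h c₀, hne h⟩ le_rfl
  have hcS : Fintype.card {c | PB_J H t c ≠ ⊥} = finrank ℂ V := by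
    rcases (Nat.dvd_prime hp).1 ⟨_, hcard⟩ with h1 | h1
    · exfalso
      rw [h1, one_mul] at hcard
      have h2 : PB_J H t c₀ = ⊤ := Submodule.eq_top_of_finrank_eq hcard.symm
      apply htn
      refine cen_of_scalar (c := c₀ 1) fun x => ?_
      have h3 : x ∈ PB_J H t c₀ := by
        rw [h2]
        exact Submodule.mem_top
      have h4 := (PB_mem H t c₀ x).1 h3 1
      have h5 : ((1 : H).1 * t * (1 : H).1⁻¹) = t := by
        show 1 * t * 1⁻¹ = t
        rw [one_mul, inv_one, mul_one]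
      rwa [h5] at h4
    · exact h1
  have hd1 : finrank ℂ (PB_J H t c₀) = 1 := by
    rw [hcS] at hcard
    exact Nat.eq_of_mul_eq_mul_left hp.pos (by rw [mul_one]; exact hcard.symm)
  have hline : ∀ c, PB_J H t c ≠ ⊥ → ∀ w ∈ PB_J H t c, w ≠ 0 → ∀ u ∈ PB_J H t c,
      ∃ x : ℂ, u = x • w := by
    intro c hc0 w hw hw0 u hu
    have h1 := hdim c hc0
    rw [hd1] at h1
    obtain ⟨x, hx⟩ := (finrank_eq_one_iff_of_nonzero' (⟨w, hw⟩ : PB_J H t c)
      (fun h' => hw0 (congrArg Subtype.val h'))).1 h1 ⟨u, hu⟩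
    exact ⟨x, (congrArg Subtype.val hx).symm⟩
  -- the basis
  have hvec : ∀ c : {c | PB_J H t c ≠ ⊥}, ∃ w ∈ PB_J H t c.1, w ≠ 0 := fun c =>
    Submodule.exists_mem_ne_zero_of_ne_bot c.2
  choose w hwJ hw0 using hvec
  let e : {c | PB_J H t c ≠ ⊥} ≃ Fin (finrank ℂ V) := Fintype.equivFinOfCardEq hcS
  have hli : LinearIndependent ℂ w := iSupIndep.linearIndependent
    (fun c : {c | PB_J H t c ≠ ⊥} => PB_J H t c.1) (hind.comp Subtype.val_injective) hwJ hw0
  have hne' : Nonempty (Fin (finrank ℂ V)) := ⟨⟨0, hp.pos⟩⟩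
  let b : Basis (Fin (finrank ℂ V)) ℂ V := basisOfLinearIndependentOfCardEqFinrank
    (b := fun i => w (e.symm i)) (hli.comp _ e.symm.injective) (by rw [Fintype.card_fin])
  have hb : ∀ i, b i = w (e.symm i) := fun i => by
    rw [coe_basisOfLinearIndependentOfCardEqFinrank]
  let π₀ : H →* Equiv.Perm {c | PB_J H t c ≠ ⊥} := MonoidHom.mk' (fun h =>
    { toFun := fun c => ⟨PB_sh h c.1, hSsh h c.1 c.2⟩
      invFun := fun c => ⟨PB_sh h⁻¹ c.1, hSsh h⁻¹ c.1 c.2⟩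
      left_inv := fun c => Subtype.ext (by
        show PB_sh h⁻¹ (PB_sh h c.1) = c.1
        rw [← PB_sh_mul, inv_mul_cancel, PB_sh_one])
      right_inv := fun c => Subtype.ext (by
        show PB_sh h (PB_sh h⁻¹ c.1) = c.1
        rw [← PB_sh_mul, mul_inv_cancel, PB_sh_one]) }) (fun h k => by
    refine Equiv.ext fun c => Subtype.ext ?_
    exact PB_sh_mul h k c.1)
  refine ⟨b, (e.permCongrHom : Equiv.Perm _ ≃* Equiv.Perm _).toMonoidHom.comp π₀, ?_, ?_, ?_⟩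
  · intro h ω
    have h1 : b (((e.permCongrHom : Equiv.Perm _ ≃* Equiv.Perm _).toMonoidHom.comp π₀) h ω) =
        w (π₀ h (e.symm ω)) := by
      rw [hb]
      exact congrArg w (e.symm_apply_apply _)
    rw [h1, hb]
    exact hline (π₀ h (e.symm ω)).1 (π₀ h (e.symm ω)).2 _ (hwJ _) (hw0 _) _
      (PB_smul H t h _ _ (hwJ _))
  · intro z hz ω
    rw [hb]
    refine hline _ (e.symm ω).2 _ (hwJ _) (hw0 _) _ ((PB_mem H t _ _).2 fun g => ?_)
    have h1 : (g.1 * t * g.1⁻¹) (z (w (e.symm ω))) = z ((g.1 * t * g.1⁻¹) (w (e.symm ω))) :=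
      LinearEquiv.congr_fun (hz g.1 g.2).eq.symm _
    rw [h1, (PB_mem H t _ _).1 (hwJ (e.symm ω)) g, map_smul]
  · intro g hg ω
    refine ⟨(e.symm ω).1 ⟨g, hg⟩, ?_⟩
    rw [hb]
    exact (PB_mem H t _ _).1 (hwJ (e.symm ω)) ⟨g, hg⟩

/-- **Module PC.** Monomial automorphisms which act irreducibly permute the lines transitively.

PROOF.  Fix `i`; let `O = {π h i | h ∈ K}` and `W = span {b ω | ω ∈ O}`.  `W` is stable under `K`
(`h.1 (b (π k i)) = c • b (π (h k) i)`), `W ≠ ⊥` (`b i ∈ W`), so `W = ⊤`; so `b j ∈ W` and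
`j ∈ O` (`Basis.mem_span_image` or linear independence). -/
theorem mono_trans {ι : Type*} {H : Subgroup (V ≃ₗ[ℂ] V)} (b : Basis ι ℂ V)
    (π : H →* Equiv.Perm ι) (hπ : ∀ (h : H) ω, ∃ c : ℂ, h.1 (b ω) = c • b (π h ω))
    (K : Subgroup H)
    (hK : ∀ W : Submodule ℂ V, (∀ f ∈ K, ∀ x ∈ W, f.1 x ∈ W) → W = ⊥ ∨ W = ⊤) (i j : ι) :
    ∃ h ∈ K, π h i = j := by
  have htop : Submodule.span ℂ (b '' {ω | ∃ h ∈ K, π h i = ω}) = ⊤ := by
    rcases hK (Submodule.span ℂ (b '' {ω | ∃ h ∈ K, π h i = ω})) (by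
      intro f hf
      have : Submodule.span ℂ (b '' {ω | ∃ h ∈ K, π h i = ω}) ≤
          (Submodule.span ℂ (b '' {ω | ∃ h ∈ K, π h i = ω})).comap f.1.toLinearMap := by
        refine Submodule.span_le.2 ?_
        rintro _ ⟨_, ⟨h, hh, rfl⟩, rfl⟩
        obtain ⟨c, hc⟩ := hπ f (π h i)
        show f.1 (b (π h i)) ∈ Submodule.span ℂ (b '' {ω | ∃ h ∈ K, π h i = ω})
        rw [hc]
        refine Submodule.smul_mem _ _ (Submodule.subset_span ⟨_, ⟨f * h, mul_mem hf hh, ?_⟩, rfl⟩)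
        rw [map_mul]
        rfl
      exact fun x hx => this hx) with h1 | h1
    · exfalso
      have h2 : b i ∈ Submodule.span ℂ (b '' {ω | ∃ h ∈ K, π h i = ω}) :=
        Submodule.subset_span ⟨i, ⟨1, one_mem _, by rw [map_one]; rfl⟩, rfl⟩
      rw [h1, Submodule.mem_bot] at h2
      exact b.ne_zero i h2
    · exact h1
  have h3 : b j ∈ Submodule.span ℂ (b '' {ω | ∃ h ∈ K, π h i = ω}) := by
    rw [htop]
    exact Submodule.mem_top
  rw [b.mem_span_image, b.repr_self] at h3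
  have h4 : j ∈ (Finsupp.single j (1 : ℂ)).support := by
    rw [Finsupp.mem_support_iff, Finsupp.single_eq_same]
    exact one_ne_zero
  exact h3 h4

/-- **Module PD.** A diagonal automorphism which commutes with a monomial one whose permutation is
transitive is a scalar.

PROOF.  `z (b ω) = c ω • b ω` (choose `c`), `h.1 (b ω) = e ω • b (π h ω)` with `e ω ≠ 0` (`h.1` is
injective).  `z (h.1 (b ω)) = h.1 (z (b ω))` gives `e ω * c (π h ω) = e ω * c ω`, so
`c (π h ω) = c ω`, `c ((π h ^ k) ω) = c ω`, so `c` is constant and `z` is the scalar (two linear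
maps which agree on a basis), central by `cen_of_scalar`. -/
theorem diag_cen {ι : Type*} {H : Subgroup (V ≃ₗ[ℂ] V)} (b : Basis ι ℂ V)
    (π : H →* Equiv.Perm ι) (hπ : ∀ (h : H) ω, ∃ c : ℂ, h.1 (b ω) = c • b (π h ω))
    {z : V ≃ₗ[ℂ] V} (hz : ∀ ω, ∃ c : ℂ, z (b ω) = c • b ω) {h : H}
    (ht : ∀ i j, ∃ k : ℕ, ((π h) ^ k) i = j) (hc : Commute z h.1) : Cen z := by
  choose c hc' using hz
  choose e he using hπ h
  have he0 : ∀ ω, e ω ≠ 0 := by
    intro ω h0
    have h1 := he ω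
    rw [h0, zero_smul] at h1
    have h2 : b ω = 0 := by simpa using h1
    exact b.ne_zero ω h2
  have hstep : ∀ ω, c (π h ω) = c ω := by
    intro ω
    have h1 : z (h.1 (b ω)) = h.1 (z (b ω)) := LinearEquiv.congr_fun hc.eq _
    rw [he, map_smul, hc', hc', map_smul, he, smul_smul, smul_smul] at h1
    have h2 := sub_eq_zero.2 h1
    rw [← sub_smul] at h2
    rcases smul_eq_zero.1 h2 with h3 | h3
    · have h4 : e ω * (c (π h ω) - c ω) = 0 := by linear_combination h3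
      rcases mul_eq_zero.1 h4 with h5 | h5
      · exact absurd h5 (he0 ω)
      · exact sub_eq_zero.1 h5
    · exact absurd h3 (b.ne_zero _)
  have hpow : ∀ (k : ℕ) ω, c (((π h) ^ k) ω) = c ω := by
    intro k
    induction k with
    | zero =>
      intro ω
      rfl
    | succ k ih =>
      intro ω
      rw [pow_succ', Equiv.Perm.mul_apply, hstep, ih]
  rcases isEmpty_or_nonempty ι with hι | ⟨⟨i₀⟩⟩
  · have hsub : Subsingleton V := by
      refine ⟨fun x y => ?_⟩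
      exact b.ext_elem fun i => (hι.false i).elim
    exact cen_of_scalar (c := 0) fun x => Subsingleton.elim _ _
  · refine cen_of_scalar (c := c i₀) fun x => ?_
    have h1 : (z : V →ₗ[ℂ] V) = c i₀ • LinearMap.id := by
      refine b.ext fun ω => ?_
      obtain ⟨k, hk⟩ := ht i₀ ω
      show z (b ω) = c i₀ • b ω
      rw [hc', ← hk, hpow]
    exact LinearMap.congr_fun h1 x

end lines

section perm

/-- if a transitive group commutes with `B` then an element of `B` is determined by one value -/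
private theorem PE_inj {p : ℕ} {A B : Subgroup (Equiv.Perm (Fin p))}
    (hA : ∀ i j, ∃ g ∈ A, g i = j) (hc : ∀ g ∈ A, ∀ h ∈ B, Commute g h) {f f' : Equiv.Perm (Fin p)}
    (hf : f ∈ B) (hf' : f' ∈ B) {i : Fin p} (h : f i = f' i) : f = f' := by
  refine Equiv.ext fun j => ?_
  obtain ⟨g, hg, rfl⟩ := hA i j
  have h1 : f (g i) = g (f i) := (Equiv.congr_fun (hc g hg f hf).eq i).symm
  have h2 : f' (g i) = g (f' i) := (Equiv.congr_fun (hc g hg f' hf').eq i).symm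
  rw [h1, h2, h]

private theorem PE_card {p : ℕ} (hp : p.Prime) {A B : Subgroup (Equiv.Perm (Fin p))}
    (hA : ∀ i j, ∃ g ∈ A, g i = j) (hB : ∀ i j, ∃ g ∈ B, g i = j)
    (hc : ∀ g ∈ A, ∀ h ∈ B, Commute g h) : Nat.card B = p := by
  have i₀ : Fin p := ⟨0, hp.pos⟩
  have h1 : Nat.card B = Nat.card (Fin p) := by
    refine Nat.card_congr (Equiv.ofBijective (fun g : B => g.1 i₀) ⟨?_, ?_⟩)
    · intro f f' h
      exact Subtype.ext (PE_inj hA hc f.2 f'.2 h)
    · intro j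
      obtain ⟨g, hg, hgj⟩ := hB i₀ j
      exact ⟨⟨g, hg⟩, hgj⟩
  rw [h1, Nat.card_eq_fintype_card, Fintype.card_fin]

private theorem PE_gen {p : ℕ} (hp : p.Prime) {A : Subgroup (Equiv.Perm (Fin p))}
    (hcA : Nat.card A = p) {g : Equiv.Perm (Fin p)} (hg : g ∈ A) (hg1 : g ≠ 1) :
    A = Subgroup.zpowers g := by
  have hle : Subgroup.zpowers g ≤ A := by rwa [Subgroup.zpowers_le]
  have hdvd := Subgroup.card_dvd_of_le hle
  rw [hcA, Nat.card_zpowers] at hdvd
  symm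
  refine Subgroup.eq_of_le_of_card_ge hle ?_
  rcases (Nat.dvd_prime hp).1 hdvd with h1 | h1
  · exact absurd (orderOf_eq_one_iff.1 h1) hg1
  · rw [hcA, Nat.card_zpowers, h1]

private theorem PE_le {p : ℕ} (hp : p.Prime) {A B : Subgroup (Equiv.Perm (Fin p))}
    (hB : ∀ i j, ∃ g ∈ B, g i = j)
    (hc : ∀ g ∈ A, ∀ h ∈ B, Commute g h) (hcB : Nat.card B = p) : A ≤ B := by
  have i₀ : Fin p := ⟨0, hp.pos⟩
  -- `B` is commutative
  have hcom : ∀ x ∈ B, ∀ y ∈ B, x * y = y * x := by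
    intro x hx y hy
    by_cases hx1 : x = 1
    · rw [hx1, one_mul, mul_one]
    · rw [PE_gen hp hcB hx hx1] at hy
      obtain ⟨k, rfl⟩ := hy
      exact (Commute.refl x).zpow_right k
  intro a ha
  obtain ⟨b, hb, hbi⟩ := hB i₀ (a i₀)
  have h1 : a = b := by
    refine Equiv.ext fun j => ?_
    obtain ⟨b', hb', rfl⟩ := hB i₀ j
    have h2 : a (b' i₀) = b' (a i₀) := Equiv.congr_fun (hc a ha b' hb').eq i₀
    have h3 : b (b' i₀) = b' (b i₀) := Equiv.congr_fun (hcom b hb b' hb') i₀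
    rw [h2, h3, hbi]
  rw [h1]
  exact hb

/-- **Module PE.** Commuting transitive groups of prime degree are equal, and each element except `1`
is transitive.

PROOF.  Let `A`, `B` be the two groups, `0` a point.
(1) An element `g ∈ A` with a fixed point `i` is `1`: `j = b i` with `b ∈ B`, `g j = g b i = b g i =
b i = j`.  So `A → Fin p`, `g ↦ g 0`, is bijective and `A` has `p` elements; the same for `B`.
(2) For `g ∈ A`, `g ≠ 1`: `Subgroup.zpowers g ≤ A` has order dividing `p`, not `1`, so it is `A`; so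
for `i, j` some `g ^ k` with `k : ℤ` maps `i` to `j`, and `k` can be taken in `ℕ` (finite order).
(3) `A` is commutative (cyclic).  For `b ∈ B` let `a ∈ A` with `a 0 = b 0`.  For `j = a' 0`,
`a' ∈ A`: `b j = b a' 0 = a' b 0 = a' a 0 = a a' 0 = a j`.  So `b = a ∈ A`; `B ≤ A`, and by
symmetry `A ≤ B`. -/
theorem comm_trans {p : ℕ} (hp : p.Prime) {A B : Subgroup (Equiv.Perm (Fin p))}
    (hA : ∀ i j, ∃ g ∈ A, g i = j) (hB : ∀ i j, ∃ g ∈ B, g i = j)
    (hc : ∀ g ∈ A, ∀ h ∈ B, Commute g h) :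
    A = B ∧ ∀ g ∈ A, g ≠ 1 → (∀ i j, ∃ k : ℕ, (g ^ k) i = j) ∧ A = Subgroup.zpowers g := by
  have hcB := PE_card hp hA hB hc
  have hcA := PE_card hp hB hA (fun g hg h hh => (hc h hh g hg).symm)
  have h1 : ∀ g ∈ A, g ≠ 1 → A = Subgroup.zpowers g := fun g hg hg1 => PE_gen hp hcA hg hg1
  refine ⟨le_antisymm (PE_le hp hB hc hcB) ?_, fun g hg hg1 => ⟨?_, h1 g hg hg1⟩⟩
  · exact PE_le hp hA (fun g hg h hh => (hc h hh g hg).symm) hcA
  · intro i j
    obtain ⟨f, hf, hfi⟩ := hA i j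
    rw [h1 g hg hg1] at hf
    obtain ⟨k, hk⟩ := (Submonoid.mem_powers_iff _ _).1
      ((mem_powers_iff_mem_zpowers (x := g) (y := f)).2 hf)
    exact ⟨k, by rw [hk]; exact hfi⟩

variable {n : ℕ} {p : ℕ} {σ : Fin n → Fin n → Equiv.Perm (Fin p)}

private theorem PF_comm {G : Type*} [Group G] {S T : Set G}
    (h : ∀ x ∈ S, ∀ y ∈ T, Commute x y) {g k : G} (hg : g ∈ Subgroup.closure S)
    (hk : k ∈ Subgroup.closure T) : Commute g k := by
  have h1 : Subgroup.closure T ≤ Subgroup.centralizer S := (Subgroup.closure_le _).2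
    fun y hy => Subgroup.mem_centralizer_iff.2 fun x hx => (h x hx y hy).eq
  have h2 : Subgroup.closure S ≤ Subgroup.centralizer (Subgroup.closure T : Set G) :=
    (Subgroup.closure_le _).2 fun x hx => Subgroup.mem_centralizer_iff.2
      fun y hy => (Subgroup.mem_centralizer_iff.1 (h1 hy) x hx).symm
  exact (Subgroup.mem_centralizer_iff.1 (h2 hg) k hk).symm

/-- **Module PF.** If `σ u v = 1` then the groups of the strands `u` and `v` are equal.

PROOF.  `comm_trans` for `A = Ug σ u`, `B = Ug σ v`.  They commute: on generators `σ u i` (`i ≠ u`)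
and `σ v j` (`j ≠ v`): if `j = u`: `σ v u = σ u v = 1`.  Otherwise `h.conj` (`.2` with `s := u`,
`k := v`, `l := j`, `j := i`): `Commute (σ u v) (σ u j)` holds as `σ u v = 1`, so
`Commute (σ v j) (σ u i)`.  Extend to the closures (`Subgroup.closure_induction` twice). -/
theorem ug_eq (h : PB σ) (hp : p.Prime) (ht : ∀ x i j, ∃ g ∈ Ug σ x, g i = j) {u v : Fin n}
    (huv : u ≠ v) (h1 : σ u v = 1) :
    Ug σ u = Ug σ v ∧ ∀ g ∈ Ug σ u, g ≠ 1 →
      (∀ i j, ∃ k : ℕ, (g ^ k) i = j) ∧ Ug σ u = Subgroup.zpowers g := by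
  refine comm_trans hp (ht u) (ht v) ?_
  intro g hg k hk
  refine PF_comm ?_ hg hk
  rintro f ⟨i, hi, rfl⟩ f' ⟨j, hj, rfl⟩
  by_cases hju : j = u
  · rw [hju, h.symm v u, h1]
    exact Commute.one_right _
  · exact ((h.conj huv (Ne.symm hju) (Ne.symm hj) hi).2 (by rw [h1]; exact Commute.one_left _)).symm

/-- **Module PG.** All strands have the same group.

PROOF.  Fix `s₀ ∈ S` and `e₀` outside.  By `ug_eq` `Ug σ s = Ug σ e` for all `s ∈ S`, `e ∉ S`,
`e ≠ u, v` (as `σ e s = 1`, `h.symm`), so all of them are equal to `C' = Ug σ s₀` (a strand `s ∈ S`: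
`= Ug σ e₀ = Ug σ s₀`; a strand `e`: `= Ug σ s₀`), and each `g ∈ C'`, `g ≠ 1` is transitive
and generates `C'`.  `C = Ug σ u = Ug σ v` by `ug_eq` (`σ u v = 1`), generated by each `g ≠ 1`.
`C` is not trivial (transitive on `p ≥ 2` points), so some generator `σ u j ≠ 1`, `j ≠ u`; `j ≠ v`
because `σ u v = 1`.  `σ u j ∈ Ug σ u ∩ Ug σ j` (`h.symm`), and `Ug σ j = C'`.  So `C = C'`
(both are `Subgroup.zpowers (σ u j)`).  The second part: `ug_eq` for the pair `u, v`. -/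
theorem ug_all (h : PB σ) (hp : p.Prime) (ht : ∀ x i j, ∃ g ∈ Ug σ x, g i = j)
    {u v : Fin n} {S : Set (Fin n)} (huv : u ≠ v) (huS : u ∉ S) (hvS : v ∉ S)
    (hS : S.Nonempty) (hR : ∃ e, e ≠ u ∧ e ≠ v ∧ e ∉ S) (h1 : σ u v = 1)
    (h2 : ∀ s ∈ S, ∀ e, e ≠ u → e ≠ v → e ∉ S → σ e s = 1) :
    (∀ x y, Ug σ x = Ug σ y) ∧ ∀ x, ∀ g ∈ Ug σ x, g ≠ 1 → ∀ i j, ∃ k : ℕ, (g ^ k) i = j := by
  have hbad : ∀ s : Fin n, (∀ j, j ≠ s → σ s j = 1) → False := by
    intro s hs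
    obtain ⟨g, hg, hgij⟩ := ht s ⟨0, hp.pos⟩ ⟨1, hp.one_lt⟩
    have hle : Ug σ s ≤ ⊥ := by
      refine (Subgroup.closure_le _).mpr ?_
      rintro f ⟨j, hj, rfl⟩
      rw [hs j hj]
      exact one_mem _
    have hg1 : g = 1 := Subgroup.mem_bot.mp (hle hg)
    rw [hg1, Equiv.Perm.one_apply] at hgij
    exact absurd (congrArg Fin.val hgij) (by simp)
  obtain ⟨s₀, hs₀⟩ := hS
  obtain ⟨e₀, heu, hev, heS⟩ := hR
  have hne : ∀ s ∈ S, ∀ e, e ∉ S → e ≠ s := fun s hs e he h' => he (h' ▸ hs)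
  have hpair : ∀ s ∈ S, ∀ e, e ≠ u → e ≠ v → e ∉ S → Ug σ e = Ug σ s := fun s hs e h3 h4 h5 =>
    (ug_eq h hp ht (hne s hs e h5) (h2 s hs e h3 h4 h5)).1
  have huvE := ug_eq h hp ht huv h1
  have hesE := ug_eq h hp ht (hne s₀ hs₀ e₀ heS) (h2 s₀ hs₀ e₀ heu hev heS)
  -- all strands besides u and v
  have hother : ∀ x, x ≠ u → x ≠ v → Ug σ x = Ug σ e₀ := by
    intro x hxu hxv
    by_cases hx : x ∈ S
    · exact (hpair x hx e₀ heu hev heS).symm
    · rw [hpair s₀ hs₀ x hxu hxv hx, hesE.1]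
  -- the strand u
  have hu : Ug σ u = Ug σ e₀ := by
    obtain ⟨j, hj, hj1⟩ : ∃ j, j ≠ u ∧ σ u j ≠ 1 := by
      by_contra hcon
      push Not at hcon
      exact hbad u hcon
    have hjv : j ≠ v := fun h' => hj1 (h' ▸ h1)
    have hmem : σ u j ∈ Ug σ u := mem_Ug hj
    have hmem' : σ u j ∈ Ug σ e₀ := by
      rw [← hother j hj hjv, h.symm u j]
      exact mem_Ug hj.symm
    rw [(huvE.2 _ hmem hj1).2, (hesE.2 _ hmem' hj1).2]
  have hv : Ug σ v = Ug σ e₀ := by rw [← huvE.1, hu]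
  have hallx : ∀ x, Ug σ x = Ug σ e₀ := by
    intro x
    by_cases hxu : x = u
    · rw [hxu, hu]
    by_cases hxv : x = v
    · rw [hxv, hv]
    exact hother x hxu hxv
  refine ⟨fun x y => by rw [hallx x, hallx y], fun x g hg hg1 => ?_⟩
  rw [hallx x] at hg
  exact (hesE.2 g hg hg1).1

/-- **Module PH.** Conclusion on the permutations.

PROOF.  Suppose it holds.  By `hcard` (`5 ≤ n`) there is a strand besides `u`, `v`, one `s₀ ∈ S` and
one `e₀ ∉ S`; so `S` has a second element or the complement of `S ∪ {u, v}` has.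
Case `s' ∈ S`, `s' ≠ s₀`: all `σ s' j = 1`, `j ≠ s'`: if `j ≠ u, v`: `h3` (`s' ≠ u, v`); if `j = u`
or `v`: `h4` for the pair `e₀, s₀`: `s'` and `j` are different from `e₀` and `s₀`.  So
`Ug σ s' = ⊥` (`Subgroup.closure_le`), but it is transitive on `p ≥ 2` points: contradiction.
Case `e' ∉ S`, `e' ≠ u, v, e₀`: the same with `e'`, and `h4` for the pair `e₀, s₀`. -/
theorem perm_final (hp : p.Prime) (ht : ∀ x i j, ∃ g ∈ Ug σ x, g i = j) (hn : 5 ≤ n)
    {u v : Fin n} {S : Set (Fin n)} (huv : u ≠ v) (huS : u ∉ S) (hvS : v ∉ S)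
    (hS : S.Nonempty) (hR : ∃ e, e ≠ u ∧ e ≠ v ∧ e ∉ S)
    (h3 : ∀ x y, x ≠ y → x ≠ u → x ≠ v → y ≠ u → y ≠ v → σ x y = 1)
    (h4 : ∀ s ∈ S, ∀ e, e ≠ u → e ≠ v → e ∉ S →
      ∀ x y, x ≠ y → x ≠ e → x ≠ s → y ≠ e → y ≠ s → σ x y = 1) : False := by
  have hbad : ∀ s : Fin n, (∀ j, j ≠ s → σ s j = 1) → False := by
    intro s hs
    obtain ⟨g, hg, hgij⟩ := ht s ⟨0, hp.pos⟩ ⟨1, hp.one_lt⟩
    have hle : Ug σ s ≤ ⊥ := by
      refine (Subgroup.closure_le _).mpr ?_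
      rintro f ⟨j, hj, rfl⟩
      rw [hs j hj]
      exact one_mem _
    have hg1 : g = 1 := Subgroup.mem_bot.mp (hle hg)
    rw [hg1, Equiv.Perm.one_apply] at hgij
    exact absurd (congrArg Fin.val hgij) (by simp)
  obtain ⟨s₀, hs₀⟩ := hS
  obtain ⟨e₀, heu, hev, heS⟩ := hR
  obtain ⟨f, hf⟩ : ∃ f, f ∉ ({u, v, s₀, e₀} : Finset (Fin n)) := by
    by_contra hcon
    push Not at hcon
    have h1 : (Finset.univ : Finset (Fin n)) ⊆ {u, v, s₀, e₀} := fun x _ => hcon x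
    have h2 := Finset.card_le_card h1
    have h3 := Finset.card_le_four (a := u) (b := v) (c := s₀) (d := e₀)
    rw [Finset.card_univ, Fintype.card_fin] at h2
    omega
  simp only [Finset.mem_insert, Finset.mem_singleton, not_or] at hf
  obtain ⟨hfu, hfv, hfs, hfe⟩ := hf
  have hus : u ≠ s₀ := fun h' => huS (h' ▸ hs₀)
  have hvs : v ≠ s₀ := fun h' => hvS (h' ▸ hs₀)
  refine hbad f fun j hj => ?_
  by_cases hju : j = u
  · rw [hju]
    exact h4 s₀ hs₀ e₀ heu hev heS f u hfu hfe hfs heu.symm hus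
  by_cases hjv : j = v
  · rw [hjv]
    exact h4 s₀ hs₀ e₀ heu hev heS f v hfv hfe hfs hev.symm hvs
  exact h3 f j hj.symm hfu hfv hju hjv

end perm

section main
variable {n : ℕ} {V : Type*} [AddCommGroup V] [Module ℂ V] {a : Fin n → Fin n → (V ≃ₗ[ℂ] V)}

/-- **Module PI.** Disjoint chords: a conjugate of `a x y` commutes with `a u v`.

PROOF.  WLOG `u < v` (`h.symm`).  If `x` and `y` are on the same side of the chord `u, v`
(`(u < x ∧ x < v) ↔ (u < y ∧ y < v)`), `g = 1`: `h.disj`.  Otherwise, WLOG (`h.symm x y`)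
`u < x < v` and not `u < y < v`: `cross_in h` (`k := u`, `l := v`, `s := x`, `j := y`):
`Commute (a u v) (a x v * a x y * (a x v)⁻¹)`, `g = a x v ∈ Hg a`. -/
theorem exists_conj_comm {G : Type*} [Group G] {a : Fin n → Fin n → G} (h : PB a)
    {u v x y : Fin n} (huv : u ≠ v) (hxy : x ≠ y) (hxu : x ≠ u) (hxv : x ≠ v) (hyu : y ≠ u)
    (hyv : y ≠ v) : ∃ g ∈ Hg a, Commute (a u v) (g * a x y * g⁻¹) := by
  wlog huv' : u < v generalizing u v
  · obtain ⟨g, hg, h1⟩ := this huv.symm hxv hxu hyv hyu (lt_of_le_of_ne (not_lt.mp huv') huv.symm)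
    rw [h.symm v u] at h1
    exact ⟨g, hg, h1⟩
  by_cases hside : (u < x ∧ x < v) ↔ (u < y ∧ y < v)
  · refine ⟨1, one_mem _, ?_⟩
    have h1 := h.disj hxu hxv huv' hxy.symm hyu hyv hside
    rw [one_mul, inv_one, mul_one]
    exact h1
  · by_cases hx : u < x ∧ x < v
    · have hy : ¬ (u < y ∧ y < v) := fun h' => hside ⟨fun _ => h', fun _ => hx⟩
      exact ⟨a x v, mem_Hg hxv, cross_in h hx hyu hyv hy⟩
    · have hy : u < y ∧ y < v := by
        by_contra hy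
        exact hside ⟨fun h' => absurd h' hx, fun h' => absurd h' hy⟩
      have h1 := cross_in h hy hxu hxv hx
      rw [h.symm y x] at h1
      exact ⟨a y v, mem_Hg hyv, h1⟩

/-- **Module PJ.** Prime rank.

PROOF.  Suppose the family splits: `x ≠ y` (write `u, v` for them), `S`, with
`hall : ∀ s ∈ S, ∀ e (outside), ∀ g ∈ Hg a, Commute (a u v) (g * a e s * g⁻¹)`.
(1) `SchurP a` (`schurP_of_prime`), so no `a i j`, `i ≠ j` is central (`not_cen`).
(2) `clif_lines` with `H = Hg a`, `t = a u v`, `y = a e₀ s₀`: the hypothesis is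
`Commute (a e₀ s₀) (g * a u v * g⁻¹)`, which is `hall` for `g⁻¹`, conjugated by `g`.  `hirr` for
`Hg a` from `IrrF a`.  Get `b`, `π`.
(3) Let `â i j : Hg a` be `⟨a i j, _⟩` for `i ≠ j` and `1` for `i = j`; `PB â` (each relation from
`h`, `Subtype.ext`); `σ i j = π (â i j)`; `PB σ` by `PB.map`.
(4) `ht`: for each strand `x`, `Ug σ x` is transitive: `mono_trans` with `K = Ug â x`: a subspace
stable under `K` is stable under all `a x j` (`InvS a x W`), so `irr_strand`; `π` maps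
`Ug â x` into `Ug σ x`.
(5) `σ u v = 1`: `a u v` (`= 1 * a u v * 1⁻¹`) is diagonal, and `π h ω = ω` follows from
`h.1 (b ω) = c • b (π h ω)` and `= c' • b ω`, `c' ≠ 0` (linear independence of the basis).
`σ e s = 1` for `s ∈ S`, `e` outside: `a e s` commutes with all `g * a u v * g⁻¹` (as in (2)), so
it is diagonal.
(6) `ug_all`: all `Ug σ x` are equal, and each element `≠ 1` in them is transitive.
(7) For `x ≠ y` different from `u`, `v`: `σ x y = 1`.  Otherwise take `g` of `exists_conj_comm`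
(`g ∈ Hg a`); the permutation of `g * a x y * g⁻¹` is a conjugate of `σ x y`, `≠ 1`, and in `Ug σ x`:
`g * a x y * g⁻¹ ∈ Ug a x` by `ug_norm`; or on the level of `σ`: `ug_norm` for `σ`, as
`π g ∈ Hg σ`.  So it is transitive, and `a u v` is diagonal (5) and commutes with
`g * a x y * g⁻¹`: `diag_cen` gives that `a u v` is central: contradiction with (1).
(8) In the same way for each `s ∈ S`, `e` outside and `x ≠ y` different from `e`, `s`: `σ x y = 1`
(`a e s` is diagonal and not central).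
(9) `perm_final`. -/
theorem noSplit_prime [FiniteDimensional ℂ V] (h : PB a) (hirr : IrrF a)
    (hp : (finrank ℂ V).Prime) (hact : ∀ s, Act a s) (hn : 5 ≤ n) : NoSplit a := by
  classical
  have hnt : Nontrivial V := Module.nontrivial_of_finrank_pos (R := ℂ) hp.pos
  intro u v S huv huS hvS hS hR hall
  obtain ⟨s₀, hs₀⟩ := hS
  obtain ⟨e₀, heu, hev, heS⟩ := hR
  have hSch := schurP_of_prime h hirr hp
  have hnc : ∀ x y, x ≠ y → ¬ Cen (a x y) := fun x y hxy => not_cen h hSch (hact _) (hact _) hxy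
  have hne : ∀ s ∈ S, ∀ e, e ∉ S → e ≠ s := fun s hs e he h' => he (h' ▸ hs)
  have hall' : ∀ s ∈ S, ∀ e, e ≠ u → e ≠ v → e ∉ S → ∀ g ∈ Hg a,
      Commute (a e s) (g * a u v * g⁻¹) := by
    intro s hs e h1 h2 h3 g hg
    have h4 := (hall s hs e h1 h2 h3 g⁻¹ (inv_mem hg)).eq
    rw [inv_inv] at h4
    show a e s * (g * a u v * g⁻¹) = g * a u v * g⁻¹ * a e s
    calc a e s * (g * a u v * g⁻¹) = g * ((g⁻¹ * a e s * g) * a u v) * g⁻¹ := by group
      _ = g * (a u v * (g⁻¹ * a e s * g)) * g⁻¹ := by rw [h4]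
      _ = _ := by group
  have hirrH : ∀ W : Submodule ℂ V, (∀ f ∈ Hg a, ∀ x ∈ W, f x ∈ W) → W = ⊥ ∨ W = ⊤ :=
    fun W hW => hirr W fun i j hij x hx => hW _ (mem_Hg hij) x hx
  obtain ⟨b, π, hπ, hdiag, hlines⟩ := clif_lines hp (Hg a) hirrH (hnc u v huv)
    (hnc e₀ s₀ (hne s₀ hs₀ e₀ heS)) (hall' s₀ hs₀ e₀ heu hev heS)
  -- the family in the subgroup
  obtain ⟨B, hB⟩ : ∃ B : Fin n → Fin n → Hg a, ∀ i j (hij : i ≠ j), B i j = ⟨a i j, mem_Hg hij⟩ :=
    ⟨fun i j => if hij : i = j then 1 else ⟨a i j, mem_Hg hij⟩, fun i j hij => dif_neg hij⟩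
  have hBv : ∀ i j, i ≠ j → ((B i j : Hg a) : V ≃ₗ[ℂ] V) = a i j := fun i j hij => by rw [hB i j hij]
  have hcomm : ∀ x y : Hg a, Commute (x : V ≃ₗ[ℂ] V) (y : V ≃ₗ[ℂ] V) → Commute x y :=
    fun x y hxy => Subtype.ext hxy
  have hPB : PB B := by
    refine ⟨?_, ?_, ?_, ?_, ?_, ?_⟩
    · intro i j
      by_cases hij : i = j
      · rw [hij]
      · apply Subtype.ext
        rw [hBv i j hij, hBv j i (Ne.symm hij), h.symm]
    · intro i j k h1 h2
      apply hcomm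
      rw [Subgroup.coe_mul, Subgroup.coe_mul, hBv i j h1.ne, hBv i k (h1.trans h2).ne, hBv j k h2.ne]
      exact h.t1 i j k h1 h2
    · intro i j k h1 h2
      apply hcomm
      rw [Subgroup.coe_mul, Subgroup.coe_mul, hBv i j h1.ne, hBv i k (h1.trans h2).ne, hBv j k h2.ne]
      exact h.t2 i j k h1 h2
    · intro i j k l h1 h2 h3
      apply hcomm
      rw [hBv i j h1.ne, hBv k l h3.ne]
      exact h.q1 i j k l h1 h2 h3
    · intro i j k l h1 h2 h3
      apply hcomm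
      rw [hBv i l (h1.trans (h2.trans h3)).ne, hBv j k h2.ne]
      exact h.q2 i j k l h1 h2 h3
    · intro i j k l h1 h2 h3
      apply hcomm
      rw [Subgroup.coe_mul, Subgroup.coe_mul, Subgroup.coe_inv, hBv k l h3.ne, hBv i k (h1.trans h2).ne,
        hBv j l (h2.trans h3).ne]
      exact h.q3 i j k l h1 h2 h3
  obtain ⟨σ, hσ⟩ : ∃ σ : Fin n → Fin n → Equiv.Perm (Fin (finrank ℂ V)),
    σ = fun i j => π (B i j) := ⟨_, rfl⟩
  have hσB : ∀ i j, σ i j = π (B i j) := fun i j => by rw [hσ]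
  have hPσ : PB σ := by
    rw [hσ]
    refine ⟨?_, ?_, ?_, ?_, ?_, ?_⟩
    · intro i j
      show π (B i j) = π (B j i)
      rw [hPB.symm i j]
    · intro i j k h1 h2
      have h3 := (hPB.t1 i j k h1 h2).map π
      rw [map_mul, map_mul] at h3
      exact h3
    · intro i j k h1 h2
      have h3 := (hPB.t2 i j k h1 h2).map π
      rw [map_mul, map_mul] at h3
      exact h3
    · intro i j k l h1 h2 h3
      exact (hPB.q1 i j k l h1 h2 h3).map π
    · intro i j k l h1 h2 h3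
      exact (hPB.q2 i j k l h1 h2 h3).map π
    · intro i j k l h1 h2 h3
      have h4 := (hPB.q3 i j k l h1 h2 h3).map π
      rw [map_mul, map_mul, map_inv] at h4
      exact h4
  -- transitivity
  have hmapU : ∀ x, ∀ g ∈ Ug B x, π g ∈ Ug σ x := by
    intro x g hg
    induction hg using Subgroup.closure_induction with
    | mem f hf =>
      obtain ⟨j, hj, rfl⟩ := hf
      rw [← hσB]
      exact mem_Ug hj
    | one => rw [map_one]; exact one_mem _
    | mul f g _ _ hf hg => rw [map_mul]; exact mul_mem hf hg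
    | inv f _ hf => rw [map_inv]; exact inv_mem hf
  have ht : ∀ x i j, ∃ g ∈ Ug σ x, g i = j := by
    intro x i j
    obtain ⟨g, hg, hgij⟩ := mono_trans b π hπ (Ug B x) (by
      intro W hW
      refine irr_strand h hirr hp (hact x) W fun j hj y hy => ?_
      have h1 := hW _ (mem_Ug (a := B) hj) y hy
      rwa [hBv x j hj.symm] at h1) i j
    exact ⟨π g, hmapU x g hg, hgij⟩
  have hmapH : ∀ g (hg : g ∈ Hg a), π ⟨g, hg⟩ ∈ Hg σ := by
    intro g hg
    induction hg using Subgroup.closure_induction with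
    | mem f hf =>
      obtain ⟨i, j, hij, rfl⟩ := hf
      have h1 : σ i j ∈ Hg σ := mem_Hg hij
      rw [hσB, hB i j hij] at h1
      exact h1
    | one =>
      have h1 : π (1 : Hg a) = 1 := map_one π
      have h2 : π (⟨1, one_mem _⟩ : Hg a) = 1 := h1
      rw [h2]
      exact one_mem _
    | mul f g hf hg hf' hg' =>
      have h1 : π (⟨f * g, mul_mem hf hg⟩ : Hg a) = π ⟨f, hf⟩ * π ⟨g, hg⟩ := by
        rw [← map_mul]
        rfl
      rw [h1]
      exact mul_mem hf' hg'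
    | inv f hf hf' =>
      have h1 : π (⟨f⁻¹, inv_mem hf⟩ : Hg a) = (π ⟨f, hf⟩)⁻¹ := by
        rw [← map_inv]
        rfl
      rw [h1]
      exact inv_mem hf'
  -- diagonal elements
  have hdiag1 : ∀ z : Hg a, (∀ ω, ∃ c : ℂ, (z : V ≃ₗ[ℂ] V) (b ω) = c • b ω) → π z = 1 := by
    intro z hz
    refine Equiv.ext fun ω => ?_
    rw [Equiv.Perm.one_apply]
    by_contra hne'
    obtain ⟨c, hc⟩ := hz ω
    obtain ⟨c', hc'⟩ := hπ z ω
    have h1 : c • b ω = c' • b (π z ω) := hc.symm.trans hc'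
    have h2 := congrArg (fun x => b.repr x (π z ω)) h1
    simp only [map_smul, Finsupp.smul_apply, Basis.repr_self, smul_eq_mul] at h2
    rw [Finsupp.single_eq_of_ne hne', Finsupp.single_eq_same, mul_zero, mul_one] at h2
    rw [← h2, zero_smul] at hc'
    have h3 : (z : V ≃ₗ[ℂ] V) (b ω) = (z : V ≃ₗ[ℂ] V) 0 := by rw [map_zero]; exact hc'
    exact b.ne_zero ω ((z : V ≃ₗ[ℂ] V).injective h3)
  have hduv : ∀ ω, ∃ c : ℂ, (a u v) (b ω) = c • b ω := by
    intro ω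
    obtain ⟨c, hc⟩ := hlines 1 (one_mem _) ω
    rw [one_mul, inv_one, mul_one] at hc
    exact ⟨c, hc⟩
  have hdes : ∀ s ∈ S, ∀ e, e ≠ u → e ≠ v → e ∉ S → ∀ ω, ∃ c : ℂ, (a e s) (b ω) = c • b ω :=
    fun s hs e h1 h2 h3 => hdiag (a e s) (hall' s hs e h1 h2 h3)
  have hσuv : σ u v = 1 := by
    rw [hσB]
    apply hdiag1
    rw [hBv u v huv]
    exact hduv
  have hσes : ∀ s ∈ S, ∀ e, e ≠ u → e ≠ v → e ∉ S → σ e s = 1 := by
    intro s hs e h1 h2 h3
    rw [hσB]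
    apply hdiag1
    rw [hBv e s (hne s hs e h3)]
    exact hdes s hs e h1 h2 h3
  obtain ⟨-, htrans⟩ := ug_all hPσ hp ht huv huS hvS ⟨s₀, hs₀⟩ ⟨e₀, heu, hev, heS⟩ hσuv hσes
  -- the chords disjoint from a diagonal chord
  have hchord : ∀ c d, c ≠ d → (∀ ω, ∃ r : ℂ, (a c d) (b ω) = r • b ω) →
      ∀ x y, x ≠ y → x ≠ c → x ≠ d → y ≠ c → y ≠ d → σ x y = 1 := by
    intro c d hcd hz x y hxy hxc hxd hyc hyd
    by_contra hne'
    obtain ⟨g, hg, hcg⟩ := exists_conj_comm h hcd hxy hxc hxd hyc hyd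
    have hw : π (⟨g, hg⟩ * B x y * (⟨g, hg⟩ : Hg a)⁻¹) = π ⟨g, hg⟩ * σ x y * (π ⟨g, hg⟩)⁻¹ := by
      rw [map_mul, map_mul, map_inv, hσB]
    have hw1 : π ⟨g, hg⟩ * σ x y * (π ⟨g, hg⟩)⁻¹ ≠ 1 := by
      intro h1
      apply hne'
      have h2 : σ x y = (π ⟨g, hg⟩)⁻¹ * (π ⟨g, hg⟩ * σ x y * (π ⟨g, hg⟩)⁻¹) * π ⟨g, hg⟩ := by group
      rw [h2, h1, mul_one, inv_mul_cancel]
    have hw2 : π ⟨g, hg⟩ * σ x y * (π ⟨g, hg⟩)⁻¹ ∈ Ug σ x :=
      ug_norm hPσ (hmapH g hg) (mem_Ug hxy.symm)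
    have h3 := htrans x _ hw2 hw1
    rw [← hw] at h3
    refine hnc c d hcd (diag_cen b π hπ hz h3 ?_)
    rw [Subgroup.coe_mul, Subgroup.coe_mul, Subgroup.coe_inv, hBv x y hxy]
    exact hcg
  exact perm_final hp ht hn huv huS hvS ⟨s₀, hs₀⟩ ⟨e₀, heu, hev, heS⟩ (hchord u v huv hduv)
    (fun s hs e h1 h2 h3 x y hxy hxe hxs hye hys =>
      hchord e s (hne s hs e h3) (hdes s hs e h1 h2 h3) x y hxy hxe hxs hye hys)

/-- the conjugates of `a x y` have no common invariant subspace -/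
def IrrConj (a : Fin n → Fin n → (V ≃ₗ[ℂ] V)) (x y : Fin n) : Prop :=
  ∀ W : Submodule ℂ V, (∀ g ∈ Hg a, ∀ v ∈ W, (g * a x y * g⁻¹) v ∈ W) → W = ⊥ ∨ W = ⊤

private theorem HA_schur [FiniteDimensional ℂ V] [Nontrivial V] {p q : Fin n}
    (hI : IrrConj a p q) {T : V ≃ₗ[ℂ] V} (hT : ∀ g ∈ Hg a, Commute T (g * a p q * g⁻¹)) : Cen T := by
  obtain ⟨c, hc⟩ := schur (S := {f | ∃ g ∈ Hg a, f = g * a p q * g⁻¹}) (by
    intro W hW
    exact hI W fun g hg v hv => hW _ ⟨g, hg, rfl⟩ v hv) T (by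
    rintro f ⟨g, hg, rfl⟩
    exact hT g hg)
  exact cen_of_scalar hc

private theorem HA_cen [FiniteDimensional ℂ V] [Nontrivial V] (h : PB a) (Z : Set (Fin n))
    (hH : ∀ x y, x ≠ y → x ∉ Z → y ∉ Z → Cen (a x y) ∨ IrrConj a x y)
    (hact : ∀ s, s ∉ Z → ∃ j, j ≠ s ∧ j ∉ Z ∧ ¬ Cen (a s j)) {s : Fin n} (hs : s ∉ Z)
    {T : V ≃ₗ[ℂ] V} (hT : ∀ j, j ≠ s → Commute T (a s j)) : Cen T := by
  obtain ⟨j, hj, hjZ, hnc⟩ := hact s hs
  have hI : IrrConj a s j := (hH s j hj.symm hs hjZ).resolve_left hnc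
  have hU : ∀ u ∈ Ug a s, Commute T u := by
    intro u hu
    induction hu using Subgroup.closure_induction with
    | mem x hx =>
        obtain ⟨i, hi, rfl⟩ := hx
        exact hT i hi
    | one => exact Commute.one_right T
    | mul x y _ _ hx hy => exact hx.mul_right hy
    | inv x _ hx => exact hx.inv_right
  exact HA_schur hI fun g hg => hU _ (ug_norm h hg (mem_Ug hj))

/-- **Module HA.** No generator is central.

PROOF.  (1) For `s ∉ Z` and `T` which commutes with all `a s j`, `j ≠ s`: `T` is central: take `j`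
from `hact s`, `a s j` is not central, so `IrrConj a s j` (`hH`); `T` commutes with `Ug a s`, so
with all `g * a s j * g⁻¹` (`ug_norm`: they are in `Ug a s`); `schur` and `cen_of_scalar`.
(2) For `k ∉ Z`, `l ≠ k`: `a k l` is not central: there is `j ≠ l` with `¬ Cen (a l j)` (`hact l` or
`hZ l`: `Act a l`).  If `j = k`: `h.symm`.  Otherwise if `a k l` is central,
`Commute (a k l) (a k j)`, so (`h.conj`, `.2`, `s := k`) `Commute (a l j) (a k i)` for all
`i ≠ k`, so `Cen (a l j)` by (1): contradiction.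
(3) `x ≠ y`: one of them is not in `Z` (`hZ1`), use (2) and `h.symm`. -/
theorem nonc_H [FiniteDimensional ℂ V] [Nontrivial V] (h : PB a) (Z : Set (Fin n))
    (hZ1 : Z.Subsingleton)
    (hH : ∀ x y, x ≠ y → x ∉ Z → y ∉ Z → Cen (a x y) ∨ IrrConj a x y)
    (hact : ∀ s, s ∉ Z → ∃ j, j ≠ s ∧ j ∉ Z ∧ ¬ Cen (a s j)) (hZ : ∀ z ∈ Z, Act a z)
    {x y : Fin n} (hxy : x ≠ y) : ¬ Cen (a x y) := by
  have h2 : ∀ k l : Fin n, k ∉ Z → l ≠ k → ¬ Cen (a k l) := by
    intro k l hk hlk hcen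
    have hex : ∃ j, j ≠ l ∧ ¬ Cen (a l j) := by
      by_cases hl : l ∈ Z
      · exact hZ l hl
      · obtain ⟨j, hj, _, hc⟩ := hact l hl
        exact ⟨j, hj, hc⟩
    obtain ⟨j, hjl, hnc⟩ := hex
    by_cases hjk : j = k
    · subst hjk
      rw [h.symm l j] at hnc
      exact hnc hcen
    · apply hnc
      apply HA_cen h Z hH hact hk
      intro i hi
      exact (h.conj (Ne.symm hlk) (Ne.symm hjk) (Ne.symm hjl) hi).2 (hcen _)
  intro hcen
  by_cases hx : x ∈ Z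
  · have hy : y ∉ Z := fun hy => hxy (hZ1 hx hy)
    rw [h.symm x y] at hcen
    exact h2 y x hy hxy hcen
  · exact h2 x y hx hxy.symm hcen

/-- **Module HB.** The family does not split if the conjugates of each generator act irreducibly.

PROOF.  Suppose it splits, `u ≠ v`, `S`, with `hall`.
(i) Suppose there are `s ∈ S`, `e` outside with `s, e ∉ Z`: `IrrConj a e s` (`hH`, `nonc_H`), and
`a u v` commutes with all `g * a e s * g⁻¹`, so it is a scalar (`schur`, `cen_of_scalar`), against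
`nonc_H`.
(ii) Otherwise `S = Z = {z}` or the complement of `S ∪ {u, v}` is `Z = {z}` (if some `s ∈ S` is
not in `Z` then all `e` outside are in `Z`; there is at least one); in both cases `u, v ∉ Z`.  So
`IrrConj a u v`, and for one `s ∈ S`, `e` outside `a e s` commutes with all `g * a u v * g⁻¹`
(`hall` for `g⁻¹`, conjugated by `g`), so it is central, against `nonc_H`. -/
theorem noSplit_H [FiniteDimensional ℂ V] [Nontrivial V] (h : PB a) (Z : Set (Fin n))
    (hZ1 : Z.Subsingleton)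
    (hH : ∀ x y, x ≠ y → x ∉ Z → y ∉ Z → Cen (a x y) ∨ IrrConj a x y)
    (hact : ∀ s, s ∉ Z → ∃ j, j ≠ s ∧ j ∉ Z ∧ ¬ Cen (a s j)) (hZ : ∀ z ∈ Z, Act a z) :
    NoSplit a := by
  have hn : ∀ x y : Fin n, x ≠ y → ¬ Cen (a x y) := fun x y hxy =>
    nonc_H h Z hZ1 hH hact hZ hxy
  intro u v S huv huS hvS hSne hout hall
  obtain ⟨s0, hs0⟩ := hSne
  obtain ⟨e0, he0u, he0v, he0S⟩ := hout
  have hne : e0 ≠ s0 := fun he => he0S (he ▸ hs0)
  by_cases hZs : s0 ∉ Z ∧ e0 ∉ Z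
  · have hI : IrrConj a e0 s0 := (hH e0 s0 hne hZs.2 hZs.1).resolve_left (hn e0 s0 hne)
    exact hn u v huv (HA_schur hI fun g hg => hall s0 hs0 e0 he0u he0v he0S g hg)
  · have hz : ∃ z ∈ Z, z ≠ u ∧ z ≠ v := by
      by_cases h1 : s0 ∈ Z
      · exact ⟨s0, h1, fun he => huS (he ▸ hs0), fun he => hvS (he ▸ hs0)⟩
      · have h2 : e0 ∈ Z := by
          by_contra h3
          exact hZs ⟨h1, h3⟩
        exact ⟨e0, h2, he0u, he0v⟩
    obtain ⟨z, hzZ, hzu, hzv⟩ := hz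
    have huZ : u ∉ Z := fun hu => hzu (hZ1 hzZ hu)
    have hvZ : v ∉ Z := fun hv => hzv (hZ1 hzZ hv)
    have hI : IrrConj a u v := (hH u v huv huZ hvZ).resolve_left (hn u v huv)
    apply hn e0 s0 hne
    apply HA_schur hI
    intro g hg
    have h1 := hall s0 hs0 e0 he0u he0v he0S g⁻¹ (inv_mem hg)
    rw [inv_inv] at h1
    have h2 : g * a u v * g⁻¹ * a e0 s0 = g * (a u v * (g⁻¹ * a e0 s0 * g)) * g⁻¹ := by group
    have h3 : a e0 s0 * (g * a u v * g⁻¹) = g * ((g⁻¹ * a e0 s0 * g) * a u v) * g⁻¹ := by group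
    show a e0 s0 * (g * a u v * g⁻¹) = g * a u v * g⁻¹ * a e0 s0
    rw [h2, h3, h1.eq]

end main

end Pool.Agent.PFk
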