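import Pool.Agent.PFk.Asm
import Pool.Agent.PFk.Defs

/-!
# Representations of the pure braid group which come from few points
-/

set_option autoImplicit false

namespace Pool.Agent.PFk

open Pool.Agent.Conf14 hiding IrrF
open Pool.Agent.PB3
open Pool.Agent.Bst88 (big gp gp_ext ext)
open Module

variable {m n : ℕ} {V : Type*} [AddCommGroup V] [Module ℂ V]

theorem big_fam (σ : Representation ℂ (PureBraid m) V) (k : Fin m) :
    big (fam σ) k = toEq σ (Around k) := by
  unfold Around big Pool.Agent.Bst88.pr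
  rw [map_list_prod, List.map_map]
  congr 1
  apply List.map_congr_left
  intro u _
  by_cases hu : u = k
  · rw [if_pos hu, hu, Function.comp_apply]
    have : B k k = 1 := by rw [B, dif_neg (lt_irrefl k), dif_neg (lt_irrefl k)]
    rw [this, map_one]
  · rw [if_neg hu]
    rfl

theorem spherical_of_cen [FiniteDimensional ℂ V] [Nontrivial V]
    (σ : Representation ℂ (PureBraid m) V) (hirr : IrrF (fam σ))
    (h : ∀ k, Cen (big (fam σ) k)) : Spherical σ := by
  intro k
  obtain ⟨c, hc⟩ := schur (S := {f | ∃ i j, i ≠ j ∧ f = fam σ i j}) (by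
    intro U hU
    exact hirr U fun i j hij => hU _ ⟨i, j, hij, rfl⟩) (big (fam σ) k) (fun f _ => h k f)
  refine ⟨c, ?_⟩
  ext x
  have := hc x
  rw [big_fam] at this
  exact this

theorem mem_Hg_fam (σ : Representation ℂ (PureBraid m) V) (g : PureBraid m) :
    toEq σ g ∈ Hg (fam σ) := by
  have hS : (Hg (fam σ)).comap (toEq σ) = ⊤ := by
    apply pb_top
    intro i j hij
    rw [Subgroup.mem_comap, ← B_lt hij]
    exact mem_Hg hij.ne
  have : g ∈ (Hg (fam σ)).comap (toEq σ) := hS ▸ Subgroup.mem_top g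
  exact this

/-- The representation on the active strands. -/
theorem exists_active [FiniteDimensional ℂ V] [Nontrivial V]
    (ρ : Representation ℂ (PureBraid n) V) [ρ.IsIrreducible] :
    ∃ (m : ℕ) (e : Fin m ↪o Fin n) (F : PureBraid n →* PureBraid m)
      (σ : Representation ℂ (PureBraid m) V) (χ : PureBraid n →* ℂˣ),
      IsForgetful e F ∧ (∀ g, ρ g = (χ g : ℂ) • σ (F g)) ∧
      (RootEig ρ → ∃ N : ℕ, 0 < N ∧ ∀ g, χ g ^ N = 1) ∧
      (∀ i j, fam σ i j = fam ρ (e i) (e j)) ∧
      (∀ s, s ∈ Set.range e ↔ Act (fam ρ) s) := by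
  classical
  set T : Finset (Fin n) := Finset.univ.filter (fun s => Act (fam ρ) s) with hT
  have hact : ∀ s, s ∈ T ↔ Act (fam ρ) s := fun s => by rw [hT]; simp
  let e : Fin T.card ↪o Fin n := T.orderEmbOfFin rfl
  have hrange : ∀ s, s ∈ Set.range e ↔ Act (fam ρ) s := by
    intro s
    rw [← hact]
    have : Set.range e = (T : Set (Fin n)) := Finset.range_orderEmbOfFin T rfl
    rw [this, Finset.mem_coe]
  obtain ⟨F, hF⟩ := exists_forgetful e
  obtain ⟨S, hS⟩ := exists_section e
  have hgen : ∀ s t : Fin n, s < t → (∃ i j, i < j ∧ e i = s ∧ e j = t) ∨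
      ¬ (s ∈ Set.range e ∧ t ∈ Set.range e) := by
    intro s t hst
    by_cases h : s ∈ Set.range e ∧ t ∈ Set.range e
    · left
      obtain ⟨⟨i, rfl⟩, ⟨j, rfl⟩⟩ := h
      exact ⟨i, j, e.lt_iff_lt.1 hst, rfl, rfl⟩
    · exact Or.inr h
  have hcen : ∀ g, Cen (toEq ρ g * ((((toEq ρ).comp S).comp F) g)⁻¹) := by
    apply factor_cen
    intro s t hst
    rw [MonoidHom.comp_apply, MonoidHom.comp_apply]
    rcases hgen s t hst with ⟨i, j, hij, rfl, rfl⟩ | h
    · rw [hF.1 i j hij, hS i j hij, mul_inv_cancel]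
      exact Cen.one
    · rw [hF.2 s t hst h, map_one, map_one, inv_one, mul_one, ← B_lt hst]
      have h1 : ¬ (Act (fam ρ) s ∧ Act (fam ρ) t) := fun h' =>
        h ⟨(hrange s).2 h'.1, (hrange t).2 h'.2⟩
      exact cen_of_not_act (fam_pb ρ) hst.ne h1
  obtain ⟨χ, hχ⟩ := exists_chi ρ (((toEq ρ).comp S).comp F) hcen
  have hρ : ∀ g, ρ g = (χ g : ℂ) • (MonoidHom.comp ρ S) (F g) := by
    intro g
    ext x
    exact hχ g x
  have hfam : ∀ i j, fam (MonoidHom.comp ρ S) i j = fam ρ (e i) (e j) := by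
    intro i j
    have e1 : ∀ g, toEq (MonoidHom.comp ρ S) g = toEq ρ (S g) := by
      intro g
      ext x
      rfl
    unfold fam
    rw [e1]
    rcases lt_trichotomy i j with h | h | h
    · rw [B_lt h, B_lt (e.strictMono h), hS i j h]
    · subst h
      have h1 : ∀ {k : ℕ} (u : Fin k), B u u = 1 := fun u => by
        rw [B, dif_neg (lt_irrefl u), dif_neg (lt_irrefl u)]
      rw [h1, h1, map_one]
    · rw [B_gt h, B_gt (e.strictMono h), hS j i h]
  refine ⟨T.card, e, F, MonoidHom.comp ρ S, χ, hF, hρ, fun hroot => ?_, hfam, hrange⟩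
  obtain ⟨u, hu⟩ := exists_ne (0 : V)
  have hfin : ∀ s t (hst : s < t), IsOfFinOrder (χ (A s t hst)) := by
    intro s t hst
    rcases hgen s t hst with ⟨i, j, hij, rfl, rfl⟩ | h
    · have h1 := hχ (A (e i) (e j) hst) u
      have h2 : (((toEq ρ).comp S).comp F) (A (e i) (e j) hst) u =
          ρ (A (e i) (e j) hst) u := by
        rw [MonoidHom.comp_apply, MonoidHom.comp_apply, hF.1 i j hij, hS i j hij]
        rfl
      rw [h2] at h1
      have h3 : ρ (A (e i) (e j) hst) u ≠ 0 := by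
        intro h0
        apply hu
        apply (toEq ρ (A (e i) (e j) hst)).injective
        rw [map_zero]
        exact h0
      have h4 : χ (A (e i) (e j) hst) = 1 := by
        apply Units.ext
        apply smul_left_injective ℂ h3
        show (χ (A (e i) (e j) hst) : ℂ) • ρ (A (e i) (e j) hst) u = ((1 : ℂˣ) : ℂ) •
          ρ (A (e i) (e j) hst) u
        rw [← h1, Units.val_one, one_smul]
      rw [h4]
      exact IsOfFinOrder.one
    · have h1 := hχ (A s t hst) u
      have h2 : (((toEq ρ).comp S).comp F) (A s t hst) u = u := by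
        rw [MonoidHom.comp_apply, hF.2 s t hst h, map_one]
        rfl
      rw [h2] at h1
      obtain ⟨k, hk, h3⟩ := hroot s t hst _ (Module.End.hasEigenvalue_of_hasEigenvector
        ⟨Module.End.mem_eigenspace_iff.mpr h1, hu⟩)
      rw [isOfFinOrder_iff_pow_eq_one]
      exact ⟨k, hk, Units.ext (by rw [Units.val_pow_eq_pow_val, h3, Units.val_one])⟩
  obtain ⟨N, hN, -, h5⟩ := common_exp (t := fun _ : Fin n => (1 : ℂˣ))
    (fun _ => IsOfFinOrder.one) hfin
  exact ⟨N, hN, h5⟩

/-- The hypothesis of the main theorem on families. -/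
def Splitless (V : Type*) [AddCommGroup V] [Module ℂ V]
    (P : ∀ (N : ℕ) (_ : Fin N → Fin N → (V ≃ₗ[ℂ] V)), Prop) : Prop :=
  ∀ (N : ℕ) (c : Fin N → Fin N → (V ≃ₗ[ℂ] V)), PB c → IrrF c → (∀ s, Act c s) →
    (∀ k, Cen (big c k)) → P N c → 5 ≤ N → finrank ℂ V + 2 ≤ N → NoSplit c

/-- **Assembly.**  If the families with at least `r + 2` strands do not split, then the
representation is in the cyclic covers or comes from at most `r + 1` points. -/
theorem assemble [FiniteDimensional ℂ V] (ρ : Representation ℂ (PureBraid n) V)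
    [ρ.IsIrreducible] (P : ∀ (N : ℕ) (_ : Fin N → Fin N → (V ≃ₗ[ℂ] V)), Prop)
    (hs : Splitless V P)
    (hP : ∀ (m : ℕ) (e : Fin m ↪o Fin n) (F : PureBraid n →* PureBraid m)
      (σ : Representation ℂ (PureBraid m) V) (χ : PureBraid n →* ℂˣ),
      IsForgetful e F → (∀ g, ρ g = (χ g : ℂ) • σ (F g)) →
      (∀ i j, fam σ i j = fam ρ (e i) (e j)) → (∀ s, Act (fam σ) s) →
      P m (fam σ) ∧ (Act (ext (fam σ)) 0 → P (m + 1) (ext (fam σ)))) :
    InCyclicCovers ρ ∨ ∃ (m : ℕ) (e : Fin m ↪o Fin n) (F : PureBraid n →* PureBraid m)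
      (σ : Representation ℂ (PureBraid m) V) (χ : PureBraid n →* ℂˣ),
      (m ≤ finrank ℂ V ∨ m = finrank ℂ V + 1 ∧ Spherical σ) ∧ IsForgetful e F ∧
      (∀ g, ρ g = (χ g : ℂ) • σ (F g)) ∧
      (RootEig ρ → ∃ N : ℕ, 0 < N ∧ ∀ g, χ g ^ N = 1) := by
  have hnt : Nontrivial V := by
    by_contra hcon
    rw [not_nontrivial_iff_subsingleton] at hcon
    have h1 : (⊥ : Subrepresentation ρ) = ⊤ := by
      apply Subrepresentation.toSubmodule_injective
      exact Subsingleton.elim _ _
    exact bot_ne_top h1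
  have hpos : 0 < finrank ℂ V := finrank_pos
  obtain ⟨m, e, F, σ, χ, hF, hρ, hroot, hfam, hrange⟩ := exists_active ρ
  have hsc : ∀ s t : Fin n, s ≠ t → ¬ (s ∈ Set.range e ∧ t ∈ Set.range e) →
      Cen (fam ρ s t) := by
    intro s t hst h
    exact cen_of_not_act (fam_pb ρ) hst fun h' => h ⟨(hrange s).2 h'.1, (hrange t).2 h'.2⟩
  have hirr : IrrF (fam σ) := by
    intro W hW
    apply fam_irr ρ W
    intro s t hst x hx
    by_cases h : s ∈ Set.range e ∧ t ∈ Set.range e
    · obtain ⟨⟨i, rfl⟩, ⟨j, rfl⟩⟩ := h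
      rw [← hfam]
      exact hW i j (fun h' => hst (by rw [h'])) x hx
    · obtain ⟨z, hz⟩ := (hsc s t hst h).scalar ρ
      rw [hz]
      exact W.smul_mem _ hx
  have hact : ∀ s, Act (fam σ) s := by
    intro s
    obtain ⟨j, hj, hj'⟩ := (hrange (e s)).1 ⟨s, rfl⟩
    obtain ⟨t, rfl⟩ := (hrange j).2 ⟨e s, hj.symm, by rwa [(fam_pb ρ).symm]⟩
    refine ⟨t, fun h' => hj (by rw [h']), ?_⟩
    rwa [hfam]
  obtain ⟨hP1, hP2⟩ := hP m e F σ χ hF hρ hfam hact
  by_cases h2 : finrank ℂ V = 2
  · left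
    exact inCyclicCovers ρ h2.ge fun i j hij => rank_two h2 _
  -- from rank one generators to cyclic covers
  have final : 2 ≤ finrank ℂ V → (∀ i j, i ≠ j → RkOne (fam σ i j)) → InCyclicCovers ρ := by
    intro h2 h
    refine inCyclicCovers ρ h2 fun i j hij => ?_
    have key : RkOne (fam ρ i j) := by
      by_cases h' : i ∈ Set.range e ∧ j ∈ Set.range e
      · obtain ⟨⟨k, rfl⟩, ⟨l, rfl⟩⟩ := h'
        rw [← hfam]
        exact h k l fun h'' => hij.ne (by rw [h''])
      · obtain ⟨z, hz⟩ := (hsc i j hij.ne h').scalar ρ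
        refine ⟨z, ?_⟩
        have : (fam ρ i j).toLinearMap - (z : ℂ) • LinearMap.id = 0 := by
          ext x
          rw [LinearMap.sub_apply, LinearMap.smul_apply, LinearMap.id_apply,
            LinearMap.zero_apply, sub_eq_zero]
          exact hz x
        rw [this, LinearMap.range_zero, finrank_bot]
        exact Nat.zero_le _
    have e1 : (fam ρ i j).toLinearMap = ρ (A i j hij) := by
      ext x
      exact fam_lt ρ hij x
    obtain ⟨c, hc⟩ := key
    rw [e1] at hc
    exact ⟨c, hc⟩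
  rcases Nat.lt_or_ge (finrank ℂ V) m with hm | hm
  swap
  · exact Or.inr ⟨m, e, F, σ, χ, Or.inl hm, hF, hρ, hroot⟩
  by_cases hinf : ∀ k, Cen (big (fam σ) k)
  · -- infinity is not active
    by_cases hm2 : m = finrank ℂ V + 1
    · exact Or.inr ⟨m, e, F, σ, χ, Or.inr ⟨hm2, spherical_of_cen σ hirr hinf⟩, hF, hρ, hroot⟩
    · left
      rcases Nat.lt_or_ge (finrank ℂ V) 2 with h1 | h1
      · -- rank one: no active strands
        exfalso
        have h1' : finrank ℂ V = 1 := by omega
        obtain ⟨j, hj, hj'⟩ := hact ⟨0, by omega⟩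
        apply hj'
        intro y
        obtain ⟨v, hv⟩ := finrank_eq_one_iff'.1 h1'
        have hsc1 : ∀ f : V ≃ₗ[ℂ] V, ∃ c : ℂ, ∀ x, f x = c • x := by
          intro f
          obtain ⟨c, hc⟩ := hv.2 (f v)
          refine ⟨c, fun x => ?_⟩
          obtain ⟨d, rfl⟩ := hv.2 x
          rw [map_smul, ← hc, smul_comm]
        obtain ⟨c, hc⟩ := hsc1 (fam σ ⟨0, by omega⟩ j)
        exact (cen_of_scalar hc) y
      · have hN : finrank ℂ V + 2 ≤ m := by omega
        have hns := hs m (fam σ) (fam_pb σ) hirr hact hinf hP1 (by omega) hN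
        have hg : Good (fam σ) := ⟨fam_pb σ, hirr, hns, hinf⟩
        have := hg.bound
        exact final h1 fun i j hij => hg.all (by omega) h1 hij
  · -- infinity is active
    left
    push Not at hinf
    obtain ⟨k, hk⟩ := hinf
    have hact0 : Act (ext (fam σ)) 0 := by
      refine ⟨k.succ, Fin.succ_ne_zero k, fun h => hk ?_⟩
      rw [Pool.Agent.Bst88.ext_zero_succ] at h
      have := h.inv
      rwa [inv_inv] at this
    have hactx : ∀ s, Act (ext (fam σ)) s := by
      intro s
      cases s using Fin.cases with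
      | zero => exact hact0
      | succ s =>
          obtain ⟨j, hj, hj'⟩ := hact s
          exact ⟨j.succ, fun h => hj (Fin.succ_injective _ h), hj'⟩
    have hirrx : IrrF (ext (fam σ)) := irrF_of_gp' hirr (gp_ext (fam σ)).ge
    have hsphx : ∀ k, Cen (big (ext (fam σ)) k) := by
      intro k
      obtain ⟨c, hc⟩ := schur (S := {f | ∃ i j, i ≠ j ∧ f = fam σ i j}) (by
        intro U hU
        exact hirr U fun i j hij => hU _ ⟨i, j, hij, rfl⟩) (big (ext (fam σ)) k) (by
        rintro f ⟨i, j, hij, rfl⟩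
        exact Pool.Agent.Bst88.big_ext_comm (fam_pb σ) k hij)
      exact cen_of_scalar hc
    have h1 : 2 ≤ finrank ℂ V := by
      by_contra hcon
      have h1' : finrank ℂ V = 1 := by omega
      apply hk
      obtain ⟨v, hv⟩ := finrank_eq_one_iff'.1 h1'
      obtain ⟨c, hc⟩ := hv.2 (big (fam σ) k v)
      refine cen_of_scalar (c := c) fun x => ?_
      obtain ⟨d, rfl⟩ := hv.2 x
      rw [map_smul, ← hc, smul_comm]
    have hns := hs (m + 1) (ext (fam σ)) (Pool.Agent.Bst88.PB.ext (fam_pb σ)) hirrx hactx hsphx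
      (hP2 hact0) (by omega) (by omega)
    have hg : Good (ext (fam σ)) := ⟨Pool.Agent.Bst88.PB.ext (fam_pb σ), hirrx, hns, hsphx⟩
    have := hg.bound
    refine final h1 fun i j hij => ?_
    have h5 := hg.all (by omega) h1 (i := i.succ) (j := j.succ)
      fun h => hij (Fin.succ_injective _ h)
    exact h5

end Pool.Agent.PFk
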